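import Mathlib

/-!
# Adapted metrics: definitions

`M` is a smooth manifold modelled on the finite-dimensional space `E`, with model with corners `I`;
`TangentSpace I x` is its tangent space at `x` and `mfderiv I I f x` the derivative of `f` at `x`.
A (smooth) Riemannian metric on `M` is a `Bundle.ContMDiffRiemannianMetric`, a continuous one a
`Bundle.ContinuousRiemannianMetric`; in both cases `g.inner x` is the inner product on the tangent
space at `x`.
-/

set_option autoImplicit false
set_option linter.unusedSectionVars false

open Set Filter Topology Function Bundle Manifold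
open scoped ContDiff

namespace Pool.Agent.R191.Met

variable {E : Type*} [NormedAddCommGroup E] [NormedSpace ℝ E]
  {H : Type*} [TopologicalSpace H] {I : ModelWithCorners ℝ E H}
  {M : Type*} [TopologicalSpace M] [ChartedSpace H M]

/-- The norm of a tangent vector in the metric `h`. -/
noncomputable def gnorm (h : ∀ x : M, TangentSpace I x →L[ℝ] TangentSpace I x →L[ℝ] ℝ) (x : M)
    (v : TangentSpace I x) : ℝ := Real.sqrt (h x v v)

/-- The norm of `v₁ ∧ ⋯ ∧ v_k` in the norm on the exterior power induced by the metric `h` (the square
root of the Gram determinant), that is, the `k`-dimensional volume of the parallelotope spanned by the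
`v_i`. -/
noncomputable def gvol (h : ∀ x : M, TangentSpace I x →L[ℝ] TangentSpace I x →L[ℝ] ℝ) {k : ℕ} (x : M)
    (v : Fin k → TangentSpace I x) : ℝ :=
  Real.sqrt (Matrix.det (Matrix.of fun i j => h x (v i) (v j)))

/-- `T_Λ M = Es ⊕ Fs` is a continuous splitting: the projection to `Es` along `Fs` depends continuously on
the point of `Λ` (as a section of the bundle of endomorphisms of the tangent spaces). -/
structure ContSplitting [IsManifold I 1 M] (Λ : Set M) (Es Fs : ∀ x : M, Submodule ℝ (TangentSpace I x)) :
    Prop where
  isCompl : ∀ x ∈ Λ, IsCompl (Es x) (Fs x)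
  continuous : ∃ P : ∀ x : M, TangentSpace I x →L[ℝ] TangentSpace I x,
    (∀ x ∈ Λ, (∀ v ∈ Es x, P x v = v) ∧ ∀ v ∈ Fs x, P x v = 0) ∧
    ContinuousOn (fun x => TotalSpace.mk' (E →L[ℝ] E)
      (E := fun x : M => (TangentSpace I x →L[ℝ] TangentSpace I x)) x (P x)) Λ

end Pool.Agent.R191.Met
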