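import Pool.Agent.R191.Met.Dyn

/-!
# Adapted metrics for diffeomorphisms
-/

set_option autoImplicit false
set_option linter.unusedSectionVars false

open Set Filter Topology Function Bundle Manifold
open scoped ContDiff

namespace Pool.Agent.R191.Met

variable {E : Type*} [NormedAddCommGroup E] [NormedSpace ℝ E] [FiniteDimensional ℝ E]
  {H : Type*} [TopologicalSpace H] {I : ModelWithCorners ℝ E H}
  {M : Type*} [TopologicalSpace M] [ChartedSpace H M] [IsManifold I ∞ M]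

variable {Λ : Set M} {Es Fs : ∀ x : M, Submodule ℝ (TangentSpace I x)}

lemma tau_ne {x₀ y : M} (hy : y ∈ bs I x₀) {v : TangentSpace I y} (hv : v ≠ 0) : tau I x₀ y v ≠ 0 := by
  intro h
  apply hv
  rw [← taui_tau hy v, h, map_zero]

/-- approximation by a smooth metric -/
theorem exists_smooth [T2Space M] [SigmaCompactSpace M] (hΛ : IsClosed Λ)
    (g₀ : ContMDiffRiemannianMetric I ∞ E (fun x : M => TangentSpace I x)) {φ : ∀ x : M, Frm I x}
    (hφ : Good Λ Es Fs φ) {a : ℝ} (ha : 1 < a) :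
    ∃ g : ContMDiffRiemannianMetric I ∞ E (fun x : M => TangentSpace I x),
      ∀ x ∈ Λ, ∀ v, lf g x v v ≤ a * φ x v v ∧ φ x v v ≤ a * lf g x v v := by
  obtain ⟨g, hg⟩ := exists_metric_of_local (I := I) (n := ⊤)
    (t := fun x : M => {h : TangentSpace I x →L[ℝ] TangentSpace I x →L[ℝ] ℝ |
      (∀ v w, h v w = h w v) ∧ (∀ v, v ≠ 0 → 0 < h v v) ∧
      (x ∈ Λ → ∀ v, h v v ≤ a * φ x v v ∧ φ x v v ≤ a * h v v)})
    (by
      intro x h₁ hh₁ h₂ hh₂ s t hs ht hst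
      refine ⟨fun v w => ?_, fun v hv => ?_, fun hx v => ?_⟩
      · show s • h₁ v w + t • h₂ v w = s • h₁ w v + t • h₂ w v
        rw [hh₁.1, hh₂.1]
      · show 0 < s • h₁ v v + t • h₂ v v
        have p₁ := hh₁.2.1 v hv
        have p₂ := hh₂.2.1 v hv
        simp only [smul_eq_mul]
        rcases hs.lt_or_eq with h | h
        · have : 0 ≤ t * h₂ v v := by positivity
          have : 0 < s * h₁ v v := by positivity
          linarith
        · have : t = 1 := by linarith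
          rw [← h, this]; linarith
      · show s • h₁ v v + t • h₂ v v ≤ a * φ x v v ∧ φ x v v ≤ a * (s • h₁ v v + t • h₂ v v)
        have p₁ := hh₁.2.2 hx v
        have p₂ := hh₂.2.2 hx v
        simp only [smul_eq_mul]
        constructor
        · have e1 := mul_le_mul_of_nonneg_left p₁.1 hs
          have e2 := mul_le_mul_of_nonneg_left p₂.1 ht
          have e3 : a * φ x v v = s * (a * φ x v v) + t * (a * φ x v v) := by
            rw [← add_mul, hst, one_mul]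
          linarith
        · have e1 := mul_le_mul_of_nonneg_left p₁.2 hs
          have e2 := mul_le_mul_of_nonneg_left p₂.2 ht
          have e3 : φ x v v = s * φ x v v + t * φ x v v := by rw [← add_mul, hst, one_mul]
          rw [e3, mul_add]
          calc s * φ x v v + t * φ x v v ≤ s * (a * h₁ v v) + t * (a * h₂ v v) := add_le_add e1 e2
            _ = _ := by ring)
    (fun x h hh => hh.1) (fun x h hh => hh.2.1) (by
      intro x₀
      by_cases hx₀ : x₀ ∈ Λ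
      · obtain ⟨B, hB, hev⟩ := hφ.oc x₀ hx₀
        obtain ⟨u, hu, hxu, husub⟩ := mem_nhdsWithin.1 (hev a ha)
        refine ⟨u ∩ bs I x₀, hu.inter (bs_open x₀), ⟨hxu, mem_bs x₀⟩, inter_subset_right,
          fun _ => B.toContinuousBilinearMap, contMDiffOn_const, ?_⟩
        rintro y ⟨hyu, hyb⟩
        refine ⟨fun v w => ?_, fun v hv => ?_, fun hy v => ?_⟩
        · rw [sloc_apply, sloc_apply]; exact hB.symm _ _
        · rw [sloc_apply]; exact hB.pos _ (tau_ne hyb hv)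
        · have := husub ⟨hyu, hy⟩ v
          rw [sloc_apply]
          exact this
      · obtain ⟨B, hB, -⟩ := (cc_metric g₀ univ x₀).oc (mem_univ x₀) (lf_pd g₀ x₀)
        refine ⟨Λᶜ ∩ bs I x₀, hΛ.isOpen_compl.inter (bs_open x₀), ⟨hx₀, mem_bs x₀⟩, inter_subset_right,
          fun _ => B.toContinuousBilinearMap, contMDiffOn_const, ?_⟩
        rintro y ⟨hyu, hyb⟩
        refine ⟨fun v w => ?_, fun v hv => ?_, fun hy v => absurd hy hyu⟩
        · rw [sloc_apply, sloc_apply]; exact hB.symm _ _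
        · rw [sloc_apply]; exact hB.pos _ (tau_ne hyb hv))
  exact ⟨g, fun x hx v => (hg x).2.2 hx v⟩

lemma gnorm_sq (g : ContMDiffRiemannianMetric I ∞ E (fun x : M => TangentSpace I x)) (x : M)
    (v : TangentSpace I x) : gnorm g.inner x v ^ 2 = lf g x v v :=
  Real.sq_sqrt ((lf_pd g x).nonneg v)

lemma gnorm_nonneg (h : ∀ x : M, TangentSpace I x →L[ℝ] TangentSpace I x →L[ℝ] ℝ) (x : M)
    (v : TangentSpace I x) : 0 ≤ gnorm h x v := Real.sqrt_nonneg _

lemma gvol_sq (g : ContMDiffRiemannianMetric I ∞ E (fun x : M => TangentSpace I x)) {k : ℕ} (x : M)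
    (v : Fin k → TangentSpace I x) : gvol g.inner x v ^ 2 = gram (lf g x) v :=
  Real.sq_sqrt (gram_nonneg (lf_pd g x) v)

lemma gvol_nonneg (h : ∀ x : M, TangentSpace I x →L[ℝ] TangentSpace I x →L[ℝ] ℝ) {k : ℕ} (x : M)
    (v : Fin k → TangentSpace I x) : 0 ≤ gvol h x v := Real.sqrt_nonneg _

/-- The three inequalities for the map `G` at the point `x`, with constants `a` for domination, `b` for
contraction and `c` for volume expansion. -/
structure Ineq (h : ∀ x : M, TangentSpace I x →L[ℝ] TangentSpace I x →L[ℝ] ℝ)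
    (Es Fs : ∀ x : M, Submodule ℝ (TangentSpace I x)) (k : ℕ) (G : M → M) (x : M) (a b c : ℝ) : Prop where
  dom : ∀ v ∈ Es x, ∀ w ∈ Fs x, gnorm h (G x) (mfderiv I I G x v) * gnorm h x w ≤
    a * (gnorm h x v * gnorm h (G x) (mfderiv I I G x w))
  con : ∀ v ∈ Es x, gnorm h (G x) (mfderiv I I G x v) ≤ b * gnorm h x v
  vol : ∀ v : Fin k → TangentSpace I x, (∀ i, v i ∈ Fs x) →
    c * gvol h x v ≤ gvol h (G x) (fun i => mfderiv I I G x (v i))

lemma ineq_of_rel (g : ContMDiffRiemannianMetric I ∞ E (fun x : M => TangentSpace I x)) {k : ℕ} {G : M → M}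
    {x : M} {s : ℝ} (hs : 0 < s) (h : Rel (Es x) (Fs x) k (s ^ 2) (lf g x) (pb I G (lf g) x)) :
    Ineq g.inner Es Fs k G x s s s⁻¹ := by
  refine ⟨fun v hv w hw => ?_, fun v hv => ?_, fun v hv => ?_⟩
  · have h1 := h.dom v hv w hw
    rw [pb_apply, pb_apply] at h1
    rw [← sq_le_sq₀ (mul_nonneg (gnorm_nonneg _ _ _) (gnorm_nonneg _ _ _))
      (mul_nonneg hs.le (mul_nonneg (gnorm_nonneg _ _ _) (gnorm_nonneg _ _ _))), mul_pow, mul_pow,
      mul_pow, gnorm_sq, gnorm_sq, gnorm_sq, gnorm_sq]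
    calc _ ≤ _ := h1
      _ = _ := by ring
  · have h1 := h.con v hv
    rw [pb_apply] at h1
    rw [← sq_le_sq₀ (gnorm_nonneg _ _ _) (mul_nonneg hs.le (gnorm_nonneg _ _ _)), mul_pow, gnorm_sq,
      gnorm_sq]
    exact h1
  · have h1 := h.vol v hv
    rw [← sq_le_sq₀ (mul_nonneg (inv_nonneg.2 hs.le) (gvol_nonneg _ _ _)) (gvol_nonneg _ _ _), mul_pow,
      gvol_sq, gvol_sq, inv_pow, inv_mul_le_iff₀ (by positivity)]
    exact h1

lemma rel_of_ineq (g : ContMDiffRiemannianMetric I ∞ E (fun x : M => TangentSpace I x)) {k : ℕ} {G : M → M}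
    {x : M} {a b c κ : ℝ} (ha : 0 ≤ a) (hb : 0 ≤ b) (hc : 0 < c) (haκ : a ^ 2 ≤ κ) (hbκ : b ^ 2 ≤ κ)
    (hcκ : (c ^ 2)⁻¹ ≤ κ) (h : Ineq g.inner Es Fs k G x a b c) {φ : ∀ x : M, Frm I x}
    (hmE : ∀ v ∈ Es x, mfderiv I I G x v ∈ Es (G x)) (hmF : ∀ v ∈ Fs x, mfderiv I I G x v ∈ Fs (G x))
    (hφ : ∀ y, y = x ∨ y = G x → (∀ v ∈ Es y, ∀ w ∈ Es y, φ y v w = lf g y v w) ∧
        ∀ v ∈ Fs y, ∀ w ∈ Fs y, φ y v w = lf g y v w) :
    Rel (Es x) (Fs x) k κ (φ x) (pb I G φ x) := by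
  have hx := hφ x (Or.inl rfl)
  have hGx := hφ (G x) (Or.inr rfl)
  refine ⟨fun v hv => ?_, fun v hv => ?_, fun v hv w hw => ?_⟩
  · have h1 := h.vol v hv
    rw [← sq_le_sq₀ (mul_nonneg hc.le (gvol_nonneg _ _ _)) (gvol_nonneg _ _ _), mul_pow, gvol_sq,
      gvol_sq] at h1
    have e1 : gram (φ x) v = gram (lf g x) v := by
      unfold gram
      congr 2
      funext i j
      exact hx.2 _ (hv i) _ (hv j)
    have e2 : gram (pb I G φ x) v = gram (lf g (G x)) (fun i => mfderiv I I G x (v i)) := by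
      unfold gram
      congr 2
      funext i j
      exact hGx.2 _ (hmF _ (hv i)) _ (hmF _ (hv j))
    rw [e1, e2]
    have h2 : 0 ≤ gram (lf g (G x)) (fun i => mfderiv I I G x (v i)) := gram_nonneg (lf_pd g _) _
    calc gram (lf g x) v = (c ^ 2)⁻¹ * (c ^ 2 * gram (lf g x) v) := by field_simp
      _ ≤ (c ^ 2)⁻¹ * gram (lf g (G x)) (fun i => mfderiv I I G x (v i)) := by gcongr
      _ ≤ κ * gram (lf g (G x)) (fun i => mfderiv I I G x (v i)) := by gcongr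
  · have h1 := h.con v hv
    rw [← sq_le_sq₀ (gnorm_nonneg _ _ _) (mul_nonneg hb (gnorm_nonneg _ _ _)), mul_pow, gnorm_sq,
      gnorm_sq] at h1
    rw [pb_apply, hGx.1 _ (hmE v hv) _ (hmE v hv), hx.1 v hv v hv]
    have h2 := (lf_pd g x).nonneg v
    calc _ ≤ _ := h1
      _ ≤ κ * lf g x v v := by gcongr
  · have h1 := h.dom v hv w hw
    rw [← sq_le_sq₀ (mul_nonneg (gnorm_nonneg _ _ _) (gnorm_nonneg _ _ _))
      (mul_nonneg ha (mul_nonneg (gnorm_nonneg _ _ _) (gnorm_nonneg _ _ _))), mul_pow, mul_pow,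
      mul_pow, gnorm_sq, gnorm_sq, gnorm_sq, gnorm_sq] at h1
    rw [pb_apply, pb_apply, hGx.1 _ (hmE v hv) _ (hmE v hv), hx.1 v hv v hv,
      hGx.2 _ (hmF w hw) _ (hmF w hw), hx.2 w hw w hw]
    have h2 := (lf_pd g x).nonneg v
    have h3 := (lf_pd g (G x)).nonneg (mfderiv I I G x w)
    calc _ ≤ _ := h1
      _ ≤ κ * (lf g x v v * lf g (G x) (mfderiv I I G x w) (mfderiv I I G x w)) := by gcongr
      _ = _ := by ring

/-- the general theorem for maps -/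
theorem exists_adapted [T2Space M] [SigmaCompactSpace M] (hΛ : IsCompact Λ) (hs : ContSplitting Λ Es Fs)
    {G : M → M} (hG : Sys Λ Es Fs G)
    (g₀ : ContMDiffRiemannianMetric I ∞ E (fun x : M => TangentSpace I x)) {k : ℕ}
    {a b c : ℕ → ℝ} (ha0 : ∀ n, 0 ≤ a n) (hb0 : ∀ n, 0 ≤ b n) (hc0 : ∀ n, 0 < c n)
    (ha : Tendsto a atTop (𝓝 0)) (hb : Tendsto b atTop (𝓝 0)) (hc : Tendsto c atTop atTop)
    (h : ∀ x ∈ Λ, ∀ n, 1 ≤ n → Ineq g₀.inner Es Fs k G^[n] x (a n) (b n) (c n)) :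
    ∃ (g : ContMDiffRiemannianMetric I ∞ E (fun x : M => TangentSpace I x)) (lam : ℝ), 0 < lam ∧
      ∀ x ∈ Λ, ∀ n : ℕ, Ineq g.inner Es Fs k G^[n] x (Real.exp (-(lam * n))) (Real.exp (-(lam * n)))
        (Real.exp (lam * n)) := by
  obtain ⟨φ, hφ, hφg⟩ := ini_good hs g₀
  -- a large power of two
  have hev : ∀ᶠ n in atTop, a n ^ 2 < 1 / 2 ∧ b n ^ 2 < 1 / 2 ∧ (c n ^ 2)⁻¹ < 1 / 2 := by
    have e1 : Tendsto (fun n => a n ^ 2) atTop (𝓝 (0 ^ 2)) := ha.pow 2
    have e2 : Tendsto (fun n => b n ^ 2) atTop (𝓝 (0 ^ 2)) := hb.pow 2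
    have e3 : Tendsto (fun n => (c n ^ 2)⁻¹) atTop (𝓝 0) :=
      tendsto_inv_atTop_zero.comp ((tendsto_pow_atTop (by norm_num)).comp hc)
    rw [zero_pow (by norm_num)] at e1 e2
    exact (e1.eventually_lt_const (by norm_num)).and
      ((e2.eventually_lt_const (by norm_num)).and (e3.eventually_lt_const (by norm_num)))
  have hpow : Tendsto (fun m : ℕ => 2 ^ m) atTop atTop := tendsto_pow_atTop_atTop_of_one_lt (by norm_num)
  obtain ⟨m, hm1, hm2, hm3⟩ := (hpow.eventually hev).exists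
  have hGm := hG.iterate (2 ^ m)
  have hrel : ∀ x ∈ Λ, Rel (Es x) (Fs x) k (1 / 2) (φ x) (pb I G^[2 ^ m] φ x) := by
    intro x hx
    refine rel_of_ineq g₀ (ha0 _) (hb0 _) (hc0 _) hm1.le hm2.le hm3.le (h x hx _ Nat.one_le_two_pow)
      (hGm.mapE x hx) (hGm.mapF x hx) ?_
    rintro y (rfl | rfl)
    · exact hφg _ hx
    · exact hφg _ (hGm.maps hx)
  obtain ⟨φ', κ, hκ0, hκ1, hφ', hr⟩ := descend hs.isCompl hG m φ (1 / 2) (by norm_num) (by norm_num) hφ hrel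
  -- smoothing
  set κ₁ := max κ (1 / 2) with hκ₁
  have hκ₁0 : 0 < κ₁ := lt_max_of_lt_right (by norm_num)
  have hκ₁1 : κ₁ < 1 := max_lt hκ1 (by norm_num)
  obtain ⟨r, hr1, hr2⟩ : ∃ r : ℝ, 1 < r ∧ κ₁ * r ^ (2 * k + 4) < 1 := by
    have hcont : Continuous fun r : ℝ => κ₁ * r ^ (2 * k + 4) := by fun_prop
    have h1 : ∀ᶠ r in 𝓝 (1 : ℝ), κ₁ * r ^ (2 * k + 4) < 1 :=
      (hcont.tendsto 1).eventually_lt_const (by rw [one_pow, mul_one]; exact hκ₁1)
    have h2 : ∀ᶠ r in 𝓝[>] (1 : ℝ), κ₁ * r ^ (2 * k + 4) < 1 := mem_nhdsWithin_of_mem_nhds h1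
    obtain ⟨r, hr⟩ := (h2.and self_mem_nhdsWithin).exists
    exact ⟨r, hr.2, hr.1⟩
  obtain ⟨g, hg⟩ := exists_smooth hΛ.isClosed g₀ hφ' hr1
  set κ₂ := κ₁ * r ^ (2 * k + 4) with hκ₂
  have hκ₂0 : 0 < κ₂ := by positivity
  have hrel2 : ∀ x ∈ Λ, Rel (Es x) (Fs x) k κ₂ (lf g x) (pb I G (lf g) x) := by
    intro x hx
    have p1 := hφ'.pd x hx
    have p2 : PD (pb I G φ' x) := pb_pd hG hx (hφ'.pd _ (hG.maps hx))
    have p3 : PD (pb I G (lf g) x) := pb_pd hG hx (lf_pd g _)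
    have h1 := (hr x hx).mono p1 p2 (le_max_left κ (1 / 2))
    exact rel_perturb hκ₁0.le hr1.le p1 (lf_pd g x) p2 p3 (fun v => (hg x hx v).1)
      (fun v => (hg x hx v).2) (fun v => (hg _ (hG.maps hx) _).1) (fun v => (hg _ (hG.maps hx) _).2) h1
  have hit := rel_iterate hG hκ₂0.le (fun x _ => lf_pd g x) hrel2
  refine ⟨g, -Real.log κ₂ / 2, by have := Real.log_neg hκ₂0 hr2; linarith, fun x hx n => ?_⟩
  have h1 := hit n x hx
  have e : κ₂ ^ n = Real.exp (-((-Real.log κ₂ / 2) * n)) ^ 2 := by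
    rw [← Real.exp_nat_mul, ← Real.exp_log (pow_pos hκ₂0 n), Real.log_pow]
    congr 1
    push_cast
    ring
  rw [e] at h1
  have h2 := ineq_of_rel g (Real.exp_pos _) h1
  rw [← Real.exp_neg, neg_neg] at h2
  exact h2

end Pool.Agent.R191.Met
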