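import Pool.Agent.R191.Met.Glue
import Pool.Agent.R191.Met.Defs

/-!
# Families of inner products and dynamics
-/

set_option autoImplicit false
set_option linter.unusedSectionVars false

open Set Filter Topology Function Bundle Manifold
open scoped ContDiff

namespace Pool.Agent.R191.Met

variable {E : Type*} [NormedAddCommGroup E] [NormedSpace ℝ E] [FiniteDimensional ℝ E]
  {H : Type*} [TopologicalSpace H] {I : ModelWithCorners ℝ E H}
  {M : Type*} [TopologicalSpace M] [ChartedSpace H M] [IsManifold I ∞ M]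

instance man1 : IsManifold I 1 M := IsManifold.of_le (n := ∞) (by simp)

/-- a `C¹` map preserving the set and the splitting -/
structure Sys (Λ : Set M) (Es Fs : ∀ x : M, Submodule ℝ (TangentSpace I x)) (g : M → M) : Prop where
  smooth : ContMDiff I I 1 g
  maps : MapsTo g Λ Λ
  inj : ∀ x ∈ Λ, Injective (mfderiv I I g x)
  mapE : ∀ x ∈ Λ, ∀ v ∈ Es x, mfderiv I I g x v ∈ Es (g x)
  mapF : ∀ x ∈ Λ, ∀ v ∈ Fs x, mfderiv I I g x v ∈ Fs (g x)

variable (I) in
/-- the pulled back family of forms -/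
noncomputable def pb (g : M → M) (φ : ∀ x : M, Frm I x) (x : M) : Frm I x :=
  (φ (g x)).compl₁₂ (mfderiv I I g x : TangentSpace I x →ₗ[ℝ] TangentSpace I (g x)) (mfderiv I I g x)

lemma pb_apply (g : M → M) (φ : ∀ x : M, Frm I x) (x : M) (v w : TangentSpace I x) :
    pb I g φ x v w = φ (g x) (mfderiv I I g x v) (mfderiv I I g x w) := rfl

/-- a good family of inner products over `Λ` -/
structure Good (Λ : Set M) (Es Fs : ∀ x : M, Submodule ℝ (TangentSpace I x)) (φ : ∀ x : M, Frm I x) :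
    Prop where
  pd : ∀ x ∈ Λ, PD (φ x)
  orth : ∀ x ∈ Λ, Orth (Es x) (Fs x) (φ x)
  oc : ∀ x ∈ Λ, OC Λ x id φ

variable {Λ : Set M} {Es Fs : ∀ x : M, Submodule ℝ (TangentSpace I x)} {g g₁ g₂ : M → M}
  {φ φ₁ φ₂ : ∀ x : M, Frm I x}

lemma pb_comp (h₁ : ContMDiff I I 1 g₁) (h₂ : ContMDiff I I 1 g₂) (x : M) :
    pb I (g₁ ∘ g₂) φ x = pb I g₂ (pb I g₁ φ) x := by
  ext v w
  rw [pb_apply, pb_apply, pb_apply]
  have e : mfderiv I I (g₁ ∘ g₂) x = (mfderiv I I g₁ (g₂ x)).comp (mfderiv I I g₂ x) :=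
    mfderiv_comp x ((h₁ _).mdifferentiableAt (by simp)) ((h₂ x).mdifferentiableAt (by simp))
  rw [e]
  rfl

lemma Sys.comp (h₁ : Sys Λ Es Fs g₁) (h₂ : Sys Λ Es Fs g₂) : Sys Λ Es Fs (g₁ ∘ g₂) := by
  have e : ∀ x, mfderiv I I (g₁ ∘ g₂) x = (mfderiv I I g₁ (g₂ x)).comp (mfderiv I I g₂ x) := fun x =>
    mfderiv_comp x ((h₁.smooth _).mdifferentiableAt (by simp))
      ((h₂.smooth x).mdifferentiableAt (by simp))
  refine ⟨h₁.smooth.comp h₂.smooth, h₁.maps.comp h₂.maps, fun x hx => ?_, fun x hx v hv => ?_,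
    fun x hx v hv => ?_⟩
  · rw [e]
    exact (h₁.inj _ (h₂.maps hx)).comp (h₂.inj x hx)
  · rw [e]
    exact h₁.mapE _ (h₂.maps hx) _ (h₂.mapE x hx v hv)
  · rw [e]
    exact h₁.mapF _ (h₂.maps hx) _ (h₂.mapF x hx v hv)

lemma Sys.id : Sys (I := I) Λ Es Fs (id : M → M) := by
  refine ⟨contMDiff_id, mapsTo_id _, fun x hx => ?_, fun x hx v hv => ?_, fun x hx v hv => ?_⟩
  · rw [mfderiv_id]; exact injective_id
  · rw [mfderiv_id]; exact hv
  · rw [mfderiv_id]; exact hv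

lemma Sys.iterate (h : Sys Λ Es Fs g) (n : ℕ) : Sys Λ Es Fs g^[n] := by
  induction n with
  | zero => exact Sys.id
  | succ n ih => rw [iterate_succ]; exact ih.comp h

/-- the derivative as a linear equivalence -/
noncomputable def derE (h : Sys Λ Es Fs g) {x : M} (hx : x ∈ Λ) : TangentSpace I x ≃ₗ[ℝ] TangentSpace I (g x) :=
  LinearEquiv.ofInjectiveOfFinrankEq (mfderiv I I g x : TangentSpace I x →ₗ[ℝ] TangentSpace I (g x))
    (h.inj x hx) rfl

lemma derE_apply (h : Sys Λ Es Fs g) {x : M} (hx : x ∈ Λ) (v : TangentSpace I x) :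
    derE h hx v = mfderiv I I g x v := rfl

lemma pb_pd (h : Sys Λ Es Fs g) {x : M} (hx : x ∈ Λ) (hφ : PD (φ (g x))) : PD (pb I g φ x) :=
  hφ.comap (h.inj x hx)

lemma pb_orth (h : Sys Λ Es Fs g) {x : M} (hx : x ∈ Λ) (hφ : Orth (Es (g x)) (Fs (g x)) (φ (g x))) :
    Orth (Es x) (Fs x) (pb I g φ x) :=
  fun v hv w hw => hφ _ (h.mapE x hx v hv) _ (h.mapF x hx w hw)

lemma Good.pb (h : Sys Λ Es Fs g) (hφ : Good Λ Es Fs φ) : Good Λ Es Fs (pb I g φ) := by
  refine ⟨fun x hx => pb_pd h hx (hφ.pd _ (h.maps hx)), fun x hx => pb_orth h hx (hφ.orth _ (h.maps hx)),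
    fun x hx => ?_⟩
  have h1 : CC Λ (g x) id φ := (hφ.oc _ (h.maps hx)).cc
  have hc : ContinuousWithinAt g Λ x := h.smooth.continuous.continuousWithinAt
  have h2 : CC Λ x g (fun n => φ (g n)) := CC.comp hc h.maps h1
  have hD : ContinuousWithinAt (inTangentCoordinates I I id g (fun x => mfderiv I I g x) x) Λ x :=
    ((h.smooth x).mfderiv_const (m := 0) (by simp)).continuousAt.continuousWithinAt
  have h3 : CC Λ x id (Met.pb I g φ) :=
    CC.pull (b := (_root_.id : M → M)) (c := g) (D := fun x => mfderiv I I g x) continuousWithinAt_id hD h2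
  exact h3.oc hx (pb_pd h hx (hφ.pd _ (h.maps hx)))

lemma Good.mean (hc : ∀ x ∈ Λ, IsCompl (Es x) (Fs x)) (h₁ : Good Λ Es Fs φ₁) (h₂ : Good Λ Es Fs φ₂) :
    Good Λ Es Fs (fun x => Met.mean (φ₁ x) (φ₂ x)) :=
  ⟨fun x hx => (mean_spec (h₁.pd x hx) (h₂.pd x hx)).pd,
    fun x hx => mean_orth (hc x hx) (h₁.pd x hx) (h₂.pd x hx) (h₁.orth x hx) (h₂.orth x hx)
      (mean_spec (h₁.pd x hx) (h₂.pd x hx)),
    fun x hx => OC.mean continuousWithinAt_id (h₁.oc x hx) (h₂.oc x hx) h₁.pd h₂.pd⟩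

/-- the averaging step -/
noncomputable def avg (g : M → M) (φ : ∀ x : M, Frm I x) (x : M) : Frm I x :=
  Met.mean (φ x) (pb I g φ x)

lemma Good.avg (hc : ∀ x ∈ Λ, IsCompl (Es x) (Fs x)) (h : Sys Λ Es Fs g) (hφ : Good Λ Es Fs φ) :
    Good Λ Es Fs (avg g φ) := Good.mean hc hφ (hφ.pb h)

/-- naturality of the averaging -/
lemma pb_avg {g' : M → M} (h : Sys Λ Es Fs g) (h' : Sys Λ Es Fs g') (hφ : Good Λ Es Fs φ) {x : M}
    (hx : x ∈ Λ) : IsMean (pb I g' φ x) (pb I g' (pb I g φ) x) (pb I g' (avg g φ) x) := by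
  have h1 := mean_spec (hφ.pd _ (h'.maps hx)) ((hφ.pb h).pd _ (h'.maps hx))
  exact h1.comap (derE h' hx)

theorem avg_rel (hc : ∀ x ∈ Λ, IsCompl (Es x) (Fs x)) (h : Sys Λ Es Fs g) (hφ : Good Λ Es Fs φ)
    {k : ℕ} {κ : ℝ} (hκ : 0 ≤ κ)
    (hr : ∀ x ∈ Λ, Rel (Es x) (Fs x) k (κ ^ 2) (φ x) (pb I g (pb I g φ) x)) :
    ∀ x ∈ Λ, Rel (Es x) (Fs x) k κ (avg g φ x) (pb I g (avg g φ) x) := by
  intro x hx
  have h1 := hφ.pb h
  have h2 := h1.pb h
  exact rel_half (hc x hx) hκ (hφ.pd x hx) (h1.pd x hx) (h2.pd x hx) (hφ.orth x hx) (h1.orth x hx)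
    (h2.orth x hx) (mean_spec (hφ.pd x hx) (h1.pd x hx)) (pb_avg h h hφ hx) (hr x hx)

theorem descend (hc : ∀ x ∈ Λ, IsCompl (Es x) (Fs x)) (h : Sys Λ Es Fs g) {k : ℕ} (m : ℕ) :
    ∀ (φ : ∀ x : M, Frm I x) (κ : ℝ), 0 ≤ κ → κ < 1 → Good Λ Es Fs φ →
      (∀ x ∈ Λ, Rel (Es x) (Fs x) k κ (φ x) (pb I g^[2 ^ m] φ x)) →
      ∃ (φ' : ∀ x : M, Frm I x) (κ' : ℝ), 0 ≤ κ' ∧ κ' < 1 ∧ Good Λ Es Fs φ' ∧
        ∀ x ∈ Λ, Rel (Es x) (Fs x) k κ' (φ' x) (pb I g φ' x) := by
  induction m with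
  | zero =>
    intro φ κ h0 h1 hφ hr
    exact ⟨φ, κ, h0, h1, hφ, by simpa using hr⟩
  | succ m ih =>
    intro φ κ h0 h1 hφ hr
    have hg := h.iterate (2 ^ m)
    have hs : Real.sqrt κ ^ 2 = κ := Real.sq_sqrt h0
    have e : g^[2 ^ (m + 1)] = g^[2 ^ m] ∘ g^[2 ^ m] := by
      rw [← iterate_add, pow_succ, mul_two]
    have hr' : ∀ x ∈ Λ, Rel (Es x) (Fs x) k (Real.sqrt κ ^ 2) (φ x)
        (pb I g^[2 ^ m] (pb I g^[2 ^ m] φ) x) := by
      intro x hx
      rw [hs, ← pb_comp hg.smooth hg.smooth, ← e]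
      exact hr x hx
    have h2 := avg_rel hc hg hφ (Real.sqrt_nonneg κ) hr'
    have h3 : Real.sqrt κ < 1 := by
      rw [Real.sqrt_lt' one_pos, one_pow]; exact h1
    exact ih (avg g^[2 ^ m] φ) (Real.sqrt κ) (Real.sqrt_nonneg κ) h3 (hφ.avg hc hg) h2

lemma Rel.mono {V : Type*} [AddCommGroup V] [Module ℝ V] [FiniteDimensional ℝ V] {E' F' : Submodule ℝ V}
    {k : ℕ} {κ κ' : ℝ} {P R : V →ₗ[ℝ] V →ₗ[ℝ] ℝ} (hP : PD P) (hR : PD R) (hκ : κ ≤ κ')
    (h : Rel E' F' k κ P R) : Rel E' F' k κ' P R := by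
  refine ⟨fun v hv => (h.vol v hv).trans ?_, fun v hv => (h.con v hv).trans ?_,
    fun v hv w hw => (h.dom v hv w hw).trans ?_⟩
  · exact mul_le_mul_of_nonneg_right hκ (gram_nonneg hR v)
  · exact mul_le_mul_of_nonneg_right hκ (hP.nonneg v)
  · exact mul_le_mul_of_nonneg_right hκ (mul_nonneg (hR.nonneg w) (hP.nonneg v))

/-- iteration of the relation -/
theorem rel_iterate (h : Sys Λ Es Fs g) {k : ℕ} {κ : ℝ} (hκ : 0 ≤ κ) (hφ : ∀ x ∈ Λ, PD (φ x))
    (hr : ∀ x ∈ Λ, Rel (Es x) (Fs x) k κ (φ x) (pb I g φ x)) (n : ℕ) :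
    ∀ x ∈ Λ, Rel (Es x) (Fs x) k (κ ^ n) (φ x) (pb I g^[n] φ x) := by
  induction n with
  | zero =>
    intro x hx
    have e : pb I g^[0] φ x = φ x := by
      ext v w
      rw [pb_apply]
      have : mfderiv I I g^[0] x = ContinuousLinearMap.id ℝ (TangentSpace I x) := mfderiv_id
      rw [this]
      rfl
    rw [e, pow_zero]
    exact ⟨fun v hv => by rw [one_mul], fun v hv => by rw [one_mul],
      fun v hv w hw => by rw [one_mul, mul_comm]⟩
  | succ n ih =>
    intro x hx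
    have hgn := h.iterate n
    have e : g^[n + 1] = g^[n] ∘ g := iterate_succ g n
    rw [e, pb_comp hgn.smooth h.smooth, pow_succ']
    have h1 := ih (g x) (h.maps hx)
    have h2 : Rel (Es x) (Fs x) k (κ ^ n) (pb I g φ x) (pb I g (pb I g^[n] φ) x) :=
      h1.comap (mfderiv I I g x : TangentSpace I x →ₗ[ℝ] TangentSpace I (g x)) (h.mapE x hx) (h.mapF x hx)
    have p1 : PD (pb I g φ x) := pb_pd h hx (hφ _ (h.maps hx))
    have p2 : PD (pb I g (pb I g^[n] φ) x) :=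
      pb_pd h hx (pb_pd hgn (h.maps hx) (hφ _ (hgn.maps (h.maps hx))))
    exact rel_trans hκ (pow_nonneg hκ n) (hφ x hx) p1 p2 (hr x hx) h2

/-! ### the initial metric -/

lemma cc_proj {P : ∀ x : M, TangentSpace I x →L[ℝ] TangentSpace I x} {x₀ : M}
    (hP : ContinuousWithinAt (inTangentCoordinates I I id id P x₀) Λ x₀)
    (g₀ : ContMDiffRiemannianMetric I ∞ E (fun x : M => TangentSpace I x)) :
    CC (I := I) Λ x₀ (_root_.id : M → M)
      (fun x : M => ((lf g₀ x).compl₁₂ (P x).toLinearMap (P x).toLinearMap : Frm I x)) :=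
  CC.pull (b := (_root_.id : M → M)) (c := (_root_.id : M → M)) continuousWithinAt_id hP (cc_metric g₀ Λ x₀)

/-- the initial family -/
noncomputable def ini (g₀ : ContMDiffRiemannianMetric I ∞ E (fun x : M => TangentSpace I x))
    (P : ∀ x : M, TangentSpace I x →L[ℝ] TangentSpace I x) (x : M) : Frm I x :=
  (lf g₀ x).compl₁₂ (P x : TangentSpace I x →ₗ[ℝ] TangentSpace I x) (P x) +
    (lf g₀ x).compl₁₂ (ContinuousLinearMap.id ℝ (TangentSpace I x) - P x :
      TangentSpace I x →L[ℝ] TangentSpace I x).toLinearMap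
      (ContinuousLinearMap.id ℝ (TangentSpace I x) - P x : TangentSpace I x →L[ℝ] TangentSpace I x).toLinearMap

lemma ini_apply (g₀ : ContMDiffRiemannianMetric I ∞ E (fun x : M => TangentSpace I x))
    (P : ∀ x : M, TangentSpace I x →L[ℝ] TangentSpace I x) (x : M) (v w : TangentSpace I x) :
    ini g₀ P x v w = lf g₀ x (P x v) (P x w) + lf g₀ x (v - P x v) (w - P x w) := rfl

theorem ini_good (hs : ContSplitting Λ Es Fs)
    (g₀ : ContMDiffRiemannianMetric I ∞ E (fun x : M => TangentSpace I x)) :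
    ∃ φ : ∀ x : M, Frm I x, Good Λ Es Fs φ ∧
      (∀ x ∈ Λ, (∀ v ∈ Es x, ∀ w ∈ Es x, φ x v w = lf g₀ x v w) ∧
        ∀ v ∈ Fs x, ∀ w ∈ Fs x, φ x v w = lf g₀ x v w) := by
  obtain ⟨P, hP, hPc⟩ := hs.continuous
  refine ⟨ini g₀ P, ?_, fun x hx => ⟨fun v hv w hw => ?_, fun v hv w hw => ?_⟩⟩
  · have hpd : ∀ x ∈ Λ, PD (ini g₀ P x) := by
      intro x hx
      refine ⟨fun v w => ?_, fun v hv => ?_⟩
      · rw [ini_apply, ini_apply, (lf_pd g₀ x).symm, (lf_pd g₀ x).symm (v - P x v)]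
      · rw [ini_apply]
        have h1 := (lf_pd g₀ x).nonneg (P x v)
        have h2 := (lf_pd g₀ x).nonneg (v - P x v)
        by_cases hPv : P x v = 0
        · rw [hPv, sub_zero]
          have h3 := (lf_pd g₀ x).pos v hv
          simp only [map_zero]
          linarith
        · have h3 := (lf_pd g₀ x).pos _ hPv
          linarith
    refine ⟨hpd, fun x hx v hv w hw => ?_, fun x hx => ?_⟩
    · rw [ini_apply, (hP x hx).1 v hv, (hP x hx).2 w hw, sub_self]
      simp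
    · apply CC.oc _ hx (hpd x hx)
      have h1 : ContinuousWithinAt (inTangentCoordinates I I id id P x) Λ x := by
        have h2 := hPc x hx
        rw [continuousWithinAt_hom_bundle] at h2
        exact h2.2
      have h2 : ContinuousWithinAt (inTangentCoordinates I I id id
          (fun y => (ContinuousLinearMap.id ℝ (TangentSpace I y) - P y :
            TangentSpace I y →L[ℝ] TangentSpace I y)) x) Λ x := by
        have h3 : ContinuousWithinAt (fun y => ContinuousLinearMap.id ℝ E -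
            inTangentCoordinates I I id id P x y) Λ x := continuousWithinAt_const.sub h1
        have hb : ∀ᶠ y in 𝓝[Λ] x, y ∈ bs I x :=
          mem_nhdsWithin_of_mem_nhds ((bs_open (I := I) x).mem_nhds (mem_bs (I := I) x))
        have key : ∀ y ∈ bs I x, inTangentCoordinates I I id id
          (fun y => (ContinuousLinearMap.id ℝ (TangentSpace I y) - P y :
            TangentSpace I y →L[ℝ] TangentSpace I y)) x y = ContinuousLinearMap.id ℝ E -
            inTangentCoordinates I I id id P x y := by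
          intro y hy
          ext u
          have e1 : inTangentCoordinates I I id id
            (fun y => (ContinuousLinearMap.id ℝ (TangentSpace I y) - P y :
              TangentSpace I y →L[ℝ] TangentSpace I y)) x y u =
              tau I x y (taui I x y u - P y (taui I x y u)) := rfl
          have e2 : inTangentCoordinates I I id id P x y u = tau I x y (P y (taui I x y u)) := rfl
          rw [e1, map_sub, tau_taui hy]
          rw [ContinuousLinearMap.sub_apply, e2]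
          rfl
        refine h3.congr_of_eventuallyEq ?_ (key x (mem_bs x))
        filter_upwards [hb] with y hy
        exact key y hy
      exact CC.add (cc_proj h1 g₀) (cc_proj h2 g₀)
  · rw [ini_apply, (hP x hx).1 v hv, (hP x hx).1 w hw, sub_self]
    simp
  · rw [ini_apply, (hP x hx).2 v hv, (hP x hx).2 w hw]
    simp

end Pool.Agent.R191.Met
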