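import Pool.Agent.R191.Met.FlowLim

/-!
# Extension of a family of inner products over a closed set to a continuous metric
-/

set_option autoImplicit false
set_option linter.unusedSectionVars false

open Set Filter Topology Function Bundle Manifold
open scoped ContDiff

namespace Pool.Agent.R191.Met

variable {E : Type*} [NormedAddCommGroup E] [NormedSpace ℝ E] [FiniteDimensional ℝ E]
  {H : Type*} [TopologicalSpace H] {I : ModelWithCorners ℝ E H}
  {M : Type*} [TopologicalSpace M] [ChartedSpace H M] [IsManifold I ∞ M]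

variable {Λ : Set M} {Es Fs : ∀ x : M, Submodule ℝ (TangentSpace I x)} {φ : ∀ x : M, Frm I x}

/-- continuity of the change of coordinates -/
lemma coord_cont (x₀ y₀ : M) (hy₀ : y₀ ∈ bs I x₀) (u : E) :
    ContinuousAt (fun y => tau I y₀ y (taui I x₀ y u)) y₀ := by
  set e₁ := trivializationAt E (TangentSpace I : M → Type _) x₀ with he₁
  set e₂ := trivializationAt E (TangentSpace I : M → Type _) y₀ with he₂
  have h1 : ContinuousOn (fun b => (Trivialization.coordChangeL ℝ e₁ e₂ b : E →L[ℝ] E))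
      (e₁.baseSet ∩ e₂.baseSet) := continuousOn_coordChange ℝ e₁ e₂
  have hmem : y₀ ∈ e₁.baseSet ∩ e₂.baseSet := ⟨hy₀, mem_bs y₀⟩
  have hopen : e₁.baseSet ∩ e₂.baseSet ∈ 𝓝 y₀ :=
    (e₁.open_baseSet.inter e₂.open_baseSet).mem_nhds hmem
  have h2 : ContinuousAt (fun b => (Trivialization.coordChangeL ℝ e₁ e₂ b : E →L[ℝ] E) u) y₀ :=
    (h1.continuousAt hopen).clm_apply continuousAt_const
  refine h2.congr ?_
  filter_upwards [hopen] with y hy
  have e3 : (Trivialization.coordChangeL ℝ e₁ e₂ y : E →L[ℝ] E) u = (e₂ ⟨y, e₁.symm y u⟩).2 :=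
    Trivialization.coordChangeL_apply e₁ e₂ hy u
  rw [e3]
  have e4 : e₁.symm y u = taui I x₀ y u := symm_eq_taui hy.1 u
  rw [e4]
  have e5 : tau I y₀ y (taui I x₀ y u) = (e₂ ⟨y, taui I x₀ y u⟩).2 := by
    unfold tau
    exact Trivialization.continuousLinearMapAt_apply_of_mem ℝ e₂ hy.2 _
  exact e5.symm

variable (I) in
/-- the form read in the trivialisation at `x₀` -/
noncomputable def rd (φ : ∀ x : M, Frm I x) (x₀ y : M) : E →L[ℝ] E →L[ℝ] ℝ :=
  ((φ y).compl₁₂ (taui I x₀ y : E →ₗ[ℝ] TangentSpace I y) (taui I x₀ y)).toContinuousBilinearMap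

lemma rd_apply (φ : ∀ x : M, Frm I x) (x₀ y : M) (u w : E) :
    rd I φ x₀ y u w = φ y (taui I x₀ y u) (taui I x₀ y w) := rfl

lemma rd_cont (hφ : ∀ x ∈ Λ, CC Λ x id φ) (hpd : ∀ x ∈ Λ, PD (φ x)) (x₀ : M) :
    ContinuousOn (rd I φ x₀) (Λ ∩ bs I x₀) := by
  have key : ∀ u : E, ContinuousOn (fun y => rd I φ x₀ y u u) (Λ ∩ bs I x₀) := by
    rintro u y₀ ⟨hy₀, hb⟩
    obtain ⟨B, hBs, hB⟩ := hφ y₀ hy₀
    have hval := cc_value hB hy₀ (taui I x₀ y₀ u)
    set A : M → E := fun y => tau I y₀ y (taui I x₀ y u) with hA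
    have hAc : ContinuousAt A y₀ := coord_cont x₀ y₀ hb u
    have hBc : ContinuousAt (fun y => B (A y) (A y)) y₀ := by
      have h1 : Continuous fun t : E => B t t := by
        have : Continuous fun t : E => B.toContinuousBilinearMap t t := by fun_prop
        exact this
      exact h1.continuousAt.comp hAc
    have hbd : ∀ᶠ y in 𝓝 y₀, ‖A y‖ ^ 2 < ‖A y₀‖ ^ 2 + 1 :=
      ((hAc.norm.pow 2).tendsto).eventually_lt_const (lt_add_one _)
    have hval' : rd I φ x₀ y₀ u u = B (A y₀) (A y₀) := hval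
    show Tendsto _ _ _
    rw [Metric.tendsto_nhds]
    intro ε hε
    have hBε : ∀ᶠ y in 𝓝 y₀, dist (B (A y) (A y)) (B (A y₀) (A y₀)) < ε / 2 :=
      hBc.eventually (Metric.ball_mem_nhds _ (by linarith))
    have hBk := hB (ε / 2 / (‖A y₀‖ ^ 2 + 1)) (by positivity)
    have hBk' : ∀ᶠ y in 𝓝[Λ ∩ bs I x₀] y₀, ∀ v : TangentSpace I y, |φ y v v -
        B (tau I y₀ y v) (tau I y₀ y v)| ≤ ε / 2 / (‖A y₀‖ ^ 2 + 1) * ‖tau I y₀ y v‖ ^ 2 :=
      hBk.filter_mono (nhdsWithin_mono _ inter_subset_left)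
    filter_upwards [mem_nhdsWithin_of_mem_nhds hBε, mem_nhdsWithin_of_mem_nhds hbd, hBk']
      with y h1 h2 h3
    have h4 : |rd I φ x₀ y u u - B (A y) (A y)| ≤ ε / 2 / (‖A y₀‖ ^ 2 + 1) * ‖A y‖ ^ 2 :=
      h3 (taui I x₀ y u)
    have h5 : ε / 2 / (‖A y₀‖ ^ 2 + 1) * ‖A y‖ ^ 2 ≤ ε / 2 := by
      calc ε / 2 / (‖A y₀‖ ^ 2 + 1) * ‖A y‖ ^ 2 ≤ ε / 2 / (‖A y₀‖ ^ 2 + 1) * (‖A y₀‖ ^ 2 + 1) := by
            gcongr
        _ = ε / 2 := by field_simp
    rw [hval']
    calc dist (rd I φ x₀ y u u) (B (A y₀) (A y₀)) ≤ dist (rd I φ x₀ y u u) (B (A y) (A y)) +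
          dist (B (A y) (A y)) (B (A y₀) (A y₀)) := dist_triangle _ _ _
      _ < ε / 2 + ε / 2 := by
          apply add_lt_add_of_le_of_lt _ h1
          rw [Real.dist_eq]
          exact h4.trans h5
      _ = ε := by ring
  rw [continuousOn_clm_apply]
  intro u
  rw [continuousOn_clm_apply]
  intro w
  have h1 := ((key (u + w)).sub (key (u - w))).div_const 4
  refine h1.congr fun y hy => ?_
  have h2 := polar (hpd y hy.1).symm (taui I x₀ y u) (taui I x₀ y w)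
  show rd I φ x₀ y u w = (rd I φ x₀ y (u + w) (u + w) - rd I φ x₀ y (u - w) (u - w)) / 4
  have e1 : taui I x₀ y (u + w) = taui I x₀ y u + taui I x₀ y w := map_add _ _ _
  have e2 : taui I x₀ y (u - w) = taui I x₀ y u - taui I x₀ y w := map_sub _ _ _
  rw [rd_apply, rd_apply, rd_apply, e1, e2]
  exact h2

/-- local extension -/
lemma local_ext [T2Space M] [SigmaCompactSpace M] (hΛ : IsClosed Λ) (hφ : ∀ x ∈ Λ, CC Λ x id φ)
    (hpd : ∀ x ∈ Λ, PD (φ x)) {x₀ : M} (hx₀ : x₀ ∈ Λ) :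
    ∃ U : Set M, IsOpen U ∧ x₀ ∈ U ∧ U ⊆ bs I x₀ ∧ ∃ K : M → E →L[ℝ] E →L[ℝ] ℝ,
      Continuous K ∧ (∀ y ∈ U, ∀ u w, K y u w = K y w u) ∧ (∀ y ∈ U, ∀ u, u ≠ 0 → 0 < K y u u) ∧
      ∀ y ∈ U, y ∈ Λ → ∀ u w, K y u w = rd I φ x₀ y u w := by
  have : LocallyCompactSpace M := Manifold.locallyCompact_of_finiteDimensional I
  obtain ⟨N, hN, hNc, hNb⟩ := exists_mem_nhds_isClosed_subset
    ((bs_open (I := I) x₀).mem_nhds (mem_bs (I := I) x₀))
  have hq : ContinuousOn (rd I φ x₀) (Λ ∩ N) :=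
    (rd_cont hφ hpd x₀).mono (inter_subset_inter_right _ hNb)
  obtain ⟨Q, hQ⟩ := ContinuousMap.exists_restrict_eq (hΛ.inter hNc)
    (⟨(Λ ∩ N).domRestrict (rd I φ x₀), hq.domRestrict⟩ : C((Λ ∩ N : Set M), E →L[ℝ] E →L[ℝ] ℝ))
  have hQe : ∀ y ∈ Λ ∩ N, Q y = rd I φ x₀ y := by
    intro y hy
    have := congrArg (fun f => f ⟨y, hy⟩) hQ
    exact this
  have hx₀N : x₀ ∈ N := mem_of_mem_nhds hN
  have hpd0 : PD (LinearMap.mk₂ ℝ (fun v w : E => rd I φ x₀ x₀ v w) (fun v v' w => by simp)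
      (fun c v w => by simp) (fun v w w' => by simp) (fun c v w => by simp)) := by
    refine ⟨fun u w => (hpd x₀ hx₀).symm _ _, fun u hu => (hpd x₀ hx₀).pos _ ?_⟩
    intro h0
    apply hu
    have h0' : taui I x₀ x₀ u = 0 := h0
    rw [← tau_taui (I := I) (mem_bs x₀) u, h0', map_zero]
  obtain ⟨c, hc, hcB⟩ := hpd0.lower
  have hcB' : ∀ u : E, c * ‖u‖ ^ 2 ≤ rd I φ x₀ x₀ u u := hcB
  set V : Set M := {y | dist (Q y) (Q x₀) < c} with hV
  have hVo : IsOpen V := isOpen_lt (Q.continuous.dist continuous_const) continuous_const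
  have hKc : Continuous fun y => (1 / 2 : ℝ) • (Q y + (Q y).flip) := by
    rw [continuous_clm_apply]
    intro u
    rw [continuous_clm_apply]
    intro w
    show Continuous fun y => (1 / 2 : ℝ) • (Q y u w + Q y w u)
    have c1 : Continuous fun y => Q y u w :=
      (Q.continuous.clm_apply continuous_const).clm_apply continuous_const
    have c2 : Continuous fun y => Q y w u :=
      (Q.continuous.clm_apply continuous_const).clm_apply continuous_const
    exact (c1.add c2).const_smul (1 / 2 : ℝ)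
  refine ⟨interior N ∩ bs I x₀ ∩ V, (isOpen_interior.inter (bs_open x₀)).inter hVo,
    ⟨⟨mem_interior_iff_mem_nhds.2 hN, mem_bs x₀⟩, ?_⟩, fun y hy => hy.1.2,
    fun y => (1 / 2 : ℝ) • (Q y + (Q y).flip), hKc, ?_, ?_, ?_⟩
  · show dist (Q x₀) (Q x₀) < c
    rw [dist_self]; exact hc
  · intro y _ u w
    show (1 / 2 : ℝ) • (Q y u w + Q y w u) = (1 / 2 : ℝ) • (Q y w u + Q y u w)
    rw [add_comm]
  · rintro y ⟨_, hyV⟩ u hu
    show 0 < (1 / 2 : ℝ) • (Q y u u + Q y u u)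
    have hyV' : dist (Q y) (Q x₀) < c := hyV
    rw [dist_eq_norm (Q y) (Q x₀)] at hyV'
    have h1 := (Q y - Q x₀).le_opNorm₂ u u
    rw [_root_.sub_apply, _root_.sub_apply, Real.norm_eq_abs] at h1
    have hun : 0 < ‖u‖ := norm_pos_iff.2 hu
    have h2 : ‖Q y - Q x₀‖ * ‖u‖ * ‖u‖ < c * ‖u‖ * ‖u‖ := by gcongr
    have h3 := hcB' u
    rw [← hQe x₀ ⟨hx₀, hx₀N⟩] at h3
    have h4 := (abs_le.1 h1).1
    have h5 : c * ‖u‖ * ‖u‖ = c * ‖u‖ ^ 2 := by ring
    simp only [smul_eq_mul]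
    linarith
  · rintro y ⟨⟨hyN, _⟩, _⟩ hyΛ u w
    show (1 / 2 : ℝ) • (Q y u w + Q y w u) = _
    rw [hQe y ⟨hyΛ, interior_subset hyN⟩]
    have : rd I φ x₀ y w u = rd I φ x₀ y u w := (hpd y hyΛ).symm _ _
    rw [this, smul_eq_mul]
    ring

/-- a good family over a closed set extends to a continuous Riemannian metric -/
theorem exists_cont_metric [T2Space M] [SigmaCompactSpace M] (hΛ : IsClosed Λ)
    (g₀ : ContMDiffRiemannianMetric I ∞ E (fun x : M => TangentSpace I x))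
    (hφ : Good Λ Es Fs φ) :
    ∃ g : ContinuousRiemannianMetric E (fun x : M => TangentSpace I x),
      ∀ x ∈ Λ, ∀ v w, g.inner x v w = φ x v w := by
  obtain ⟨g, hg⟩ := exists_metric_of_local (I := I) (M := M) (n := 0)
    (t := fun x : M => {h : TangentSpace I x →L[ℝ] TangentSpace I x →L[ℝ] ℝ |
      (∀ v w, h v w = h w v) ∧ (∀ v, v ≠ 0 → 0 < h v v) ∧
      (x ∈ Λ → ∀ v w, h v w = φ x v w)})
    (by
      intro x h₁ hh₁ h₂ hh₂ s t hs ht hst
      refine ⟨fun v w => ?_, fun v hv => ?_, fun hx v w => ?_⟩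
      · show s • h₁ v w + t • h₂ v w = s • h₁ w v + t • h₂ w v
        rw [hh₁.1, hh₂.1]
      · show 0 < s • h₁ v v + t • h₂ v v
        have p₁ := hh₁.2.1 v hv
        have p₂ := hh₂.2.1 v hv
        simp only [smul_eq_mul]
        rcases hs.lt_or_eq with h | h
        · have : 0 ≤ t * h₂ v v := by positivity
          have : 0 < s * h₁ v v := by positivity
          linarith
        · have : t = 1 := by linarith
          rw [← h, this]; linarith
      · show s • h₁ v w + t • h₂ v w = φ x v w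
        rw [hh₁.2.2 hx v w, hh₂.2.2 hx v w, ← add_smul, hst, one_smul])
    (fun x h hh => hh.1) (fun x h hh => hh.2.1) (by
      intro x₀
      by_cases hx₀ : x₀ ∈ Λ
      · obtain ⟨U, hU, hxU, hUb, K, hK, hKs, hKp, hKe⟩ :=
          local_ext (Λ := Λ) (φ := φ) hΛ (fun x hx => (hφ.oc x hx).cc) hφ.pd hx₀
        refine ⟨U, hU, hxU, hUb, K, ?_, fun y hy => ⟨fun v w => ?_, fun v hv => ?_, fun hyΛ v w => ?_⟩⟩
        · exact contMDiffOn_zero_iff.2 hK.continuousOn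
        · rw [sloc_apply, sloc_apply]; exact hKs y hy _ _
        · rw [sloc_apply]; exact hKp y hy _ (tau_ne (hUb hy) hv)
        · rw [sloc_apply, hKe y hy hyΛ, rd_apply, taui_tau (hUb hy), taui_tau (hUb hy)]
      · obtain ⟨B, hB, -⟩ := (cc_metric g₀ univ x₀).oc (mem_univ x₀) (lf_pd g₀ x₀)
        refine ⟨Λᶜ ∩ bs I x₀, hΛ.isOpen_compl.inter (bs_open x₀), ⟨hx₀, mem_bs x₀⟩, inter_subset_right,
          fun _ => B.toContinuousBilinearMap, contMDiffOn_const, ?_⟩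
        rintro y ⟨hyu, hyb⟩
        refine ⟨fun v w => ?_, fun v hv => ?_, fun hy v => absurd hy hyu⟩
        · rw [sloc_apply, sloc_apply]; exact hB.symm _ _
        · rw [sloc_apply]; exact hB.pos _ (tau_ne hyb hv))
  exact ⟨g.toContinuousRiemannianMetric, fun x hx v w => (hg x).2.2 hx v w⟩

end Pool.Agent.R191.Met
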