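import Pool.Agent.R191.Met.Man2

/-!
# Flows: continuity in time and the time average
-/

set_option autoImplicit false
set_option linter.unusedSectionVars false

open Set Filter Topology Function Bundle Manifold MeasureTheory
open scoped ContDiff

namespace Pool.Agent.R191.Met

variable {E : Type*} [NormedAddCommGroup E] [NormedSpace ℝ E] [FiniteDimensional ℝ E]
  {H : Type*} [TopologicalSpace H] {I : ModelWithCorners ℝ E H}
  {M : Type*} [TopologicalSpace M] [ChartedSpace H M] [IsManifold I ∞ M]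

/-- `Φ` is a jointly `C¹` flow on `M`. -/
structure IsC1Flow (I : ModelWithCorners ℝ E H) (Φ : ℝ → M → M) : Prop where
  contMDiff : ContMDiff (𝓘(ℝ, ℝ).prod I) I 1 (fun p : ℝ × M => Φ p.1 p.2)
  zero : ∀ x, Φ 0 x = x
  add : ∀ s t x, Φ (s + t) x = Φ s (Φ t x)

variable {Λ : Set M} {Es Fs : ∀ x : M, Submodule ℝ (TangentSpace I x)} {Φ : ℝ → M → M}
  {φ : ∀ x : M, Frm I x}

lemma IsC1Flow.smooth (h : IsC1Flow I Φ) (t : ℝ) : ContMDiff I I 1 (Φ t) := by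
  have h1 : ContMDiff I (𝓘(ℝ, ℝ).prod I) 1 (fun x : M => ((t, x) : ℝ × M)) :=
    contMDiff_const.prodMk contMDiff_id
  exact h.contMDiff.comp h1

lemma IsC1Flow.cont (h : IsC1Flow I Φ) : Continuous (fun p : ℝ × M => Φ p.1 p.2) := h.contMDiff.continuous

lemma IsC1Flow.comp (h : IsC1Flow I Φ) (s t : ℝ) : Φ s ∘ Φ t = Φ (s + t) :=
  funext fun x => (h.add s t x).symm

lemma IsC1Flow.comp' (h : IsC1Flow I Φ) (s t : ℝ) : Φ s ∘ Φ t = Φ (t + s) := by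
  rw [h.comp, add_comm]

lemma pb_flow (h : IsC1Flow I Φ) (s t : ℝ) (φ : ∀ x : M, Frm I x) (x : M) :
    pb I (Φ t) (pb I (Φ s) φ) x = pb I (Φ (s + t)) φ x := by
  rw [← pb_comp (h.smooth s) (h.smooth t), h.comp]

lemma pb_zero (h : IsC1Flow I Φ) (φ : ∀ x : M, Frm I x) (x : M) : pb I (Φ 0) φ x = φ x := by
  have e : Φ 0 = id := funext h.zero
  rw [e]
  ext v w
  rw [pb_apply, mfderiv_id]
  rfl

/-- joint continuity of the pulled back forms -/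
lemma flow_cc (h : IsC1Flow I Φ) (hmaps : ∀ t, MapsTo (Φ t) Λ Λ) (hφ : ∀ x ∈ Λ, CC Λ x id φ) {r₀ : ℝ}
    {x₀ : M} (hx₀ : x₀ ∈ Λ) :
    CC (I := I) (univ ×ˢ Λ) (r₀, x₀) (Prod.snd : ℝ × M → M) (fun n => pb I (Φ n.1) φ n.2) := by
  have hc : ContinuousWithinAt (fun n : ℝ × M => Φ n.1 n.2) (univ ×ˢ Λ) (r₀, x₀) :=
    h.cont.continuousWithinAt
  have h1 : CC (I := I) (univ ×ˢ Λ) (r₀, x₀) (fun n : ℝ × M => Φ n.1 n.2)
      (fun n => φ (Φ n.1 n.2)) :=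
    CC.comp hc (fun n hn => hmaps n.1 hn.2) (hφ _ (hmaps r₀ hx₀))
  have hD : ContinuousWithinAt (inTangentCoordinates I I (Prod.snd : ℝ × M → M)
      (fun n : ℝ × M => Φ n.1 n.2) (fun n => mfderiv I I (Φ n.1) n.2) (r₀, x₀)) (univ ×ˢ Λ) (r₀, x₀) := by
    have h2 : ContMDiffAt ((𝓘(ℝ, ℝ).prod I).prod I) I 1
        (Function.uncurry (fun (n : ℝ × M) (y : M) => Φ n.1 y)) ((r₀, x₀), x₀) := by
      have h3 : ContMDiff ((𝓘(ℝ, ℝ).prod I).prod I) (𝓘(ℝ, ℝ).prod I) 1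
          (fun q : (ℝ × M) × M => ((q.1.1, q.2) : ℝ × M)) :=
        (contMDiff_fst.comp contMDiff_fst).prodMk contMDiff_snd
      exact (h.contMDiff.comp h3) _
    have h4 := ContMDiffAt.mfderiv (m := 0) (J := 𝓘(ℝ, ℝ).prod I) (x₀ := ((r₀, x₀) : ℝ × M))
      (fun (n : ℝ × M) (y : M) => Φ n.1 y) (Prod.snd : ℝ × M → M) h2 contMDiffAt_snd (by simp)
    exact h4.continuousAt.continuousWithinAt
  exact CC.pull (b := (Prod.snd : ℝ × M → M)) (c := fun n : ℝ × M => Φ n.1 n.2)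
    (D := fun n => mfderiv I I (Φ n.1) n.2) continuous_snd.continuousWithinAt hD h1

/-- continuity in time -/
lemma flow_cont (h : IsC1Flow I Φ) (hmaps : ∀ t, MapsTo (Φ t) Λ Λ) (hφ : ∀ x ∈ Λ, CC Λ x id φ)
    {x : M} (hx : x ∈ Λ) (v : TangentSpace I x) : Continuous fun s => pb I (Φ s) φ x v v := by
  rw [continuous_iff_continuousAt]
  intro s₀
  obtain ⟨B, hBs, hB⟩ := flow_cc h hmaps hφ (r₀ := s₀) hx
  have hval := cc_value hB ⟨mem_univ _, hx⟩ v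
  rw [Metric.continuousAt_iff']
  intro ε hε
  have ht : Tendsto (fun s : ℝ => (s, x)) (𝓝 s₀) (𝓝[univ ×ˢ Λ] (s₀, x)) := by
    refine tendsto_nhdsWithin_of_tendsto_nhds_of_eventually_within _ ?_ ?_
    · exact (continuous_id.prodMk continuous_const).tendsto s₀
    · exact Eventually.of_forall fun s => ⟨mem_univ _, hx⟩
  have hC : 0 ≤ ‖tau I x x v‖ ^ 2 := by positivity
  have h1 := ht.eventually (hB (ε / (‖tau I x x v‖ ^ 2 + 1)) (by positivity))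
  filter_upwards [h1] with s hs
  have h2 := hs v
  have e : (pb I (Φ s₀) φ x v v : ℝ) = B (tau I x x v) (tau I x x v) := hval
  rw [Real.dist_eq, e]
  refine lt_of_le_of_lt h2 ?_
  show ε / (‖tau I x x v‖ ^ 2 + 1) * ‖tau I x x v‖ ^ 2 < ε
  rw [div_mul_eq_mul_div, div_lt_iff₀ (by positivity)]
  nlinarith

lemma polar {V : Type*} [AddCommGroup V] [Module ℝ V] {B : V →ₗ[ℝ] V →ₗ[ℝ] ℝ} (hs : ∀ v w, B v w = B w v)
    (v w : V) : B v w = (B (v + w) (v + w) - B (v - w) (v - w)) / 4 := by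
  simp only [map_add, map_sub, LinearMap.add_apply, LinearMap.sub_apply]
  rw [hs w v]
  ring

lemma flow_cont₂ (h : IsC1Flow I Φ) (hmaps : ∀ t, MapsTo (Φ t) Λ Λ) (hφ : ∀ x ∈ Λ, CC Λ x id φ)
    (hpd : ∀ x ∈ Λ, PD (φ x)) {x : M} (hx : x ∈ Λ) (v w : TangentSpace I x) :
    Continuous fun s => pb I (Φ s) φ x v w := by
  have e : (fun s => pb I (Φ s) φ x v w) = fun s =>
      (pb I (Φ s) φ x (v + w) (v + w) - pb I (Φ s) φ x (v - w) (v - w)) / 4 := by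
    funext s
    exact polar (B := pb I (Φ s) φ x) (fun v w => (hpd _ (hmaps s hx)).symm _ _) v w
  rw [e]
  exact ((flow_cont h hmaps hφ hx _).sub (flow_cont h hmaps hφ hx _)).div_const 4

/-- the time average -/
noncomputable def tav (Φ : ℝ → M → M) (φ : ∀ x : M, Frm I x) (x : M) : Frm I x :=
  open Classical in
  if hx : ∀ v w : TangentSpace I x, Continuous fun s => pb I (Φ s) φ x v w then
    LinearMap.mk₂ ℝ (fun v w => ∫ s in (0 : ℝ)..1, pb I (Φ s) φ x v w)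
      (fun v v' w => by
        rw [← intervalIntegral.integral_add ((hx v w).intervalIntegrable 0 1)
          ((hx v' w).intervalIntegrable 0 1)]
        simp)
      (fun c v w => by
        rw [smul_eq_mul, ← intervalIntegral.integral_const_mul]
        simp)
      (fun v w w' => by
        rw [← intervalIntegral.integral_add ((hx v w).intervalIntegrable 0 1)
          ((hx v w').intervalIntegrable 0 1)]
        simp)
      (fun c v w => by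
        rw [smul_eq_mul, ← intervalIntegral.integral_const_mul]
        simp)
  else 0

lemma tav_apply (h : IsC1Flow I Φ) (hmaps : ∀ t, MapsTo (Φ t) Λ Λ) (hφ : ∀ x ∈ Λ, CC Λ x id φ)
    (hpd : ∀ x ∈ Λ, PD (φ x)) {x : M} (hx : x ∈ Λ) (v w : TangentSpace I x) :
    tav Φ φ x v w = ∫ s in (0 : ℝ)..1, pb I (Φ s) φ x v w := by
  unfold tav
  rw [dif_pos (flow_cont₂ h hmaps hφ hpd hx)]
  rfl

lemma tav_pd (h : IsC1Flow I Φ) (hS : ∀ t, Sys Λ Es Fs (Φ t)) (hφ : Good Λ Es Fs φ) {x : M} (hx : x ∈ Λ) :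
    PD (tav Φ φ x) := by
  have hm : ∀ t, MapsTo (Φ t) Λ Λ := fun t => (hS t).maps
  have hcc : ∀ x ∈ Λ, CC Λ x id φ := fun x hx => (hφ.oc x hx).cc
  refine ⟨fun v w => ?_, fun v hv => ?_⟩
  · rw [tav_apply h hm hcc hφ.pd hx, tav_apply h hm hcc hφ.pd hx]
    congr 1
    funext s
    exact (hφ.pd _ (hm s hx)).symm _ _
  · rw [tav_apply h hm hcc hφ.pd hx]
    apply intervalIntegral.intervalIntegral_pos_of_pos
    · exact (flow_cont₂ h hm hcc hφ.pd hx v v).intervalIntegrable 0 1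
    · intro s
      exact (pb_pd (hS s) hx (hφ.pd _ (hm s hx))).pos v hv
    · norm_num

lemma tav_orth (h : IsC1Flow I Φ) (hS : ∀ t, Sys Λ Es Fs (Φ t)) (hφ : Good Λ Es Fs φ) {x : M} (hx : x ∈ Λ) :
    Orth (Es x) (Fs x) (tav Φ φ x) := by
  intro v hv w hw
  rw [tav_apply h (fun t => (hS t).maps) (fun x hx => (hφ.oc x hx).cc) hφ.pd hx]
  have : ∀ s : ℝ, pb I (Φ s) φ x v w = 0 := fun s =>
    hφ.orth _ ((hS s).maps hx) _ ((hS s).mapE x hx v hv) _ ((hS s).mapF x hx w hw)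
  simp [this]

/-- the time average is coordinate continuous -/
lemma tav_cc (h : IsC1Flow I Φ) (hS : ∀ t, Sys Λ Es Fs (Φ t)) (hφ : Good Λ Es Fs φ) {x₀ : M}
    (hx₀ : x₀ ∈ Λ) : CC Λ x₀ id (tav Φ φ) := by
  have hm : ∀ t, MapsTo (Φ t) Λ Λ := fun t => (hS t).maps
  have hcc : ∀ x ∈ Λ, CC Λ x id φ := fun x hx => (hφ.oc x hx).cc
  have hpd0 := tav_pd h hS hφ hx₀
  set B : E →ₗ[ℝ] E →ₗ[ℝ] ℝ := (tav Φ φ x₀).compl₁₂ (taui I x₀ x₀ : E →ₗ[ℝ] TangentSpace I x₀)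
    (taui I x₀ x₀) with hB
  refine ⟨B, fun u w => hpd0.symm _ _, fun ε hε => ?_⟩
  -- uniform closeness for the times in `[0, 1]`
  have hunif : ∀ᶠ x in 𝓝 x₀, ∀ s ∈ Icc (0 : ℝ) 1, x ∈ Λ → ∀ v : TangentSpace I x,
      |pb I (Φ s) φ x v v - pb I (Φ s) φ x₀ (taui I x₀ x₀ (tau I x₀ x v)) (taui I x₀ x₀ (tau I x₀ x v))| ≤
        ε * ‖tau I x₀ x v‖ ^ 2 := by
    apply isCompact_Icc.eventually_forall_of_forall_eventually
      (P := fun (x : M) (s : ℝ) => x ∈ Λ → ∀ v : TangentSpace I x,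
        |pb I (Φ s) φ x v v - pb I (Φ s) φ x₀ (taui I x₀ x₀ (tau I x₀ x v))
          (taui I x₀ x₀ (tau I x₀ x v))| ≤ ε * ‖tau I x₀ x v‖ ^ 2)
    intro s₀ _
    obtain ⟨B₀, hB₀s, hB₀⟩ := flow_cc h hm hcc (r₀ := s₀) hx₀
    have h1 := eventually_nhdsWithin_iff.1 (hB₀ (ε / 2) (by linarith))
    -- the statement at `(s, x)` and at `(s, x₀)`
    have ht1 : Tendsto (fun z : M × ℝ => ((z.2, z.1) : ℝ × M)) (𝓝 (x₀, s₀)) (𝓝 (s₀, x₀)) :=
      (continuous_snd.prodMk continuous_fst).tendsto _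
    have ht2 : Tendsto (fun z : M × ℝ => ((z.2, x₀) : ℝ × M)) (𝓝 (x₀, s₀)) (𝓝 (s₀, x₀)) :=
      (continuous_snd.prodMk continuous_const).tendsto _
    filter_upwards [ht1.eventually h1, ht2.eventually h1] with z hz1 hz2 hzΛ v
    have a1 := hz1 ⟨mem_univ _, hzΛ⟩ v
    have a2 := hz2 ⟨mem_univ _, hx₀⟩ (taui I x₀ x₀ (tau I x₀ z.1 v))
    have a2' : |pb I (Φ z.2) φ x₀ (taui I x₀ x₀ (tau I x₀ z.1 v)) (taui I x₀ x₀ (tau I x₀ z.1 v)) -
        B₀ (tau I x₀ x₀ (taui I x₀ x₀ (tau I x₀ z.1 v))) (tau I x₀ x₀ (taui I x₀ x₀ (tau I x₀ z.1 v)))| ≤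
        ε / 2 * ‖tau I x₀ x₀ (taui I x₀ x₀ (tau I x₀ z.1 v))‖ ^ 2 := a2
    rw [tau_taui (mem_bs x₀)] at a2'
    have a1' : |pb I (Φ z.2) φ z.1 v v - B₀ (tau I x₀ z.1 v) (tau I x₀ z.1 v)| ≤
        ε / 2 * ‖tau I x₀ z.1 v‖ ^ 2 := a1
    clear a1 a2
    have b1 := abs_le.1 a1'
    have b2 := abs_le.1 a2'
    rw [abs_le]
    constructor <;> linarith [b1.1, b1.2, b2.1, b2.2]
  filter_upwards [mem_nhdsWithin_of_mem_nhds hunif, self_mem_nhdsWithin] with x hx hxΛ v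
  show |tav Φ φ x v v - tav Φ φ x₀ (taui I x₀ x₀ (tau I x₀ x v)) (taui I x₀ x₀ (tau I x₀ x v))| ≤
    ε * ‖tau I x₀ x v‖ ^ 2
  rw [tav_apply h hm hcc hφ.pd hxΛ, tav_apply h hm hcc hφ.pd hx₀, ← intervalIntegral.integral_sub
    ((flow_cont₂ h hm hcc hφ.pd hxΛ v v).intervalIntegrable 0 1)
    ((flow_cont₂ h hm hcc hφ.pd hx₀ _ _).intervalIntegrable 0 1)]
  have hbound := intervalIntegral.norm_integral_le_of_norm_le_const (a := (0 : ℝ)) (b := 1)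
    (C := ε * ‖tau I x₀ x v‖ ^ 2) (f := fun s => pb I (Φ s) φ x v v -
      pb I (Φ s) φ x₀ (taui I x₀ x₀ (tau I x₀ x v)) (taui I x₀ x₀ (tau I x₀ x v))) (by
      intro s hs
      rw [uIoc_of_le zero_le_one] at hs
      exact hx s ⟨hs.1.le, hs.2⟩ hxΛ v)
  rw [sub_zero, abs_one, mul_one] at hbound
  exact hbound

lemma tav_good (h : IsC1Flow I Φ) (hS : ∀ t, Sys Λ Es Fs (Φ t)) (hφ : Good Λ Es Fs φ) :
    Good Λ Es Fs (tav Φ φ) :=
  ⟨fun _ hx => tav_pd h hS hφ hx, fun _ hx => tav_orth h hS hφ hx,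
    fun _ hx => (tav_cc h hS hφ hx).oc hx (tav_pd h hS hφ hx)⟩

/-- uniform comparability on bounded time intervals -/
lemma exists_comp (hΛ : IsCompact Λ) (h : IsC1Flow I Φ) (hS : ∀ t, Sys Λ Es Fs (Φ t))
    (hφ : Good Λ Es Fs φ) (T : ℝ) : ∃ C : ℝ, 1 ≤ C ∧ ∀ x ∈ Λ, ∀ s ∈ Icc (0 : ℝ) T, ∀ v,
      pb I (Φ s) φ x v v ≤ C * φ x v v ∧ φ x v v ≤ C * pb I (Φ s) φ x v v := by
  have hm : ∀ t, MapsTo (Φ t) Λ Λ := fun t => (hS t).maps
  have hcc : ∀ x ∈ Λ, CC Λ x id φ := fun x hx => (hφ.oc x hx).cc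
  set K : Set (ℝ × M) := Icc 0 T ×ˢ Λ with hK
  have hKc : IsCompact K := isCompact_Icc.prod hΛ
  have hKs : K ⊆ univ ×ˢ Λ := prod_mono (subset_univ _) subset_rfl
  have p1 : ∀ n ∈ K, PD (pb I (Φ n.1) φ n.2) := fun n hn => pb_pd (hS _) hn.2 (hφ.pd _ (hm _ hn.2))
  have p2 : ∀ n ∈ K, PD (φ n.2) := fun n hn => hφ.pd _ hn.2
  have o1 : ∀ n ∈ K, OC K n (Prod.snd : ℝ × M → M) (fun n => pb I (Φ n.1) φ n.2) := fun n hn =>
    ((flow_cc h hm hcc (r₀ := n.1) (x₀ := n.2) hn.2).oc ⟨mem_univ _, hn.2⟩ (p1 n hn)).mono hKs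
  have o2 : ∀ n ∈ K, OC K n (Prod.snd : ℝ × M → M) (fun n => φ n.2) := fun n hn =>
    (CC.comp continuous_snd.continuousWithinAt (fun _ hn => hn.2) (hcc _ hn.2) :
      CC K n (Prod.snd : ℝ × M → M) (fun n => φ n.2)).oc hn (p2 n hn)
  obtain ⟨C₁, hC₁, h₁⟩ := ratio_bdd hKc o1 o2 p1 p2
  obtain ⟨C₂, hC₂, h₂⟩ := ratio_bdd hKc o2 o1 p2 p1
  refine ⟨max C₁ C₂, le_max_of_le_left hC₁, fun x hx s hs v => ⟨?_, ?_⟩⟩
  · exact (h₁ (s, x) ⟨hs, hx⟩ v).trans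
      (mul_le_mul_of_nonneg_right (le_max_left _ _) ((p2 (s, x) ⟨hs, hx⟩).nonneg v))
  · exact (h₂ (s, x) ⟨hs, hx⟩ v).trans
      (mul_le_mul_of_nonneg_right (le_max_right _ _) ((p1 (s, x) ⟨hs, hx⟩).nonneg v))

/-- the Lipschitz condition in time -/
def Lip (Λ : Set M) (Φ : ℝ → M → M) (φ : ∀ x : M, Frm I x) (T L : ℝ) : Prop :=
  ∀ x ∈ Λ, ∀ s ∈ Icc (0 : ℝ) T, ∀ v, pb I (Φ s) φ x v v ≤ (1 + L * s) * φ x v v ∧
    φ x v v ≤ (1 + L * s) * pb I (Φ s) φ x v v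

lemma pb_tav (h : IsC1Flow I Φ) (hS : ∀ t, Sys Λ Es Fs (Φ t)) (hφ : Good Λ Es Fs φ) {x : M} (hx : x ∈ Λ)
    (t : ℝ) (v : TangentSpace I x) :
    pb I (Φ t) (tav Φ φ) x v v = ∫ s in t..(1 + t), pb I (Φ s) φ x v v := by
  have hm : ∀ t, MapsTo (Φ t) Λ Λ := fun t => (hS t).maps
  have hcc : ∀ x ∈ Λ, CC Λ x id φ := fun x hx => (hφ.oc x hx).cc
  rw [pb_apply, tav_apply h hm hcc hφ.pd (hm t hx)]
  have e : ∀ s : ℝ, pb I (Φ s) φ (Φ t x) (mfderiv I I (Φ t) x v) (mfderiv I I (Φ t) x v) =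
      pb I (Φ (s + t)) φ x v v := fun s => by
    rw [← pb_flow h s t φ x, pb_apply (Φ t)]
  simp only [e]
  rw [intervalIntegral.integral_comp_add_right (fun s => pb I (Φ s) φ x v v) t, zero_add]

/-- the time average is Lipschitz in time -/
theorem tav_lip (hΛ : IsCompact Λ) (h : IsC1Flow I Φ) (hS : ∀ t, Sys Λ Es Fs (Φ t))
    (hφ : Good Λ Es Fs φ) (T : ℝ) : ∃ L : ℝ, 0 ≤ L ∧ Lip Λ Φ (tav Φ φ) T L := by
  obtain ⟨C, hC, hcomp⟩ := exists_comp hΛ h hS hφ (T + 1)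
  have hm : ∀ t, MapsTo (Φ t) Λ Λ := fun t => (hS t).maps
  have hcc : ∀ x ∈ Λ, CC Λ x id φ := fun x hx => (hφ.oc x hx).cc
  refine ⟨C ^ 2, by positivity, fun x hx t ht v => ?_⟩
  have hcont := flow_cont h hm hcc hx v
  set F : ℝ → ℝ := fun s => pb I (Φ s) φ x v v with hF
  have hint : ∀ a b : ℝ, IntervalIntegrable F volume a b := fun a b => hcont.intervalIntegrable a b
  have e0 : tav Φ φ x v v = ∫ s in (0 : ℝ)..1, F s := tav_apply h hm hcc hφ.pd hx v v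
  have e1 : pb I (Φ t) (tav Φ φ) x v v = ∫ s in t..(1 + t), F s := pb_tav h hS hφ hx t v
  have hC0 : 0 ≤ C := by linarith
  -- comparison of the values
  have hFF : ∀ s ∈ Icc (0 : ℝ) (T + 1), ∀ s' ∈ Icc (0 : ℝ) (T + 1), F s ≤ C ^ 2 * F s' := by
    intro s hs s' hs'
    calc F s ≤ C * φ x v v := (hcomp x hx s hs v).1
      _ ≤ C * (C * F s') := by gcongr; exact (hcomp x hx s' hs' v).2
      _ = C ^ 2 * F s' := by ring
  have ht0 := ht.1
  have htT := ht.2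
  -- the value of the function is bounded by its average over an interval of length one
  have havg : ∀ a : ℝ, 0 ≤ a → a ≤ T → ∀ s ∈ Icc (0 : ℝ) (T + 1), F s ≤ C ^ 2 * ∫ s' in a..(1 + a), F s' := by
    intro a ha haT s hs
    rw [← intervalIntegral.integral_const_mul]
    have h1 : ∫ _ in a..(1 + a), F s ≤ ∫ s' in a..(1 + a), C ^ 2 * F s' := by
      apply intervalIntegral.integral_mono_on (by linarith) intervalIntegrable_const
        ((hint _ _).const_mul _)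
      intro s' hs'
      exact hFF s hs s' ⟨by linarith [hs'.1], by linarith [hs'.2]⟩
    rw [intervalIntegral.integral_const] at h1
    have e : (1 + a - a) • F s = F s := by rw [add_sub_cancel_right, one_smul]
    rw [e] at h1
    exact h1
  have hsmall : ∀ a : ℝ, 0 ≤ a → a ≤ 1 → ∀ A : ℝ, (∀ s ∈ Icc (0 : ℝ) (T + 1), F s ≤ A) →
      ∫ s in a..(a + t), F s ≤ t * A := by
    intro a ha ha1 A hA
    have h1 : ∫ s in a..(a + t), F s ≤ ∫ _ in a..(a + t), A := by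
      apply intervalIntegral.integral_mono_on (by linarith) (hint _ _) intervalIntegrable_const
      intro s hs
      exact hA s ⟨by linarith [hs.1], by linarith [hs.2]⟩
    rw [intervalIntegral.integral_const] at h1
    have e : (a + t - a) • A = t * A := by rw [add_sub_cancel_left, smul_eq_mul]
    rw [e] at h1
    exact h1
  have hF0 : ∀ s, 0 ≤ F s := fun s => (pb_pd (hS s) hx (hφ.pd _ (hm s hx))).nonneg v
  have hnn : ∀ a b : ℝ, a ≤ b → 0 ≤ ∫ s in a..b, F s := fun a b hab =>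
    intervalIntegral.integral_nonneg hab fun s _ => hF0 s
  have hsplit : (∫ s in t..(1 + t), F s) + ∫ s in (0 : ℝ)..(0 + t), F s =
      (∫ s in (0 : ℝ)..1, F s) + ∫ s in (1 : ℝ)..(1 + t), F s := by
    rw [zero_add, add_comm (∫ s in t..(1 + t), F s), intervalIntegral.integral_add_adjacent_intervals
      (hint _ _) (hint _ _), intervalIntegral.integral_add_adjacent_intervals (hint _ _) (hint _ _)]
  have q1 : ∫ s in (1 : ℝ)..(1 + t), F s ≤ t * (C ^ 2 * ∫ s in (0 : ℝ)..1, F s) :=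
    hsmall 1 zero_le_one le_rfl _ fun s hs => by
      have := havg 0 le_rfl (by linarith) s hs
      rwa [add_zero] at this
  have q2 : ∫ s in (0 : ℝ)..(0 + t), F s ≤ t * (C ^ 2 * ∫ s in t..(1 + t), F s) :=
    hsmall 0 le_rfl zero_le_one _ fun s hs => havg t ht0 htT s hs
  have n1 := hnn 0 (0 + t) (by linarith)
  have n2 := hnn 1 (1 + t) (by linarith)
  rw [e0, e1]
  constructor
  · have : (1 + C ^ 2 * t) * ∫ s in (0 : ℝ)..1, F s = (∫ s in (0 : ℝ)..1, F s) +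
      t * (C ^ 2 * ∫ s in (0 : ℝ)..1, F s) := by ring
    rw [this]
    linarith
  · have : (1 + C ^ 2 * t) * ∫ s in t..(1 + t), F s = (∫ s in t..(1 + t), F s) +
      t * (C ^ 2 * ∫ s in t..(1 + t), F s) := by ring
    rw [this]
    linarith

end Pool.Agent.R191.Met
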