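import Pool.Agent.R191.Met.Flow

/-!
# Flows: the limit of the dyadic averages
-/

set_option autoImplicit false
set_option linter.unusedSectionVars false

open Set Filter Topology Function Bundle Manifold MeasureTheory
open scoped ContDiff

namespace Pool.Agent.R191.Met

variable {E : Type*} [NormedAddCommGroup E] [NormedSpace ℝ E] [FiniteDimensional ℝ E]
  {H : Type*} [TopologicalSpace H] {I : ModelWithCorners ℝ E H}
  {M : Type*} [TopologicalSpace M] [ChartedSpace H M] [IsManifold I ∞ M]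

variable {Λ : Set M} {Es Fs : ∀ x : M, Submodule ℝ (TangentSpace I x)} {Φ : ℝ → M → M}
  {φ : ∀ x : M, Frm I x}

lemma lip_avg (h : IsC1Flow I Φ) (hS : ∀ t, Sys Λ Es Fs (Φ t)) (hφ : Good Λ Es Fs φ) {T L : ℝ}
    (hL : 0 ≤ L) (hl : Lip Λ Φ φ T L) (t : ℝ) : Lip Λ Φ (avg (Φ t) φ) T L := by
  intro x hx s hs v
  have hm : ∀ t, MapsTo (Φ t) Λ Λ := fun t => (hS t).maps
  have hκ : 0 ≤ 1 + L * s := by have := mul_nonneg hL hs.1; linarith
  have g1 := hφ.pb (hS t)
  have m1 := pb_avg (hS t) (hS s) hφ hx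
  have m2 : IsMean (φ x) (pb I (Φ t) φ x) (avg (Φ t) φ x) := mean_spec (hφ.pd x hx) (g1.pd x hx)
  have p1 : PD (pb I (Φ s) φ x) := pb_pd (hS s) hx (hφ.pd _ (hm s hx))
  have p2 : PD (pb I (Φ s) (pb I (Φ t) φ) x) := pb_pd (hS s) hx (g1.pd _ (hm s hx))
  have e : pb I (Φ s) (pb I (Φ t) φ) x = pb I (Φ t) (pb I (Φ s) φ) x := by
    rw [pb_flow h, pb_flow h, add_comm]
  constructor
  · refine mean_mono p1 p2 (hφ.pd x hx) (g1.pd x hx) m1 m2 hκ (fun w => (hl x hx s hs w).1) (fun w => ?_) v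
    rw [e]
    exact (hl _ (hm t hx) s hs _).1
  · refine mean_mono (hφ.pd x hx) (g1.pd x hx) p1 p2 m2 m1 hκ (fun w => (hl x hx s hs w).2) (fun w => ?_) v
    rw [e]
    exact (hl _ (hm t hx) s hs _).2

lemma avg_close (hS : ∀ t, Sys Λ Es Fs (Φ t)) (hφ : Good Λ Es Fs φ) {T L : ℝ}
    (hL : 0 ≤ L) (hl : Lip Λ Φ φ T L) {t : ℝ} (ht : t ∈ Icc (0 : ℝ) T) {x : M} (hx : x ∈ Λ)
    (v : TangentSpace I x) : avg (Φ t) φ x v v ≤ (1 + L * t) * φ x v v ∧
      φ x v v ≤ (1 + L * t) * avg (Φ t) φ x v v := by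
  have hκ : 0 ≤ 1 + L * t := by have := mul_nonneg hL ht.1; linarith
  have hκ1 : 1 ≤ 1 + L * t := by have := mul_nonneg hL ht.1; linarith
  have g1 := hφ.pb (hS t)
  have m2 : IsMean (φ x) (pb I (Φ t) φ x) (avg (Φ t) φ x) := mean_spec (hφ.pd x hx) (g1.pd x hx)
  have m3 := isMean_self (hφ.pd x hx)
  have hself : ∀ w, φ x w w ≤ (1 + L * t) * φ x w w := fun w => by
    have := (hφ.pd x hx).nonneg w
    nlinarith
  constructor
  · exact mean_mono (hφ.pd x hx) (g1.pd x hx) (hφ.pd x hx) (hφ.pd x hx) m2 m3 hκ hself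
      (fun w => (hl x hx t ht w).1) v
  · exact mean_mono (hφ.pd x hx) (hφ.pd x hx) (hφ.pd x hx) (g1.pd x hx) m3 m2 hκ hself
      (fun w => (hl x hx t ht w).2) v

/-- the dyadic averages -/
noncomputable def dy (Φ : ℝ → M → M) (φ : ∀ x : M, Frm I x) (T : ℝ) : ℕ → ∀ x : M, Frm I x
  | 0 => φ
  | j + 1 => avg (Φ (T / 2 ^ (j + 1))) (dy Φ φ T j)

lemma dy_good (hc : ∀ x ∈ Λ, IsCompl (Es x) (Fs x)) (hS : ∀ t, Sys Λ Es Fs (Φ t)) (hφ : Good Λ Es Fs φ)
    (T : ℝ) (j : ℕ) : Good Λ Es Fs (dy Φ φ T j) := by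
  induction j with
  | zero => exact hφ
  | succ j ih => exact ih.avg hc (hS _)

lemma dy_lip (h : IsC1Flow I Φ) (hc : ∀ x ∈ Λ, IsCompl (Es x) (Fs x)) (hS : ∀ t, Sys Λ Es Fs (Φ t))
    (hφ : Good Λ Es Fs φ) {T L : ℝ} (hL : 0 ≤ L) (hl : Lip Λ Φ φ T L) (j : ℕ) :
    Lip Λ Φ (dy Φ φ T j) T L := by
  induction j with
  | zero => exact hl
  | succ j ih => exact lip_avg h hS (dy_good hc hS hφ T j) hL ih _

lemma dy_step (h : IsC1Flow I Φ) (hc : ∀ x ∈ Λ, IsCompl (Es x) (Fs x)) (hS : ∀ t, Sys Λ Es Fs (Φ t))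
    (hφ : Good Λ Es Fs φ) {T L : ℝ} (hT : 0 < T) (hL : 0 ≤ L) (hl : Lip Λ Φ φ T L) {j i : ℕ} (hji : j ≤ i)
    {x : M} (hx : x ∈ Λ) (v : TangentSpace I x) :
    dy Φ φ T i x v v ≤ Real.exp (L * (T / 2 ^ j - T / 2 ^ i)) * dy Φ φ T j x v v ∧
    dy Φ φ T j x v v ≤ Real.exp (L * (T / 2 ^ j - T / 2 ^ i)) * dy Φ φ T i x v v := by
  induction i, hji using Nat.le_induction with
  | base => simp
  | succ i hji ih =>
    have ht : T / 2 ^ (i + 1) ∈ Icc (0 : ℝ) T := by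
      constructor
      · positivity
      · apply div_le_self hT.le
        exact one_le_pow₀ (by norm_num)
    have hst := avg_close hS (dy_good hc hS hφ T i) hL (dy_lip h hc hS hφ hL hl i) ht hx v
    have he : 1 + L * (T / 2 ^ (i + 1)) ≤ Real.exp (L * (T / 2 ^ (i + 1))) := by
      have := Real.add_one_le_exp (L * (T / 2 ^ (i + 1)))
      linarith
    have hnn : 0 ≤ dy Φ φ T i x v v := ((dy_good hc hS hφ T i).pd x hx).nonneg v
    have hnn' : 0 ≤ dy Φ φ T (i + 1) x v v := ((dy_good hc hS hφ T (i + 1)).pd x hx).nonneg v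
    have hnj : 0 ≤ dy Φ φ T j x v v := ((dy_good hc hS hφ T j).pd x hx).nonneg v
    have hexp : Real.exp (L * (T / 2 ^ (i + 1))) * Real.exp (L * (T / 2 ^ j - T / 2 ^ i)) =
        Real.exp (L * (T / 2 ^ j - T / 2 ^ (i + 1))) := by
      rw [← Real.exp_add]
      congr 1
      rw [pow_succ]
      field_simp
      ring
    constructor
    · calc dy Φ φ T (i + 1) x v v ≤ (1 + L * (T / 2 ^ (i + 1))) * dy Φ φ T i x v v := hst.1
        _ ≤ Real.exp (L * (T / 2 ^ (i + 1))) * dy Φ φ T i x v v := by gcongr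
        _ ≤ Real.exp (L * (T / 2 ^ (i + 1))) *
            (Real.exp (L * (T / 2 ^ j - T / 2 ^ i)) * dy Φ φ T j x v v) := by gcongr; exact ih.1
        _ = _ := by rw [← mul_assoc, hexp]
    · calc dy Φ φ T j x v v ≤ Real.exp (L * (T / 2 ^ j - T / 2 ^ i)) * dy Φ φ T i x v v := ih.2
        _ ≤ Real.exp (L * (T / 2 ^ j - T / 2 ^ i)) *
            ((1 + L * (T / 2 ^ (i + 1))) * dy Φ φ T (i + 1) x v v) := by gcongr; exact hst.2
        _ ≤ Real.exp (L * (T / 2 ^ j - T / 2 ^ i)) *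
            (Real.exp (L * (T / 2 ^ (i + 1))) * dy Φ φ T (i + 1) x v v) := by gcongr
        _ = _ := by rw [← mul_assoc, mul_comm (Real.exp (L * (T / 2 ^ j - T / 2 ^ i))), hexp]

lemma dy_close (h : IsC1Flow I Φ) (hc : ∀ x ∈ Λ, IsCompl (Es x) (Fs x)) (hS : ∀ t, Sys Λ Es Fs (Φ t))
    (hφ : Good Λ Es Fs φ) {T L : ℝ} (hT : 0 < T) (hL : 0 ≤ L) (hl : Lip Λ Φ φ T L) {j i : ℕ} (hji : j ≤ i)
    {x : M} (hx : x ∈ Λ) (v : TangentSpace I x) :
    dy Φ φ T i x v v ≤ Real.exp (L * (T / 2 ^ j)) * dy Φ φ T j x v v ∧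
    dy Φ φ T j x v v ≤ Real.exp (L * (T / 2 ^ j)) * dy Φ φ T i x v v := by
  have h1 := dy_step h hc hS hφ hT hL hl hji hx v
  have hnn : 0 ≤ dy Φ φ T i x v v := ((dy_good hc hS hφ T i).pd x hx).nonneg v
  have hnj : 0 ≤ dy Φ φ T j x v v := ((dy_good hc hS hφ T j).pd x hx).nonneg v
  have he : Real.exp (L * (T / 2 ^ j - T / 2 ^ i)) ≤ Real.exp (L * (T / 2 ^ j)) := by
    apply Real.exp_le_exp.2
    apply mul_le_mul_of_nonneg_left _ hL
    have : 0 < T / 2 ^ i := by positivity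
    linarith
  exact ⟨h1.1.trans (by gcongr), h1.2.trans (by gcongr)⟩

lemma dy_rel (h : IsC1Flow I Φ) (hc : ∀ x ∈ Λ, IsCompl (Es x) (Fs x)) (hS : ∀ t, Sys Λ Es Fs (Φ t))
    (hφ : Good Λ Es Fs φ) {T lam : ℝ} {k : ℕ}
    (hr : ∀ x ∈ Λ, Rel (Es x) (Fs x) k (Real.exp (-(2 * lam * T))) (φ x) (pb I (Φ T) φ x)) (j : ℕ) :
    ∀ x ∈ Λ, Rel (Es x) (Fs x) k (Real.exp (-(2 * lam * (T / 2 ^ j)))) (dy Φ φ T j x)
      (pb I (Φ (T / 2 ^ j)) (dy Φ φ T j) x) := by
  induction j with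
  | zero =>
    intro x hx
    rw [pow_zero, div_one]
    exact hr x hx
  | succ j ih =>
    apply avg_rel hc (hS _) (dy_good hc hS hφ T j) (Real.exp_pos _).le
    intro x hx
    have e1 : Real.exp (-(2 * lam * (T / 2 ^ (j + 1)))) ^ 2 = Real.exp (-(2 * lam * (T / 2 ^ j))) := by
      rw [← Real.exp_nat_mul]
      congr 1
      rw [pow_succ]
      push_cast
      field_simp
    have e2 : T / 2 ^ (j + 1) + T / 2 ^ (j + 1) = T / 2 ^ j := by
      rw [pow_succ]; field_simp; ring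
    rw [e1, pb_flow h, e2]
    exact ih x hx

/-- the limit form -/
noncomputable def lim (Φ : ℝ → M → M) (φ : ∀ x : M, Frm I x) (T : ℝ) (x : M) : Frm I x :=
  open Classical in
  if hx : ∀ v w : TangentSpace I x, ∃ l : ℝ, Tendsto (fun i => dy Φ φ T i x v w) atTop (𝓝 l) then
    LinearMap.mk₂ ℝ (fun v w => (hx v w).choose)
      (fun v v' w => tendsto_nhds_unique (hx (v + v') w).choose_spec (by
        have := (hx v w).choose_spec.add (hx v' w).choose_spec
        refine this.congr fun i => ?_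
        simp))
      (fun c v w => tendsto_nhds_unique (hx (c • v) w).choose_spec (by
        have := (hx v w).choose_spec.const_mul c
        refine this.congr fun i => ?_
        simp))
      (fun v w w' => tendsto_nhds_unique (hx v (w + w')).choose_spec (by
        have := (hx v w).choose_spec.add (hx v w').choose_spec
        refine this.congr fun i => ?_
        simp))
      (fun c v w => tendsto_nhds_unique (hx v (c • w)).choose_spec (by
        have := (hx v w).choose_spec.const_mul c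
        refine this.congr fun i => ?_
        simp))
  else 0

lemma tend_tau {T : ℝ} : Tendsto (fun j : ℕ => T / 2 ^ j) atTop (𝓝 0) := by
  have h : Tendsto (fun j : ℕ => T * (1 / 2 : ℝ) ^ j) atTop (𝓝 (T * 0)) :=
    (tendsto_pow_atTop_nhds_zero_of_lt_one (by norm_num) (by norm_num)).const_mul T
  rw [mul_zero] at h
  refine h.congr fun j => ?_
  rw [one_div, inv_pow]
  rfl

lemma dy_tendsto (h : IsC1Flow I Φ) (hc : ∀ x ∈ Λ, IsCompl (Es x) (Fs x)) (hS : ∀ t, Sys Λ Es Fs (Φ t))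
    (hφ : Good Λ Es Fs φ) {T L : ℝ} (hT : 0 < T) (hL : 0 ≤ L) (hl : Lip Λ Φ φ T L)
    {x : M} (hx : x ∈ Λ) (v w : TangentSpace I x) :
    ∃ l : ℝ, Tendsto (fun i => dy Φ φ T i x v w) atTop (𝓝 l) := by
  have key : ∀ v : TangentSpace I x, ∃ l : ℝ, Tendsto (fun i => dy Φ φ T i x v v) atTop (𝓝 l) := by
    intro v
    apply cauchySeq_tendsto_of_complete
    set A := Real.exp (L * T) * φ x v v with hA
    have hb : ∀ i, dy Φ φ T i x v v ≤ A := fun i => by
      have := (dy_close h hc hS hφ hT hL hl (Nat.zero_le i) hx v).1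
      rw [pow_zero, div_one] at this
      exact this
    have hn : ∀ i, 0 ≤ dy Φ φ T i x v v := fun i => ((dy_good hc hS hφ T i).pd x hx).nonneg v
    refine cauchySeq_of_le_tendsto_0' (fun j => (Real.exp (L * (T / 2 ^ j)) - 1) * A) ?_ ?_
    · intro n m hnm
      have h1 := dy_close h hc hS hφ hT hL hl hnm hx v
      have he : 1 ≤ Real.exp (L * (T / 2 ^ n)) := Real.one_le_exp (by positivity)
      rw [Real.dist_eq, abs_le]
      have q1 : (Real.exp (L * (T / 2 ^ n)) - 1) * dy Φ φ T n x v v ≤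
          (Real.exp (L * (T / 2 ^ n)) - 1) * A := mul_le_mul_of_nonneg_left (hb n) (by linarith)
      have q2 : (Real.exp (L * (T / 2 ^ n)) - 1) * dy Φ φ T m x v v ≤
          (Real.exp (L * (T / 2 ^ n)) - 1) * A := mul_le_mul_of_nonneg_left (hb m) (by linarith)
      constructor <;> linarith [h1.1, h1.2]
    · have h1 : Tendsto (fun j : ℕ => (Real.exp (L * (T / 2 ^ j)) - 1) * A) atTop
          (𝓝 ((Real.exp (L * 0) - 1) * A)) := by
        have h2 : Continuous fun s : ℝ => (Real.exp (L * s) - 1) * A := by fun_prop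
        exact (h2.tendsto 0).comp tend_tau
      simpa using h1
  obtain ⟨l₁, h₁⟩ := key (v + w)
  obtain ⟨l₂, h₂⟩ := key (v - w)
  refine ⟨(l₁ - l₂) / 4, ((h₁.sub h₂).div_const 4).congr fun i => ?_⟩
  exact (polar ((dy_good hc hS hφ T i).pd x hx).symm v w).symm

lemma lim_tendsto (h : IsC1Flow I Φ) (hc : ∀ x ∈ Λ, IsCompl (Es x) (Fs x)) (hS : ∀ t, Sys Λ Es Fs (Φ t))
    (hφ : Good Λ Es Fs φ) {T L : ℝ} (hT : 0 < T) (hL : 0 ≤ L) (hl : Lip Λ Φ φ T L)
    {x : M} (hx : x ∈ Λ) (v w : TangentSpace I x) :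
    Tendsto (fun i => dy Φ φ T i x v w) atTop (𝓝 (lim Φ φ T x v w)) := by
  have hex := fun v w => dy_tendsto h hc hS hφ hT hL hl hx v w
  unfold lim
  rw [dif_pos hex]
  exact (hex v w).choose_spec

lemma lim_close (h : IsC1Flow I Φ) (hc : ∀ x ∈ Λ, IsCompl (Es x) (Fs x)) (hS : ∀ t, Sys Λ Es Fs (Φ t))
    (hφ : Good Λ Es Fs φ) {T L : ℝ} (hT : 0 < T) (hL : 0 ≤ L) (hl : Lip Λ Φ φ T L) (j : ℕ)
    {x : M} (hx : x ∈ Λ) (v : TangentSpace I x) :
    lim Φ φ T x v v ≤ Real.exp (L * (T / 2 ^ j)) * dy Φ φ T j x v v ∧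
    dy Φ φ T j x v v ≤ Real.exp (L * (T / 2 ^ j)) * lim Φ φ T x v v := by
  have ht := lim_tendsto h hc hS hφ hT hL hl hx v v
  constructor
  · refine le_of_tendsto ht ?_
    filter_upwards [eventually_ge_atTop j] with i hi
    exact (dy_close h hc hS hφ hT hL hl hi hx v).1
  · refine ge_of_tendsto (ht.const_mul _) ?_
    filter_upwards [eventually_ge_atTop j] with i hi
    exact (dy_close h hc hS hφ hT hL hl hi hx v).2

theorem lim_good (h : IsC1Flow I Φ) (hc : ∀ x ∈ Λ, IsCompl (Es x) (Fs x)) (hS : ∀ t, Sys Λ Es Fs (Φ t))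
    (hφ : Good Λ Es Fs φ) {T L : ℝ} (hT : 0 < T) (hL : 0 ≤ L) (hl : Lip Λ Φ φ T L) :
    Good Λ Es Fs (lim Φ φ T) := by
  have hpd : ∀ x ∈ Λ, PD (lim Φ φ T x) := by
    intro x hx
    refine ⟨fun v w => ?_, fun v hv => ?_⟩
    · refine tendsto_nhds_unique (lim_tendsto h hc hS hφ hT hL hl hx v w)
        ((lim_tendsto h hc hS hφ hT hL hl hx w v).congr fun i => ?_)
      exact ((dy_good hc hS hφ T i).pd x hx).symm w v
    · have h1 := (lim_close h hc hS hφ hT hL hl 0 hx v).2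
      have h2 : 0 < dy Φ φ T 0 x v v := ((dy_good hc hS hφ T 0).pd x hx).pos v hv
      exact pos_of_mul_pos_right (lt_of_lt_of_le h2 h1) (Real.exp_pos _).le
  refine ⟨hpd, fun x hx v hv w hw => ?_, fun x hx => ?_⟩
  · refine tendsto_nhds_unique (lim_tendsto h hc hS hφ hT hL hl hx v w)
      (tendsto_const_nhds.congr fun i => ?_)
    exact ((dy_good hc hS hφ T i).orth x hx v hv w hw).symm
  · apply OC.limit hx (hpd x hx)
    intro κ hκ
    have hcont : Continuous fun s : ℝ => Real.exp (L * s) := by fun_prop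
    have h1 : Tendsto (fun j : ℕ => Real.exp (L * (T / 2 ^ j))) atTop (𝓝 (Real.exp (L * 0))) :=
      (hcont.tendsto 0).comp tend_tau
    rw [mul_zero, Real.exp_zero] at h1
    obtain ⟨j, hj⟩ := (h1.eventually_lt_const hκ).exists
    refine ⟨dy Φ φ T j, (dy_good hc hS hφ T j).oc x hx, fun y hy v => ?_⟩
    have h2 := lim_close h hc hS hφ hT hL hl j hy v
    have n1 : 0 ≤ dy Φ φ T j y v v := ((dy_good hc hS hφ T j).pd y hy).nonneg v
    have n2 := (hpd y hy).nonneg v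
    exact ⟨h2.1.trans (mul_le_mul_of_nonneg_right hj.le n1),
      h2.2.trans (mul_le_mul_of_nonneg_right hj.le n2)⟩

lemma rel_limit {V : Type*} [AddCommGroup V] [Module ℝ V] {E' F' : Submodule ℝ V} {k : ℕ} {κ : ℝ}
    {c : ℕ → ℝ} (hc : Tendsto c atTop (𝓝 κ)) {P R : V →ₗ[ℝ] V →ₗ[ℝ] ℝ}
    (h : ∀ i, Rel E' F' k (c i) P R) : Rel E' F' k κ P R :=
  ⟨fun v hv => ge_of_tendsto' (hc.mul_const _) fun i => (h i).vol v hv,
    fun v hv => ge_of_tendsto' (hc.mul_const _) fun i => (h i).con v hv,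
    fun v hv w hw => ge_of_tendsto' (hc.mul_const _) fun i => (h i).dom v hv w hw⟩

lemma iterate_flow (h : IsC1Flow I Φ) (t : ℝ) (n : ℕ) : (Φ t)^[n] = Φ (n * t) := by
  induction n with
  | zero =>
    funext x
    simp [h.zero]
  | succ n ih =>
    rw [iterate_succ, ih, h.comp]
    congr 1
    push_cast
    ring

/-- the relations for the limit metric, for all positive times -/
theorem lim_rel (h : IsC1Flow I Φ) (hc : ∀ x ∈ Λ, IsCompl (Es x) (Fs x)) (hS : ∀ t, Sys Λ Es Fs (Φ t))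
    (hφ : Good Λ Es Fs φ) {T L lam : ℝ} {k : ℕ} (hT : 0 < T) (hL : 0 ≤ L) (hlam : 0 < lam)
    (hl : Lip Λ Φ φ T L)
    (hr : ∀ x ∈ Λ, Rel (Es x) (Fs x) k (Real.exp (-(2 * lam * T))) (φ x) (pb I (Φ T) φ x))
    {t : ℝ} (ht : 0 ≤ t) {x : M} (hx : x ∈ Λ) :
    Rel (Es x) (Fs x) k (Real.exp (-(2 * lam * t))) (lim Φ φ T x) (pb I (Φ t) (lim Φ φ T) x) := by
  have hg := lim_good h hc hS hφ hT hL hl
  have hm : ∀ t, MapsTo (Φ t) Λ Λ := fun t => (hS t).maps
  have key : ∀ i : ℕ, Rel (Es x) (Fs x) k (Real.exp (-(2 * lam * (t - T / 2 ^ i))) *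
      Real.exp (2 * (L * (T / 2 ^ i))) ^ (2 * k + 4)) (lim Φ φ T x) (pb I (Φ t) (lim Φ φ T) x) := by
    intro i
    set τ := T / 2 ^ i with hτ
    have hτ0 : 0 < τ := by positivity
    set n := ⌊t / τ⌋₊ with hn
    have hn1 : n * τ ≤ t := by
      have := Nat.floor_le (div_nonneg ht hτ0.le)
      rwa [le_div_iff₀ hτ0] at this
    have hn2 : t < (n + 1) * τ := by
      have := Nat.lt_floor_add_one (t / τ)
      rwa [div_lt_iff₀ hτ0] at this
    set r := t - n * τ with hrdef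
    have hr0 : 0 ≤ r := by rw [hrdef]; linarith
    have hr1 : r ≤ τ := by rw [hrdef]; linarith
    have gi := dy_good hc hS hφ T i
    have hτT : τ ≤ T := div_le_self hT.le (one_le_pow₀ (by norm_num))
    have h1 := rel_iterate (hS τ) (Real.exp_pos _).le gi.pd (dy_rel h hc hS hφ hr i) n x hx
    rw [iterate_flow h] at h1
    have e1 : Real.exp (-(2 * lam * τ)) ^ n ≤ Real.exp (-(2 * lam * (t - τ))) := by
      rw [← Real.exp_nat_mul]
      apply Real.exp_le_exp.2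
      have : t - τ ≤ n * τ := by linarith
      have := mul_le_mul_of_nonneg_left this (by linarith : 0 ≤ 2 * lam)
      linarith
    have p1 : PD (dy Φ φ T i x) := gi.pd x hx
    have p2 : PD (pb I (Φ (n * τ)) (dy Φ φ T i) x) := pb_pd (hS _) hx (gi.pd _ (hm _ hx))
    have p3 : PD (lim Φ φ T x) := hg.pd x hx
    have p4 : PD (pb I (Φ t) (lim Φ φ T) x) := pb_pd (hS _) hx (hg.pd _ (hm _ hx))
    have h2 := h1.mono p1 p2 e1
    have hLτ : 0 ≤ L * τ := by positivity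
    have ha1 : Real.exp (L * τ) ≤ Real.exp (2 * (L * τ)) := Real.exp_le_exp.2 (by linarith)
    have ha0 : 1 ≤ Real.exp (2 * (L * τ)) := Real.one_le_exp (by linarith)
    have hee : Real.exp (L * τ) * Real.exp (L * τ) = Real.exp (2 * (L * τ)) := by
      rw [← Real.exp_add]; congr 1; ring
    have hpbe : pb I (Φ t) (dy Φ φ T i) x = pb I (Φ (n * τ)) (pb I (Φ r) (dy Φ φ T i)) x := by
      rw [pb_flow h]; congr 2; rw [hrdef]; ring
    have hlr : ∀ y ∈ Λ, ∀ v, pb I (Φ r) (dy Φ φ T i) y v v ≤ Real.exp (L * τ) * dy Φ φ T i y v v ∧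
        dy Φ φ T i y v v ≤ Real.exp (L * τ) * pb I (Φ r) (dy Φ φ T i) y v v := by
      intro y hy v
      have h3 := dy_lip h hc hS hφ hL hl i y hy r ⟨hr0, hr1.trans hτT⟩ v
      have h4 : 1 + L * r ≤ Real.exp (L * τ) := by
        have a1 := Real.add_one_le_exp (L * τ)
        have a2 : L * r ≤ L * τ := mul_le_mul_of_nonneg_left hr1 hL
        linarith
      have n1 : 0 ≤ dy Φ φ T i y v v := (gi.pd y hy).nonneg v
      have n2 : 0 ≤ pb I (Φ r) (dy Φ φ T i) y v v := (pb_pd (hS r) hy (gi.pd _ (hm r hy))).nonneg v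
      exact ⟨h3.1.trans (mul_le_mul_of_nonneg_right h4 n1), h3.2.trans (mul_le_mul_of_nonneg_right h4 n2)⟩
    refine rel_perturb (Real.exp_pos _).le ha0 p1 p3 p2 p4 (fun v => ?_) (fun v => ?_) (fun v => ?_)
      (fun v => ?_) h2
    · exact (lim_close h hc hS hφ hT hL hl i hx v).1.trans
        (mul_le_mul_of_nonneg_right ha1 (p1.nonneg v))
    · exact (lim_close h hc hS hφ hT hL hl i hx v).2.trans
        (mul_le_mul_of_nonneg_right ha1 (p3.nonneg v))
    · have a1 := (lim_close h hc hS hφ hT hL hl i (hm t hx) (mfderiv I I (Φ t) x v)).1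
      rw [← pb_apply, ← pb_apply, ← hτ, hpbe] at a1
      have a2 := (hlr (Φ (n * τ) x) (hm _ hx) (mfderiv I I (Φ (n * τ)) x v)).1
      rw [← pb_apply, ← pb_apply] at a2
      refine a1.trans ?_
      rw [← hee, mul_assoc]
      exact mul_le_mul_of_nonneg_left a2 (Real.exp_pos _).le
    · have a1 := (lim_close h hc hS hφ hT hL hl i (hm t hx) (mfderiv I I (Φ t) x v)).2
      rw [← pb_apply, ← pb_apply, ← hτ, hpbe] at a1
      have a2 := (hlr (Φ (n * τ) x) (hm _ hx) (mfderiv I I (Φ (n * τ)) x v)).2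
      rw [← pb_apply, ← pb_apply] at a2
      refine a2.trans ?_
      rw [← hee, mul_assoc]
      exact mul_le_mul_of_nonneg_left a1 (Real.exp_pos _).le
  refine rel_limit ?_ key
  have hcont : Continuous fun s : ℝ => Real.exp (-(2 * lam * (t - s))) *
      Real.exp (2 * (L * s)) ^ (2 * k + 4) := by fun_prop
  have h1 := (hcont.tendsto 0).comp (tend_tau (T := T))
  have e : Real.exp (-(2 * lam * (t - 0))) * Real.exp (2 * (L * 0)) ^ (2 * k + 4) =
      Real.exp (-(2 * lam * t)) := by simp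
  rw [e] at h1
  exact h1

end Pool.Agent.R191.Met
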