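import Pool.Agent.R191.Met.Ext

/-!
# Adapted metrics for flows
-/

set_option autoImplicit false
set_option linter.unusedSectionVars false

open Set Filter Topology Function Bundle Manifold MeasureTheory
open scoped ContDiff

namespace Pool.Agent.R191.Met

variable {E : Type*} [NormedAddCommGroup E] [NormedSpace ℝ E] [FiniteDimensional ℝ E]
  {H : Type*} [TopologicalSpace H] {I : ModelWithCorners ℝ E H}
  {M : Type*} [TopologicalSpace M] [ChartedSpace H M] [IsManifold I ∞ M]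

variable {Λ : Set M} {Es Fs : ∀ x : M, Submodule ℝ (TangentSpace I x)} {Φ : ℝ → M → M}
  {φ : ∀ x : M, Frm I x}

lemma gnorm_sq' {h : ∀ x : M, TangentSpace I x →L[ℝ] TangentSpace I x →L[ℝ] ℝ} {x : M}
    (hx : ∀ v w, h x v w = φ x v w) (hp : PD (φ x)) (v : TangentSpace I x) :
    gnorm h x v ^ 2 = φ x v v := by
  unfold gnorm
  rw [hx v v]
  exact Real.sq_sqrt (hp.nonneg v)

lemma gvol_sq' {h : ∀ x : M, TangentSpace I x →L[ℝ] TangentSpace I x →L[ℝ] ℝ} {x : M}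
    (hx : ∀ v w, h x v w = φ x v w) (hp : PD (φ x)) {k : ℕ} (v : Fin k → TangentSpace I x) :
    gvol h x v ^ 2 = gram (φ x) v := by
  have e : (Matrix.of fun i j => h x (v i) (v j)) = Matrix.of fun i j => φ x (v i) (v j) := by
    ext i j
    exact hx _ _
  unfold gvol
  rw [e]
  exact Real.sq_sqrt (gram_nonneg hp v)

lemma ineq_of_rel' {h : ∀ x : M, TangentSpace I x →L[ℝ] TangentSpace I x →L[ℝ] ℝ} {k : ℕ} {G : M → M}
    {x : M} {s : ℝ} (hs : 0 < s) (hx : ∀ v w, h x v w = φ x v w) (hp : PD (φ x))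
    (hGx : ∀ v w, h (G x) v w = φ (G x) v w) (hGp : PD (φ (G x)))
    (hr : Rel (Es x) (Fs x) k (s ^ 2) (φ x) (pb I G φ x)) :
    Ineq h Es Fs k G x s s s⁻¹ := by
  refine ⟨fun v hv w hw => ?_, fun v hv => ?_, fun v hv => ?_⟩
  · have h1 := hr.dom v hv w hw
    rw [pb_apply, pb_apply] at h1
    rw [← sq_le_sq₀ (mul_nonneg (gnorm_nonneg _ _ _) (gnorm_nonneg _ _ _))
      (mul_nonneg hs.le (mul_nonneg (gnorm_nonneg _ _ _) (gnorm_nonneg _ _ _))), mul_pow, mul_pow,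
      mul_pow, gnorm_sq' hx hp, gnorm_sq' hx hp, gnorm_sq' hGx hGp, gnorm_sq' hGx hGp]
    calc _ ≤ _ := h1
      _ = _ := by ring
  · have h1 := hr.con v hv
    rw [pb_apply] at h1
    rw [← sq_le_sq₀ (gnorm_nonneg _ _ _) (mul_nonneg hs.le (gnorm_nonneg _ _ _)), mul_pow,
      gnorm_sq' hx hp, gnorm_sq' hGx hGp]
    exact h1
  · have h1 := hr.vol v hv
    rw [← sq_le_sq₀ (mul_nonneg (inv_nonneg.2 hs.le) (gvol_nonneg _ _ _)) (gvol_nonneg _ _ _), mul_pow,
      gvol_sq' hx hp, gvol_sq' hGx hGp, inv_pow, inv_mul_le_iff₀ (by positivity)]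
    exact h1

/-- the time average is comparable to the form -/
lemma tav_comp (hΛ : IsCompact Λ) (h : IsC1Flow I Φ) (hS : ∀ t, Sys Λ Es Fs (Φ t))
    (hφ : Good Λ Es Fs φ) : ∃ C : ℝ, 1 ≤ C ∧ ∀ x ∈ Λ, ∀ v,
      tav Φ φ x v v ≤ C * φ x v v ∧ φ x v v ≤ C * tav Φ φ x v v := by
  obtain ⟨C, hC, hcomp⟩ := exists_comp hΛ h hS hφ 1
  have hm : ∀ t, MapsTo (Φ t) Λ Λ := fun t => (hS t).maps
  have hcc : ∀ x ∈ Λ, CC Λ x id φ := fun x hx => (hφ.oc x hx).cc
  refine ⟨C, hC, fun x hx v => ?_⟩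
  have hcont := flow_cont h hm hcc hx v
  have hint : IntervalIntegrable (fun s => pb I (Φ s) φ x v v) volume 0 1 := hcont.intervalIntegrable 0 1
  rw [tav_apply h hm hcc hφ.pd hx]
  constructor
  · have h1 : ∫ s in (0 : ℝ)..1, pb I (Φ s) φ x v v ≤ ∫ _ in (0 : ℝ)..1, C * φ x v v := by
      apply intervalIntegral.integral_mono_on zero_le_one hint intervalIntegrable_const
      intro s hs
      exact (hcomp x hx s hs v).1
    rw [intervalIntegral.integral_const, sub_zero, one_smul] at h1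
    exact h1
  · rw [← intervalIntegral.integral_const_mul]
    have h1 : ∫ _ in (0 : ℝ)..1, φ x v v ≤ ∫ s in (0 : ℝ)..1, C * pb I (Φ s) φ x v v := by
      apply intervalIntegral.integral_mono_on zero_le_one intervalIntegrable_const (hint.const_mul _)
      intro s hs
      exact (hcomp x hx s hs v).2
    rw [intervalIntegral.integral_const, sub_zero, one_smul] at h1
    exact h1

/-- the general theorem for flows -/
theorem exists_adapted_flow [T2Space M] [SigmaCompactSpace M] (hΛ : IsCompact Λ)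
    (hs : ContSplitting Λ Es Fs) (h : IsC1Flow I Φ) (hS : ∀ t, Sys Λ Es Fs (Φ t))
    (g₀ : ContMDiffRiemannianMetric I ∞ E (fun x : M => TangentSpace I x)) {k : ℕ} {C lam : ℝ}
    (hC : 1 ≤ C) (hlam : 0 < lam)
    (hI : ∀ x ∈ Λ, ∀ t : ℝ, 0 < t → Ineq g₀.inner Es Fs k (Φ t) x (C * Real.exp (-(lam * t)))
      (C * Real.exp (-(lam * t))) (C⁻¹ * Real.exp (lam * t))) :
    ∃ (g : ContinuousRiemannianMetric E (fun x : M => TangentSpace I x)) (lam' : ℝ), 0 < lam' ∧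
      ∀ x ∈ Λ, ∀ t : ℝ, 0 ≤ t → Ineq g.inner Es Fs k (Φ t) x (Real.exp (-(lam' * t)))
        (Real.exp (-(lam' * t))) (Real.exp (lam' * t)) := by
  obtain ⟨φ, hφ, hφg⟩ := ini_good hs g₀
  obtain ⟨A, hA, hcomp⟩ := tav_comp hΛ h hS hφ
  have hm : ∀ t, MapsTo (Φ t) Λ Λ := fun t => (hS t).maps
  have hg0 := tav_good h hS hφ
  have hC0 : 0 < C := by linarith
  -- a large time
  obtain ⟨T, hT0, hT⟩ : ∃ T : ℝ, 0 < T ∧ C ^ 2 * A ^ (2 * k + 4) ≤ Real.exp (lam * T) := by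
    have h1 : Tendsto (fun T : ℝ => Real.exp (lam * T)) atTop atTop :=
      Real.tendsto_exp_atTop.comp (Tendsto.const_mul_atTop hlam tendsto_id)
    obtain ⟨T, hT1, hT2⟩ := ((h1.eventually_ge_atTop (C ^ 2 * A ^ (2 * k + 4))).and
      (eventually_gt_atTop 0)).exists
    exact ⟨T, hT2, hT1⟩
  set κ := C ^ 2 * Real.exp (-(2 * (lam * T))) with hκ
  have hκ0 : 0 < κ := by positivity
  have hexp : Real.exp (-(lam * T)) ^ 2 = Real.exp (-(2 * (lam * T))) := by
    rw [← Real.exp_nat_mul]; congr 1; push_cast; ring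
  have hrel : ∀ x ∈ Λ, Rel (Es x) (Fs x) k κ (φ x) (pb I (Φ T) φ x) := by
    intro x hx
    refine rel_of_ineq g₀ (a := C * Real.exp (-(lam * T))) (b := C * Real.exp (-(lam * T)))
      (c := C⁻¹ * Real.exp (lam * T)) (by positivity) (by positivity) (by positivity) ?_ ?_ ?_
      (hI x hx T hT0) ((hS T).mapE x hx) ((hS T).mapF x hx) ?_
    · rw [mul_pow, hexp]
    · rw [mul_pow, hexp]
    · rw [mul_pow, mul_inv, inv_pow, inv_inv, ← inv_pow, ← Real.exp_neg, hexp]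
    · rintro y (rfl | rfl)
      · exact hφg _ hx
      · exact hφg _ ((hS T).maps hx)
  have hrel2 : ∀ x ∈ Λ, Rel (Es x) (Fs x) k (Real.exp (-(2 * (lam / 2) * T))) (tav Φ φ x)
      (pb I (Φ T) (tav Φ φ) x) := by
    intro x hx
    have p1 := hφ.pd x hx
    have p2 : PD (pb I (Φ T) φ x) := pb_pd (hS T) hx (hφ.pd _ (hm T hx))
    have p3 : PD (pb I (Φ T) (tav Φ φ) x) := pb_pd (hS T) hx (hg0.pd _ (hm T hx))
    have h1 := rel_perturb hκ0.le hA p1 (hg0.pd x hx) p2 p3 (fun v => (hcomp x hx v).1)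
      (fun v => (hcomp x hx v).2) (fun v => (hcomp _ (hm T hx) (mfderiv I I (Φ T) x v)).1)
      (fun v => (hcomp _ (hm T hx) (mfderiv I I (Φ T) x v)).2) (hrel x hx)
    refine h1.mono (hg0.pd x hx) p3 ?_
    have e1 : Real.exp (-(2 * (lam / 2) * T)) = Real.exp (-(2 * (lam * T))) * Real.exp (lam * T) := by
      rw [← Real.exp_add]; congr 1; ring
    rw [e1, hκ]
    calc C ^ 2 * Real.exp (-(2 * (lam * T))) * A ^ (2 * k + 4) =
        Real.exp (-(2 * (lam * T))) * (C ^ 2 * A ^ (2 * k + 4)) := by ring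
      _ ≤ Real.exp (-(2 * (lam * T))) * Real.exp (lam * T) := by gcongr
  obtain ⟨L, hL, hl⟩ := tav_lip hΛ h hS hφ T
  have hlim := lim_good h hs.isCompl hS hg0 hT0 hL hl
  obtain ⟨g, hg⟩ := exists_cont_metric hΛ.isClosed g₀ hlim
  refine ⟨g, lam / 2, by linarith, fun x hx t ht => ?_⟩
  have h1 := lim_rel h hs.isCompl hS hg0 hT0 hL (by linarith : 0 < lam / 2) hl hrel2 ht hx
  have e : Real.exp (-(2 * (lam / 2) * t)) = Real.exp (-(lam / 2 * t)) ^ 2 := by
    rw [← Real.exp_nat_mul]; congr 1; push_cast; ring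
  rw [e] at h1
  have h2 := ineq_of_rel' (Real.exp_pos _) (hg x hx) (hlim.pd x hx) (hg _ (hm t hx))
    (hlim.pd _ (hm t hx)) h1
  rw [← Real.exp_neg, neg_neg] at h2
  exact h2

end Pool.Agent.R191.Met
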