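import Pool.Agent.R191.Met.Man

/-!
# Gluing local inner products to a Riemannian metric
-/

set_option autoImplicit false
set_option linter.unusedSectionVars false

open Set Filter Topology Function Bundle Manifold
open scoped ContDiff

namespace Pool.Agent.R191.Met

variable {E : Type*} [NormedAddCommGroup E] [NormedSpace ℝ E] [FiniteDimensional ℝ E]
  {H : Type*} [TopologicalSpace H] {I : ModelWithCorners ℝ E H}
  {M : Type*} [TopologicalSpace M] [ChartedSpace H M] [IsManifold I ∞ M]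

omit [IsManifold I ∞ M] in
instance t2Tangent (x : M) : T2Space (TangentSpace I x) := inferInstanceAs (T2Space E)

variable (I) in
/-- the form on the tangent space at `x` given by a model form through the trivialisation at `x₀` -/
noncomputable def sloc (x₀ : M) (K : M → E →L[ℝ] E →L[ℝ] ℝ) (x : M) :
    TangentSpace I x →L[ℝ] TangentSpace I x →L[ℝ] ℝ :=
  (LinearMap.mk₂ ℝ (fun v w : TangentSpace I x => K x (tau I x₀ x v) (tau I x₀ x w))
    (fun v v' w => by simp) (fun c v w => by simp) (fun v w w' => by simp)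
    (fun c v w => by simp)).toContinuousBilinearMap

lemma sloc_apply (x₀ : M) (K : M → E →L[ℝ] E →L[ℝ] ℝ) (x : M) (v w : TangentSpace I x) :
    sloc I x₀ K x v w = K x (tau I x₀ x v) (tau I x₀ x w) := rfl

lemma symm_eq_taui {x₀ y : M} (hy : y ∈ bs I x₀) (u : E) :
    (trivializationAt E (TangentSpace I : M → Type _) x₀).symm y u = taui I x₀ y u := by
  unfold taui
  rw [Trivialization.symmL_apply (R := ℝ)]
  exact hy

lemma coord_sloc (x₀ : M) (K : M → E →L[ℝ] E →L[ℝ] ℝ) {x : M} (hx : x ∈ bs I x₀) :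
    ContinuousLinearMap.inCoordinates E (TangentSpace I : M → Type _) (E →L[ℝ] ℝ)
      (fun x ↦ TangentSpace I x →L[ℝ] ℝ) x₀ x x₀ x (sloc I x₀ K x) = K x := by
  ext u w
  rw [inCoordinates_apply_eq₂ hx hx (Set.mem_univ _), symm_eq_taui hx, symm_eq_taui hx, sloc_apply,
    tau_taui hx, tau_taui hx]
  simp

lemma contMDiffOn_sloc {n : ℕ∞} (x₀ : M) {K : M → E →L[ℝ] E →L[ℝ] ℝ} {U : Set M} (hU : IsOpen U)
    (hUb : U ⊆ bs I x₀) (hK : ContMDiffOn I 𝓘(ℝ, E →L[ℝ] E →L[ℝ] ℝ) n K U) :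
    ContMDiffOn I (I.prod 𝓘(ℝ, E →L[ℝ] E →L[ℝ] ℝ)) n
      (fun x => TotalSpace.mk' (E →L[ℝ] E →L[ℝ] ℝ) (E := fun x : M =>
        (TangentSpace I x →L[ℝ] TangentSpace I x →L[ℝ] ℝ)) x (sloc I x₀ K x)) U := by
  have hm : IsManifold I (n + 1 : ℕ∞ω) M := IsManifold.of_le (n := ∞) (by exact_mod_cast le_top)
  have hb : U ⊆ (trivializationAt (E →L[ℝ] E →L[ℝ] ℝ)
    (fun x : M => (TangentSpace I x →L[ℝ] TangentSpace I x →L[ℝ] ℝ)) x₀).baseSet := by
    intro x hx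
    rw [hom_trivializationAt_baseSet, hom_trivializationAt_baseSet]
    exact ⟨hUb hx, hUb hx, Set.mem_univ _⟩
  have h := (Bundle.Trivialization.contMDiffOn_section_iff (F := E →L[ℝ] E →L[ℝ] ℝ)
      (IB := I) (n := n) (s := fun x => sloc I x₀ K x) (trivializationAt (E →L[ℝ] E →L[ℝ] ℝ)
    (fun x : M => (TangentSpace I x →L[ℝ] TangentSpace I x →L[ℝ] ℝ)) x₀) hU hb).2
  apply h
  refine hK.congr fun x hx => ?_
  rw [hom_trivializationAt_apply]
  exact coord_sloc x₀ K (hUb hx)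

lemma isVonNBounded_form {x : M} {h : TangentSpace I x →L[ℝ] TangentSpace I x →L[ℝ] ℝ}
    (hs : ∀ v w, h v w = h w v) (hp : ∀ v, v ≠ 0 → 0 < h v v) :
    Bornology.IsVonNBounded ℝ {v : TangentSpace I x | h v v < 1} := by
  have key : ∀ h : E →L[ℝ] E →L[ℝ] ℝ, (∀ v w, h v w = h w v) → (∀ v, v ≠ 0 → 0 < h v v) →
      Bornology.IsVonNBounded ℝ {v : E | h v v < 1} := by
    intro h hs hp
    have hpd : PD (LinearMap.mk₂ ℝ (fun v w : E => h v w) (fun v v' w => by simp)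
        (fun c v w => by simp) (fun v w w' => by simp) (fun c v w => by simp)) := ⟨hs, hp⟩
    obtain ⟨c, hc, hB⟩ := hpd.lower
    apply (NormedSpace.isVonNBounded_closedBall ℝ E (Real.sqrt (1 / c))).subset
    intro v hv
    have h1 : h v v < 1 := hv
    have h2 : c * ‖v‖ ^ 2 ≤ h v v := hB v
    rw [mem_closedBall_zero_iff]
    apply Real.le_sqrt_of_sq_le
    rw [le_div_iff₀ hc]
    linarith
  exact key h hs hp

/-- Gluing of local inner products. -/
theorem exists_metric_of_local [T2Space M] [SigmaCompactSpace M] {n : ℕ∞}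
    (t : ∀ x : M, Set (TangentSpace I x →L[ℝ] TangentSpace I x →L[ℝ] ℝ)) (ht : ∀ x, Convex ℝ (t x))
    (hs : ∀ x, ∀ h ∈ t x, ∀ v w, h v w = h w v) (hp : ∀ x, ∀ h ∈ t x, ∀ v, v ≠ 0 → 0 < h v v)
    (Hloc : ∀ x₀ : M, ∃ U : Set M, IsOpen U ∧ x₀ ∈ U ∧ U ⊆ bs I x₀ ∧ ∃ K : M → E →L[ℝ] E →L[ℝ] ℝ,
      ContMDiffOn I 𝓘(ℝ, E →L[ℝ] E →L[ℝ] ℝ) n K U ∧ ∀ y ∈ U, sloc I x₀ K y ∈ t y) :
    ∃ g : ContMDiffRiemannianMetric I n E (fun x : M => TangentSpace I x), ∀ x, g.inner x ∈ t x := by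
  have hm : IsManifold I (n + 1 : ℕ∞ω) M := IsManifold.of_le (n := ∞) (by exact_mod_cast le_top)
  obtain ⟨s, hs'⟩ := exists_contMDiffSection_forall_mem_convex_of_local (I := I)
    (n := n) (fun x : M => (TangentSpace I x →L[ℝ] TangentSpace I x →L[ℝ] ℝ)) t ht (by
      intro x₀
      obtain ⟨U, hU, hx, hUb, K, hK, hKt⟩ := Hloc x₀
      exact ⟨U, hU.mem_nhds hx, sloc I x₀ K, contMDiffOn_sloc x₀ hU hUb hK, hKt⟩)
  exact ⟨⟨s, fun x => hs x _ (hs' x), fun x => hp x _ (hs' x),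
    fun x => isVonNBounded_form (hs x _ (hs' x)) (hp x _ (hs' x)), s.contMDiff⟩, hs'⟩

end Pool.Agent.R191.Met
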