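import Mathlib

/-!
# Geometric means of inner products and volumes of frames
-/

set_option autoImplicit false

open Finset Function
open Module (Basis finrank)
open scoped BigOperators

namespace Pool.Agent.R191.Met

variable {V : Type*} [AddCommGroup V] [Module ℝ V]

/-- positive definite symmetric bilinear forms -/
structure PD (B : V →ₗ[ℝ] V →ₗ[ℝ] ℝ) : Prop where
  symm : ∀ v w, B v w = B w v
  pos : ∀ v, v ≠ 0 → 0 < B v v

lemma PD.nonneg {B : V →ₗ[ℝ] V →ₗ[ℝ] ℝ} (h : PD B) (v : V) : 0 ≤ B v v := by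
  by_cases hv : v = 0
  · rw [hv]; simp
  · exact (h.pos v hv).le

lemma PD.nondeg {B : V →ₗ[ℝ] V →ₗ[ℝ] ℝ} (h : PD B) {v v' : V} (hv : ∀ w, B v w = B v' w) : v = v' := by
  by_contra hne
  have h1 := h.pos (v - v') (sub_ne_zero.2 hne)
  have h2 : B (v - v') (v - v') = 0 := by
    have e : B (v - v') = B v - B v' := map_sub B v v'
    rw [e, LinearMap.sub_apply, hv, sub_self]
  linarith

/-- simultaneous diagonalisation -/
theorem exists_diag [FiniteDimensional ℝ V] {A B : V →ₗ[ℝ] V →ₗ[ℝ] ℝ} (hA : PD A) (hB : PD B) :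
    ∃ (n : ℕ) (e : Basis (Fin n) ℝ V) (b : Fin n → ℝ), (∀ i, 0 < b i) ∧
      (∀ i j, A (e i) (e j) = if i = j then 1 else 0) ∧
      (∀ i j, B (e i) (e j) = if i = j then b i else 0) := by
  let core : InnerProductSpace.Core ℝ V :=
    { inner := fun v w => A v w
      conj_inner_symm := fun v w => by simpa using hA.symm w v
      re_inner_nonneg := fun v => by simpa using hA.nonneg v
      add_left := fun v w x => by simp
      smul_left := fun v w c => by simp
      definite := fun v hv => by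
        by_contra hne
        exact (hA.pos v hne).ne' hv }
  let _ : NormedAddCommGroup V := core.toNormedAddCommGroup
  let _ : InnerProductSpace ℝ V := InnerProductSpace.ofCore core.toCore
  have hinner : ∀ v w : V, inner ℝ v w = A v w := fun v w => rfl
  -- the operator
  have hinj : Injective (A : V →ₗ[ℝ] (V →ₗ[ℝ] ℝ)) := by
    intro v v' h
    exact hA.nondeg fun w => by rw [h]
  have hfr : finrank ℝ V = finrank ℝ (V →ₗ[ℝ] ℝ) := (Subspace.dual_finrank_eq (K := ℝ) (V := V)).symm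
  have hsurj : Surjective (A : V →ₗ[ℝ] (V →ₗ[ℝ] ℝ)) :=
    (LinearMap.injective_iff_surjective_of_finrank_eq_finrank hfr).1 hinj
  let Ae : V ≃ₗ[ℝ] (V →ₗ[ℝ] ℝ) := LinearEquiv.ofBijective A ⟨hinj, hsurj⟩
  let T : V →ₗ[ℝ] V := Ae.symm.toLinearMap ∘ₗ B
  have hT : ∀ v w, A (T v) w = B v w := by
    intro v w
    have : A (T v) = B v := Ae.apply_symm_apply (B v)
    rw [this]
  have hTs : T.IsSymmetric := by
    intro v w
    rw [hinner, hinner, hT, hA.symm, hT, hB.symm]
  let e := hTs.eigenvectorBasis (n := finrank ℝ V) rfl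
  have hee : ∀ i j, A (e i) (e j) = if i = j then 1 else 0 := by
    intro i j
    rw [← hinner]
    exact orthonormal_iff_ite.1 e.orthonormal i j
  have hbe : ∀ i j, B (e i) (e j) = if i = j then hTs.eigenvalues rfl i else 0 := by
    intro i j
    rw [← hT]
    have h1 : T (e i) = (hTs.eigenvalues rfl i : ℝ) • e i := hTs.apply_eigenvectorBasis rfl i
    rw [h1, map_smul, LinearMap.smul_apply, hee, smul_eq_mul]
    split_ifs <;> simp
  refine ⟨finrank ℝ V, e.toBasis, fun i => hTs.eigenvalues rfl i, fun i => ?_, fun i j => ?_,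
    fun i j => ?_⟩
  · have h1 := hbe i i
    rw [if_pos rfl] at h1
    show 0 < hTs.eigenvalues rfl i
    rw [← h1]
    apply hB.pos
    intro h0
    have := hee i i
    rw [h0] at this
    simp at this
  · simpa using hee i j
  · simpa using hbe i j

/-- the Gram determinant of a frame -/
noncomputable def gram {k : ℕ} (B : V →ₗ[ℝ] V →ₗ[ℝ] ℝ) (v : Fin k → V) : ℝ :=
  Matrix.det (Matrix.of fun i j => B (v i) (v j))

lemma gram_expand {ι : Type*} [Fintype ι] [DecidableEq ι] {k : ℕ} (s : ι → ℝ) (a : Fin k → ι → ℝ) :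
    (k.factorial : ℝ) * Matrix.det (Matrix.of fun i j => ∑ l, s l * a i l * a j l) =
      ∑ f : Fin k → ι, (∏ i, s (f i)) * (Matrix.det (Matrix.of fun i j => a i (f j))) ^ 2 := by
  set D : (Fin k → ι) → ℝ := fun f => Matrix.det (Matrix.of fun i j => a i (f j)) with hD
  -- expansion along the rows
  have h1 : Matrix.det (Matrix.of fun i j => ∑ l, s l * a i l * a j l) =
      ∑ f : Fin k → ι, (∏ i, s (f i)) * ((∏ i, a i (f i)) * D f) := by
    have e1 : (Matrix.of fun i j => ∑ l, s l * a i l * a j l : Matrix (Fin k) (Fin k) ℝ) =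
        fun i => ∑ l, ((s l * a i l) • fun j => a j l : Fin k → ℝ) := by
      funext i
      funext j
      simp [Matrix.of_apply, Finset.sum_apply]
    have e2 := (Matrix.detRowAlternating (n := Fin k) (R := ℝ)).toMultilinearMap.map_sum
      (fun (i : Fin k) (l : ι) => ((s l * a i l) • fun j => a j l : Fin k → ℝ))
    have e3 : Matrix.det (Matrix.of fun i j => ∑ l, s l * a i l * a j l : Matrix (Fin k) (Fin k) ℝ) =
        ∑ f : Fin k → ι, (Matrix.detRowAlternating (n := Fin k) (R := ℝ)).toMultilinearMap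
          (fun i => ((s (f i) * a i (f i)) • fun j => a j (f i) : Fin k → ℝ)) := by
      rw [← e2, e1]
      rfl
    rw [e3]
    refine Finset.sum_congr rfl fun f _ => ?_
    rw [MultilinearMap.map_smul_univ, Finset.prod_mul_distrib, smul_eq_mul, mul_assoc]
    congr 2
    show Matrix.det (Matrix.of fun i j => a j (f i)) = D f
    rw [hD, ← Matrix.det_transpose]
    rfl
  -- the determinant after a permutation of the columns
  have hperm : ∀ (σ : Equiv.Perm (Fin k)) (f : Fin k → ι),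
      D (f ∘ σ) = (Equiv.Perm.sign σ : ℤ) * D f := by
    intro σ f
    have := Matrix.det_permute' σ (Matrix.of fun i j => a i (f j) : Matrix (Fin k) (Fin k) ℝ)
    rw [hD]
    exact this
  have h2 : ∀ σ : Equiv.Perm (Fin k), Matrix.det (Matrix.of fun i j => ∑ l, s l * a i l * a j l) =
      ∑ f : Fin k → ι, (∏ i, s (f i)) * (((Equiv.Perm.sign σ : ℤ) * ∏ i, a i (f (σ i))) * D f) := by
    intro σ
    rw [h1, ← Equiv.sum_comp (Equiv.arrowCongr σ⁻¹ (Equiv.refl ι))]
    refine Finset.sum_congr rfl fun f _ => ?_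
    have e : (Equiv.arrowCongr σ⁻¹ (Equiv.refl ι)) f = f ∘ σ := by
      funext i
      rfl
    rw [e, hperm]
    have e2 : ∏ i, s ((f ∘ σ) i) = ∏ i, s (f i) := Equiv.prod_comp σ fun i => s (f i)
    rw [e2]
    simp only [comp_apply]
    ring
  have h3 : ∑ _σ : Equiv.Perm (Fin k), Matrix.det (Matrix.of fun i j => ∑ l, s l * a i l * a j l) =
      (k.factorial : ℝ) * Matrix.det (Matrix.of fun i j => ∑ l, s l * a i l * a j l) := by
    rw [Finset.sum_const, nsmul_eq_mul, Finset.card_univ, Fintype.card_perm, Fintype.card_fin]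
  rw [← h3, Finset.sum_congr rfl (fun σ _ => h2 σ), Finset.sum_comm]
  refine Finset.sum_congr rfl fun f _ => ?_
  rw [← Finset.mul_sum, ← Finset.sum_mul]
  congr 1
  rw [sq]
  congr 1
  rw [← Matrix.det_transpose, Matrix.det_apply']
  rfl

variable {ι : Type*} [Fintype ι] [DecidableEq ι]

lemma form_expand {P : V →ₗ[ℝ] V →ₗ[ℝ] ℝ} (e : Basis ι ℝ V) {s : ι → ℝ}
    (hP : ∀ i j, P (e i) (e j) = if i = j then s i else 0) (v w : V) :
    P v w = ∑ l, s l * e.repr v l * e.repr w l := by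
  conv_lhs => rw [← e.sum_repr v, ← e.sum_repr w]
  rw [map_sum]
  refine Finset.sum_congr rfl fun i _ => ?_
  rw [map_smul, map_sum, LinearMap.sum_apply, Finset.sum_eq_single i]
  · rw [map_smul, LinearMap.smul_apply, hP, if_pos rfl, smul_eq_mul, smul_eq_mul]; ring
  · intro j _ hj
    rw [map_smul, LinearMap.smul_apply, hP, if_neg hj, smul_zero]
  · intro h; exact absurd (Finset.mem_univ i) h

lemma gram_basis {k : ℕ} {P : V →ₗ[ℝ] V →ₗ[ℝ] ℝ} (e : Basis ι ℝ V) {s : ι → ℝ}
    (hP : ∀ i j, P (e i) (e j) = if i = j then s i else 0) (v : Fin k → V) :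
    (k.factorial : ℝ) * gram P v =
      ∑ f : Fin k → ι, (∏ i, s (f i)) *
        (Matrix.det (Matrix.of fun i j => e.repr (v i) (f j) : Matrix (Fin k) (Fin k) ℝ)) ^ 2 := by
  rw [← gram_expand s (fun i l => e.repr (v i) l)]
  unfold gram
  congr 3
  funext i j
  exact form_expand e hP _ _

lemma gram_pos {k : ℕ} {C : V →ₗ[ℝ] V →ₗ[ℝ] ℝ} [FiniteDimensional ℝ V] (hC : PD C) {v : Fin k → V}
    (hv : LinearIndependent ℝ v) : 0 < gram C v := by
  -- positive definiteness of the Gram matrix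
  have hM : (Matrix.of fun i j => C (v i) (v j) : Matrix (Fin k) (Fin k) ℝ).PosDef := by
    rw [Matrix.posDef_iff_dotProduct_mulVec]
    refine ⟨?_, fun x hx => ?_⟩
    · ext i j
      simp only [Matrix.conjTranspose_apply, Matrix.of_apply, star_trivial]
      exact hC.symm _ _
    · have e : dotProduct (star x) ((Matrix.of fun i j => C (v i) (v j)).mulVec x) =
          C (∑ i, x i • v i) (∑ i, x i • v i) := by
        rw [map_sum]
        unfold dotProduct
        refine Finset.sum_congr rfl fun i _ => ?_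
        rw [map_smul, map_sum, LinearMap.sum_apply, smul_eq_mul]
        simp only [Pi.star_apply, star_trivial, Matrix.mulVec, dotProduct, Matrix.of_apply]
        congr 1
        refine Finset.sum_congr rfl fun j _ => ?_
        rw [map_smul, LinearMap.smul_apply, smul_eq_mul, mul_comm, hC.symm]
      rw [e]
      apply hC.pos
      intro h0
      apply hx
      funext i
      exact Fintype.linearIndependent_iff.1 hv x h0 i
  exact hM.det_pos

lemma gram_smul {k : ℕ} (C : V →ₗ[ℝ] V →ₗ[ℝ] ℝ) (s : Fin k → ℝ) (v : Fin k → V) :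
    gram C (fun i => s i • v i) = (∏ i, s i) ^ 2 * gram C v := by
  unfold gram
  have e : (Matrix.of fun i j => C (s i • v i) (s j • v j) : Matrix (Fin k) (Fin k) ℝ) =
      Matrix.of fun i j => s i * (Matrix.of fun i j => s j * C (v i) (v j) : Matrix (Fin k) (Fin k) ℝ) i j := by
    ext i j
    simp only [Matrix.of_apply, map_smul, LinearMap.smul_apply, smul_eq_mul]
    ring
  rw [e, Matrix.det_mul_column, Matrix.det_mul_row, ← mul_assoc, ← sq]
  rfl

/-- `P` is the geometric mean of `A` and `B` -/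
structure IsMean (A B P : V →ₗ[ℝ] V →ₗ[ℝ] ℝ) : Prop where
  pd : PD P
  exists_op : ∃ T : V →ₗ[ℝ] V, (∀ v w, P v w = A (T v) w) ∧ (∀ v w, B v w = A (T v) (T w))

theorem exists_mean [FiniteDimensional ℝ V] {A B : V →ₗ[ℝ] V →ₗ[ℝ] ℝ} (hA : PD A) (hB : PD B) :
    ∃ P, IsMean A B P := by
  obtain ⟨n, e, b, hb, hAe, hBe⟩ := exists_diag hA hB
  let T : V →ₗ[ℝ] V := e.constr ℝ fun i => Real.sqrt (b i) • e i
  have hTe : ∀ i, T (e i) = Real.sqrt (b i) • e i := fun i => e.constr_basis ℝ _ i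
  let P : V →ₗ[ℝ] V →ₗ[ℝ] ℝ := A ∘ₗ T
  have hPe : ∀ i j, P (e i) (e j) = if i = j then Real.sqrt (b i) else 0 := by
    intro i j
    show A (T (e i)) (e j) = _
    rw [hTe, map_smul, LinearMap.smul_apply, hAe, smul_eq_mul]
    split_ifs <;> simp
  refine ⟨P, ⟨⟨fun v w => ?_, fun v hv => ?_⟩, T, fun v w => rfl, fun v w => ?_⟩⟩
  · rw [form_expand e hPe, form_expand e hPe]
    refine Finset.sum_congr rfl fun i _ => by ring
  · rw [form_expand e hPe]
    apply lt_of_le_of_ne (Finset.sum_nonneg fun i _ => by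
      have := Real.sqrt_nonneg (b i)
      rw [mul_assoc]
      exact mul_nonneg this (mul_self_nonneg _))
    intro h0
    apply hv
    apply e.repr.injective
    rw [map_zero]
    ext i
    have h1 := (Finset.sum_eq_zero_iff_of_nonneg (fun i _ => by
      have := Real.sqrt_nonneg (b i)
      rw [mul_assoc]
      exact mul_nonneg this (mul_self_nonneg _))).1 h0.symm i (Finset.mem_univ i)
    rw [mul_assoc] at h1
    rcases mul_eq_zero.1 h1 with h2 | h2
    · exact absurd h2 (Real.sqrt_pos.2 (hb i)).ne'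
    · simpa using h2
  · have hBe' : ∀ i j, (A.compl₁₂ T T) (e i) (e j) = if i = j then b i else 0 := by
      intro i j
      rw [LinearMap.compl₁₂_apply, hTe, hTe]
      simp only [map_smul, LinearMap.smul_apply, hAe, smul_eq_mul]
      split_ifs with h
      · rw [h, mul_one, Real.mul_self_sqrt (hb j).le]
      · simp
    have h1 := form_expand e hBe v w
    have h2 := form_expand e hBe' v w
    rw [LinearMap.compl₁₂_apply] at h2
    rw [h1, h2]

/-- the operator of the mean is symmetric -/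
lemma IsMean.op_symm {A B P : V →ₗ[ℝ] V →ₗ[ℝ] ℝ} (hA : PD A) (h : IsMean A B P) {T : V →ₗ[ℝ] V}
    (hT : ∀ v w, P v w = A (T v) w) (v w : V) : A (T v) w = A v (T w) := by
  rw [← hT, h.pd.symm, hT, hA.symm]

theorem IsMean.swap [FiniteDimensional ℝ V] {A B P : V →ₗ[ℝ] V →ₗ[ℝ] ℝ} (hA : PD A) (hB : PD B)
    (h : IsMean A B P) : IsMean B A P := by
  obtain ⟨T, hT, hB'⟩ := h.exists_op
  have hinj : Injective T := by
    rw [injective_iff_map_eq_zero]
    intro v hv
    by_contra hne
    have := hB.pos v hne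
    rw [hB', hv] at this
    simp at this
  let Te : V ≃ₗ[ℝ] V := LinearEquiv.ofInjectiveEndo T hinj
  have hTe : ∀ v, T (Te.symm v) = v := fun v => Te.apply_symm_apply v
  refine ⟨h.pd, Te.symm.toLinearMap, fun v w => ?_, fun v w => ?_⟩
  · show P v w = B (Te.symm v) w
    rw [hB', hTe, hT, IsMean.op_symm hA h hT]
  · show A v w = B (Te.symm v) (Te.symm w)
    rw [hB', hTe, hTe]

/-- Taking the mean halves the volume distance. -/
theorem mean_half [FiniteDimensional ℝ V] {A B C P Q : V →ₗ[ℝ] V →ₗ[ℝ] ℝ} (hA : PD A) (hC : PD C)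
    (hP : IsMean A B P) (hQ : IsMean A C Q) {κ : ℝ} (hκ : 0 ≤ κ) {k : ℕ}
    (h : ∀ v : Fin k → V, gram B v ≤ κ ^ 2 * gram C v) (v : Fin k → V) :
    gram P v ≤ κ * gram Q v := by
  obtain ⟨T, hT, hB'⟩ := hP.exists_op
  obtain ⟨U, hU, hC'⟩ := hQ.exists_op
  obtain ⟨n, e, s, hs, hQe, hPe⟩ := exists_diag hQ.pd hP.pd
  -- the operator relating the two means
  let S : V →ₗ[ℝ] V := e.constr ℝ fun i => s i • e i
  have hSe : ∀ i, S (e i) = s i • e i := fun i => e.constr_basis ℝ _ i
  have hS : ∀ v w, P v w = Q (S v) w := by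
    intro v w
    have h1 : ∀ i j, (Q ∘ₗ S) (e i) (e j) = if i = j then s i else 0 := by
      intro i j
      rw [LinearMap.comp_apply, hSe, map_smul, LinearMap.smul_apply, hQe, smul_eq_mul]
      split_ifs <;> simp
    rw [form_expand e hPe, ← form_expand e h1]
    rfl
  have hTU : ∀ v, T v = U (S v) := fun v => hA.nondeg fun w => by
    rw [← hT, hS, hU]
  have hBC : ∀ v w, B v w = C (S v) (S w) := fun v w => by
    rw [hB', hC', hTU, hTU]
  -- the products of eigenvalues
  have hprod : ∀ f : Fin k → Fin n, Injective f → ∏ i, s (f i) ≤ κ := by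
    intro f hf
    have h1 := h (e ∘ f)
    have h2 : gram B (e ∘ f) = (∏ i, s (f i)) ^ 2 * gram C (e ∘ f) := by
      rw [← gram_smul]
      unfold gram
      congr 2
      funext i j
      rw [hBC]
      simp only [comp_apply, hSe]
    rw [h2] at h1
    have h3 : 0 < gram C (e ∘ f) := gram_pos hC (e.linearIndependent.comp f hf)
    have h4 := le_of_mul_le_mul_right h1 h3
    have h5 : 0 ≤ ∏ i, s (f i) := Finset.prod_nonneg fun i _ => (hs _).le
    exact (sq_le_sq₀ h5 hκ).1 h4
  have hk : (0 : ℝ) < k.factorial := by exact_mod_cast k.factorial_pos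
  have h1 := gram_basis e hPe v
  have hQe' : ∀ i j, Q (e i) (e j) = if i = j then (fun _ => (1 : ℝ)) i else 0 := hQe
  have h2 := gram_basis e hQe' v
  have h3 : (k.factorial : ℝ) * gram P v ≤ κ * ((k.factorial : ℝ) * gram Q v) := by
    rw [h1, h2, Finset.mul_sum]
    refine Finset.sum_le_sum fun f _ => ?_
    simp only [Finset.prod_const_one, one_mul]
    by_cases hf : Injective f
    · exact mul_le_mul_of_nonneg_right (hprod f hf) (sq_nonneg _)
    · have hdet : Matrix.det (Matrix.of fun i j => e.repr (v i) (f j) : Matrix (Fin k) (Fin k) ℝ) = 0 := by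
        rw [Injective] at hf
        push Not at hf
        obtain ⟨a, b, hab, hne⟩ := hf
        apply Matrix.det_zero_of_column_eq hne
        intro i
        simp only [Matrix.of_apply, hab]
      rw [hdet]
      simp
  have h4 : (k.factorial : ℝ) * gram P v ≤ (k.factorial : ℝ) * (κ * gram Q v) := by
    calc _ ≤ _ := h3
      _ = _ := by ring
  exact le_of_mul_le_mul_left h4 hk

lemma gram_one (B : V →ₗ[ℝ] V →ₗ[ℝ] ℝ) (v : Fin 1 → V) : gram B v = B (v 0) (v 0) := by
  unfold gram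
  rw [Matrix.det_unique]
  rfl

theorem mean_half_one [FiniteDimensional ℝ V] {A B C P Q : V →ₗ[ℝ] V →ₗ[ℝ] ℝ} (hA : PD A) (hC : PD C)
    (hP : IsMean A B P) (hQ : IsMean A C Q) {κ : ℝ} (hκ : 0 ≤ κ)
    (h : ∀ v, B v v ≤ κ ^ 2 * C v v) (v : V) : P v v ≤ κ * Q v v := by
  have := mean_half hA hC hP hQ hκ (k := 1) (fun v => by rw [gram_one, gram_one]; exact h _)
    (fun _ => v)
  rwa [gram_one, gram_one] at this

lemma isMean_self {A : V →ₗ[ℝ] V →ₗ[ℝ] ℝ} (hA : PD A) : IsMean A A A :=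
  ⟨hA, LinearMap.id, fun _ _ => rfl, fun _ _ => rfl⟩

lemma form_ext {P Q : V →ₗ[ℝ] V →ₗ[ℝ] ℝ} (hP : PD P) (hQ : PD Q) (h : ∀ v, P v v = Q v v) : P = Q := by
  ext v w
  have h1 := h (v + w)
  simp only [map_add, LinearMap.add_apply] at h1
  have h2 := hP.symm w v
  have h3 := hQ.symm w v
  have h4 := h v
  have h5 := h w
  linarith

theorem IsMean.unique [FiniteDimensional ℝ V] {A B P Q : V →ₗ[ℝ] V →ₗ[ℝ] ℝ} (hA : PD A) (hB : PD B)
    (hP : IsMean A B P) (hQ : IsMean A B Q) : P = Q := by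
  apply form_ext hP.pd hQ.pd
  intro v
  apply le_antisymm
  · have := mean_half_one hA hB hP hQ zero_le_one (fun v => by rw [one_pow, one_mul]) v
    linarith
  · have := mean_half_one hA hB hQ hP zero_le_one (fun v => by rw [one_pow, one_mul]) v
    linarith

/-- monotonicity and homogeneity -/
theorem mean_mono [FiniteDimensional ℝ V] {A B C D P Q : V →ₗ[ℝ] V →ₗ[ℝ] ℝ} (hA : PD A) (hB : PD B)
    (hC : PD C) (hD : PD D)
    (hP : IsMean A B P) (hQ : IsMean C D Q) {κ : ℝ} (hκ : 0 ≤ κ)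
    (h1 : ∀ v, A v v ≤ κ * C v v) (h2 : ∀ v, B v v ≤ κ * D v v) (v : V) : P v v ≤ κ * Q v v := by
  obtain ⟨R, hR⟩ := exists_mean hA hD
  have hs : Real.sqrt κ ^ 2 = κ := Real.sq_sqrt hκ
  have hs0 := Real.sqrt_nonneg κ
  have e1 := mean_half_one hA hD hP hR hs0 (by rw [hs]; exact h2) v
  have e2 := mean_half_one hD hC (hR.swap hA hD) (hQ.swap hC hD) hs0 (by rw [hs]; exact h1) v
  calc P v v ≤ Real.sqrt κ * R v v := e1
    _ ≤ Real.sqrt κ * (Real.sqrt κ * Q v v) := by gcongr
    _ = Real.sqrt κ ^ 2 * Q v v := by ring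
    _ = κ * Q v v := by rw [hs]

/-- naturality -/
theorem IsMean.comap {W : Type*} [AddCommGroup W] [Module ℝ W] {A B P : V →ₗ[ℝ] V →ₗ[ℝ] ℝ}
    (h : IsMean A B P) (L : W ≃ₗ[ℝ] V) :
    IsMean (A.compl₁₂ (L : W →ₗ[ℝ] V) L) (B.compl₁₂ (L : W →ₗ[ℝ] V) L) (P.compl₁₂ (L : W →ₗ[ℝ] V) L) := by
  obtain ⟨T, hT, hB⟩ := h.exists_op
  refine ⟨⟨fun v w => ?_, fun v hv => ?_⟩, L.symm.toLinearMap ∘ₗ T ∘ₗ L.toLinearMap, fun v w => ?_,
    fun v w => ?_⟩
  · simp only [LinearMap.compl₁₂_apply]; exact h.pd.symm _ _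
  · simp only [LinearMap.compl₁₂_apply]
    exact h.pd.pos _ (by simpa using hv)
  · simp [LinearMap.compl₁₂_apply, hT]
  · simp [LinearMap.compl₁₂_apply, hB]

lemma PD.comap {W : Type*} [AddCommGroup W] [Module ℝ W] {A : V →ₗ[ℝ] V →ₗ[ℝ] ℝ} (h : PD A)
    {L : W →ₗ[ℝ] V} (hL : Injective L) : PD (A.compl₁₂ L L) := by
  refine ⟨fun v w => ?_, fun v hv => ?_⟩
  · simp only [LinearMap.compl₁₂_apply]; exact h.symm _ _
  · simp only [LinearMap.compl₁₂_apply]
    exact h.pos _ (by rw [Ne, map_eq_zero_iff L hL]; exact hv)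

end Pool.Agent.R191.Met
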