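import Pool.Agent.R191.Met.Split

/-!
# Families of inner products on tangent spaces
-/

set_option autoImplicit false
set_option linter.unusedSectionVars false

open Set Filter Topology Function Bundle Manifold
open scoped ContDiff

namespace Pool.Agent.R191.Met

variable {E : Type*} [NormedAddCommGroup E] [NormedSpace ℝ E] [FiniteDimensional ℝ E]
  {H : Type*} [TopologicalSpace H] {I : ModelWithCorners ℝ E H}
  {M : Type*} [TopologicalSpace M] [ChartedSpace H M] [IsManifold I ∞ M]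

omit [IsManifold I ∞ M] in
instance finDimTangent (x : M) : FiniteDimensional ℝ (TangentSpace I x) :=
  inferInstanceAs (FiniteDimensional ℝ E)

variable (I) in
/-- bilinear forms on a tangent space -/
abbrev Frm (x : M) := TangentSpace I x →ₗ[ℝ] TangentSpace I x →ₗ[ℝ] ℝ

variable (I) in
/-- the trivialisation of the tangent bundle at `x₀` -/
noncomputable def tau (x₀ x : M) : TangentSpace I x →L[ℝ] E :=
  (trivializationAt E (TangentSpace I : M → Type _) x₀).continuousLinearMapAt ℝ x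

variable (I) in
/-- the inverse of the trivialisation of the tangent bundle at `x₀` -/
noncomputable def taui (x₀ x : M) : E →L[ℝ] TangentSpace I x :=
  (trivializationAt E (TangentSpace I : M → Type _) x₀).symmL ℝ x

variable (I) in
/-- the domain of the trivialisation of the tangent bundle at `x₀` -/
def bs (x₀ : M) : Set M := (trivializationAt E (TangentSpace I : M → Type _) x₀).baseSet

lemma bs_open (x₀ : M) : IsOpen (bs I x₀) := (trivializationAt E (TangentSpace I : M → Type _) x₀).open_baseSet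
lemma mem_bs (x₀ : M) : x₀ ∈ bs I x₀ := FiberBundle.mem_baseSet_trivializationAt' x₀

lemma taui_tau {x₀ x : M} (h : x ∈ bs I x₀) (v : TangentSpace I x) :
    taui I x₀ x (tau I x₀ x v) = v :=
  (trivializationAt E (TangentSpace I : M → Type _) x₀).symmL_continuousLinearMapAt h v

lemma tau_taui {x₀ x : M} (h : x ∈ bs I x₀) (v : E) :
    tau I x₀ x (taui I x₀ x v) = v :=
  (trivializationAt E (TangentSpace I : M → Type _) x₀).continuousLinearMapAt_symmL h v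

/-- the trivialisation as a linear equivalence -/
noncomputable def tauE {x₀ x : M} (h : x ∈ bs I x₀) : TangentSpace I x ≃ₗ[ℝ] E :=
  LinearEquiv.ofLinearMap (tau I x₀ x : TangentSpace I x →ₗ[ℝ] E) (taui I x₀ x : E →ₗ[ℝ] TangentSpace I x)
    (by ext v; exact tau_taui h v) (by ext v; exact taui_tau h v)

lemma tauE_apply {x₀ x : M} (h : x ∈ bs I x₀) (v : TangentSpace I x) : tauE h v = tau I x₀ x v := rfl

/-- lower bound for a positive definite form -/
lemma PD.lower {B : E →ₗ[ℝ] E →ₗ[ℝ] ℝ} (hB : PD B) : ∃ c > 0, ∀ u, c * ‖u‖ ^ 2 ≤ B u u := by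
  have hc : Continuous fun u : E => B u u := by
    have : Continuous fun u : E => B.toContinuousBilinearMap u u := by fun_prop
    exact this
  by_cases hn : (Metric.sphere (0 : E) 1).Nonempty
  · obtain ⟨u₀, hu₀, hmin⟩ := (isCompact_sphere (0 : E) 1).exists_isMinOn hn hc.continuousOn
    have hu₁ : u₀ ≠ 0 := by
      rintro rfl
      simp at hu₀
    refine ⟨B u₀ u₀, hB.pos _ hu₁, fun u => ?_⟩
    by_cases hu : u = 0
    · rw [hu]; simp
    have hun : 0 < ‖u‖ := norm_pos_iff.2 hu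
    have h1 : ‖u‖⁻¹ • u ∈ Metric.sphere (0 : E) 1 := by
      rw [mem_sphere_zero_iff_norm, norm_smul, norm_inv, norm_norm, inv_mul_cancel₀ hun.ne']
    have h2 : B u₀ u₀ ≤ B (‖u‖⁻¹ • u) (‖u‖⁻¹ • u) := hmin h1
    simp only [map_smul, LinearMap.smul_apply, smul_eq_mul] at h2
    calc B u₀ u₀ * ‖u‖ ^ 2 ≤ (‖u‖⁻¹ * (‖u‖⁻¹ * B u u)) * ‖u‖ ^ 2 := by gcongr
      _ = B u u := by field_simp
  · refine ⟨1, one_pos, fun u => ?_⟩
    by_cases hu : u = 0
    · rw [hu]; simp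
    exfalso
    apply hn
    have hun : 0 < ‖u‖ := norm_pos_iff.2 hu
    refine ⟨‖u‖⁻¹ • u, ?_⟩
    rw [mem_sphere_zero_iff_norm, norm_smul, norm_inv, norm_norm, inv_mul_cancel₀ hun.ne']

/-- upper bound for a form -/
lemma form_upper (B : E →ₗ[ℝ] E →ₗ[ℝ] ℝ) : ∃ C : ℝ, 0 ≤ C ∧ ∀ u w, |B u w| ≤ C * ‖u‖ * ‖w‖ := by
  refine ⟨‖B.toContinuousBilinearMap‖, norm_nonneg B.toContinuousBilinearMap, fun u w => ?_⟩
  exact B.toContinuousBilinearMap.le_opNorm₂ u w

variable {N : Type*} [TopologicalSpace N]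

/-- Order continuity at `n₀` of a family of inner products along a map to the manifold. -/
def OC (S : Set N) (n₀ : N) (b : N → M) (ψ : ∀ n, Frm I (b n)) : Prop :=
  ∃ B : E →ₗ[ℝ] E →ₗ[ℝ] ℝ, PD B ∧ ∀ κ > 1, ∀ᶠ n in 𝓝[S] n₀, ∀ v : TangentSpace I (b n),
    B (tau I (b n₀) (b n) v) (tau I (b n₀) (b n) v) ≤ κ * ψ n v v ∧
    ψ n v v ≤ κ * B (tau I (b n₀) (b n) v) (tau I (b n₀) (b n) v)

/-- Coordinate continuity at `n₀` of a family of forms along a map to the manifold. -/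
def CC (S : Set N) (n₀ : N) (b : N → M) (ψ : ∀ n, Frm I (b n)) : Prop :=
  ∃ B : E →ₗ[ℝ] E →ₗ[ℝ] ℝ, (∀ u w, B u w = B w u) ∧ ∀ ε > 0, ∀ᶠ n in 𝓝[S] n₀,
    ∀ v : TangentSpace I (b n), |ψ n v v - B (tau I (b n₀) (b n) v) (tau I (b n₀) (b n) v)| ≤
      ε * ‖tau I (b n₀) (b n) v‖ ^ 2

variable {S : Set N} {n₀ : N} {b : N → M} {ψ ψ₁ ψ₂ : ∀ n, Frm I (b n)}

lemma OC.cc (h : OC S n₀ b ψ) : CC S n₀ b ψ := by
  obtain ⟨B, hB, h⟩ := h
  refine ⟨B, hB.symm, fun ε hε => ?_⟩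
  obtain ⟨C, hC0, hC⟩ := form_upper B
  set κ := 1 + ε / (C + 1) with hκ
  have hκ1 : 1 < κ := by
    have : 0 < ε / (C + 1) := by positivity
    linarith
  filter_upwards [h κ hκ1] with n hn v
  obtain ⟨h1, h2⟩ := hn v
  set t := tau I (b n₀) (b n) v
  have hb : B t t ≤ C * ‖t‖ ^ 2 := by
    have := (le_abs_self _).trans (hC t t)
    calc B t t ≤ C * ‖t‖ * ‖t‖ := this
      _ = _ := by ring
  have hb0 : 0 ≤ B t t := hB.nonneg t
  have hk : (κ - 1) * (C * ‖t‖ ^ 2) ≤ ε * ‖t‖ ^ 2 := by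
    have e : (κ - 1) * C ≤ ε := by
      rw [hκ, add_sub_cancel_left, div_mul_eq_mul_div, div_le_iff₀ (by linarith)]
      nlinarith
    calc (κ - 1) * (C * ‖t‖ ^ 2) = ((κ - 1) * C) * ‖t‖ ^ 2 := by ring
      _ ≤ ε * ‖t‖ ^ 2 := by gcongr
  have hk2 : (κ - 1) * B t t ≤ (κ - 1) * (C * ‖t‖ ^ 2) :=
    mul_le_mul_of_nonneg_left hb (by linarith)
  rw [abs_le]
  constructor
  · -- lower bound
    rcases le_total (ψ n v v) (B t t) with hle | hle
    · have : (κ - 1) * ψ n v v ≤ (κ - 1) * B t t := mul_le_mul_of_nonneg_left hle (by linarith)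
      nlinarith
    · have : 0 ≤ ε * ‖t‖ ^ 2 := by positivity
      linarith
  · nlinarith

/-- A coordinate continuous family of inner products is order continuous. -/
lemma CC.oc (h : CC S n₀ b ψ) (hn₀ : n₀ ∈ S) (hpd : PD (ψ n₀)) : OC S n₀ b ψ := by
  obtain ⟨B, hBs, h⟩ := h
  -- the limit form is the form at `n₀`
  have hB0 : ∀ v, ψ n₀ v v = B (tau I (b n₀) (b n₀) v) (tau I (b n₀) (b n₀) v) := by
    intro v
    have h1 : ∀ ε > 0, |ψ n₀ v v - B (tau I (b n₀) (b n₀) v) (tau I (b n₀) (b n₀) v)| ≤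
        ε * ‖tau I (b n₀) (b n₀) v‖ ^ 2 := fun ε hε => (h ε hε).self_of_nhdsWithin hn₀ v
    have h2 : |ψ n₀ v v - B (tau I (b n₀) (b n₀) v) (tau I (b n₀) (b n₀) v)| ≤ 0 := by
      apply le_of_forall_pos_le_add
      intro δ hδ
      have := h1 (δ / (‖tau I (b n₀) (b n₀) v‖ ^ 2 + 1)) (by positivity)
      refine this.trans ?_
      rw [zero_add, div_mul_eq_mul_div, div_le_iff₀ (by positivity)]
      nlinarith [sq_nonneg ‖tau I (b n₀) (b n₀) v‖]
    have h3 := abs_nonpos_iff.1 h2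
    linarith
  have hB : PD B := by
    refine ⟨hBs, fun u hu => ?_⟩
    have h1 := hB0 (taui I (b n₀) (b n₀) u)
    rw [tau_taui (mem_bs _)] at h1
    rw [← h1]
    apply hpd.pos
    intro h0
    apply hu
    rw [← tau_taui (I := I) (mem_bs (b n₀)) u, h0, map_zero]
  refine ⟨B, hB, fun κ hκ => ?_⟩
  obtain ⟨c, hc, hcB⟩ := hB.lower
  set ε := c * (1 - κ⁻¹) with hε
  have hκi : κ⁻¹ < 1 := inv_lt_one_of_one_lt₀ hκ
  have hκ0 : 0 < κ := by linarith
  have hε0 : 0 < ε := mul_pos hc (by linarith)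
  filter_upwards [h ε hε0] with n hn v
  have h1 := abs_le.1 (hn v)
  set t := tau I (b n₀) (b n) v
  have h2 := hcB t
  have h3 : ε * ‖t‖ ^ 2 ≤ (1 - κ⁻¹) * B t t := by
    calc ε * ‖t‖ ^ 2 = (1 - κ⁻¹) * (c * ‖t‖ ^ 2) := by rw [hε]; ring
      _ ≤ (1 - κ⁻¹) * B t t := mul_le_mul_of_nonneg_left h2 (by linarith)
  have h4 : 0 ≤ B t t := hB.nonneg t
  constructor
  · have h5 : κ⁻¹ * B t t ≤ ψ n v v := by nlinarith [h1.1]
    calc B t t = κ * (κ⁻¹ * B t t) := by field_simp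
      _ ≤ κ * ψ n v v := by gcongr
  · have h5 : ψ n v v ≤ (2 - κ⁻¹) * B t t := by nlinarith [h1.2]
    have h6 : 2 - κ⁻¹ ≤ κ := by
      have : 0 ≤ (κ - 1) ^ 2 / κ := by positivity
      have e : (κ - 1) ^ 2 / κ = κ - 2 + κ⁻¹ := by field_simp; ring
      linarith
    calc ψ n v v ≤ (2 - κ⁻¹) * B t t := h5
      _ ≤ κ * B t t := by gcongr

lemma CC.add (h₁ : CC S n₀ b ψ₁) (h₂ : CC S n₀ b ψ₂) : CC S n₀ b (fun n => ψ₁ n + ψ₂ n) := by
  obtain ⟨B₁, hs₁, h₁⟩ := h₁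
  obtain ⟨B₂, hs₂, h₂⟩ := h₂
  refine ⟨B₁ + B₂, fun u w => ?_, fun ε hε => ?_⟩
  · rw [LinearMap.add_apply, LinearMap.add_apply, LinearMap.add_apply, LinearMap.add_apply, hs₁, hs₂]
  · filter_upwards [h₁ (ε / 2) (by linarith), h₂ (ε / 2) (by linarith)] with n hn₁ hn₂ v
    have e1 := abs_le.1 (hn₁ v)
    have e2 := abs_le.1 (hn₂ v)
    rw [abs_le]
    simp only [LinearMap.add_apply]
    constructor <;> linarith [e1.1, e1.2, e2.1, e2.2]

/-- Means of order continuous families are order continuous. -/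
lemma OC.mean (hb : ContinuousWithinAt b S n₀) (h₁ : OC S n₀ b ψ₁) (h₂ : OC S n₀ b ψ₂)
    (hp₁ : ∀ n ∈ S, PD (ψ₁ n)) (hp₂ : ∀ n ∈ S, PD (ψ₂ n)) :
    OC S n₀ b (fun n => Met.mean (ψ₁ n) (ψ₂ n)) := by
  obtain ⟨B₁, hB₁, h₁⟩ := h₁
  obtain ⟨B₂, hB₂, h₂⟩ := h₂
  have hB := mean_spec hB₁ hB₂
  refine ⟨Met.mean B₁ B₂, hB.pd, fun κ hκ => ?_⟩
  have hbs : ∀ᶠ n in 𝓝[S] n₀, b n ∈ bs I (b n₀) :=
    hb.eventually ((bs_open (b n₀)).mem_nhds (mem_bs _))
  filter_upwards [h₁ κ hκ, h₂ κ hκ, hbs, self_mem_nhdsWithin] with n hn₁ hn₂ hnb hnS v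
  have hnat := hB.comap (tauE hnb)
  have hm := mean_spec (hp₁ n hnS) (hp₂ n hnS)
  have p₁ : PD (B₁.compl₁₂ (tauE hnb : TangentSpace I (b n) →ₗ[ℝ] E) (tauE hnb)) :=
    hB₁.comap (tauE hnb).injective
  have p₂ : PD (B₂.compl₁₂ (tauE hnb : TangentSpace I (b n) →ₗ[ℝ] E) (tauE hnb)) :=
    hB₂.comap (tauE hnb).injective
  have hκ0 : 0 ≤ κ := by linarith
  constructor
  · exact mean_mono p₁ p₂ (hp₁ n hnS) (hp₂ n hnS) hnat hm hκ0
      (fun w => (hn₁ w).1) (fun w => (hn₂ w).1) v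
  · exact mean_mono (hp₁ n hnS) (hp₂ n hnS) p₁ p₂ hm hnat hκ0
      (fun w => (hn₁ w).2) (fun w => (hn₂ w).2) v

lemma inTan_apply {b c : N → M} {D : ∀ n, TangentSpace I (b n) →L[ℝ] TangentSpace I (c n)} {n₀ n : N}
    (hn : b n ∈ bs I (b n₀)) (v : TangentSpace I (b n)) :
    inTangentCoordinates I I b c D n₀ n (tau I (b n₀) (b n) v) = tau I (c n₀) (c n) (D n v) := by
  show tau I (c n₀) (c n) (D n (taui I (b n₀) (b n) (tau I (b n₀) (b n) v))) = _
  rw [taui_tau hn]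

/-- Pullbacks of coordinate continuous families are coordinate continuous. -/
lemma CC.pull {c : N → M} {D : ∀ n, TangentSpace I (b n) →L[ℝ] TangentSpace I (c n)}
    (hb : ContinuousWithinAt b S n₀)
    (hD : ContinuousWithinAt (inTangentCoordinates I I b c D n₀) S n₀)
    {φ : ∀ n, Frm I (c n)} (hφ : CC S n₀ c φ) :
    CC S n₀ b (fun n => (φ n).compl₁₂ (D n : TangentSpace I (b n) →ₗ[ℝ] TangentSpace I (c n)) (D n)) := by
  obtain ⟨B, hBs, h⟩ := hφ
  set A : N → E →L[ℝ] E := inTangentCoordinates I I b c D n₀ with hA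
  refine ⟨B.compl₁₂ (A n₀ : E →ₗ[ℝ] E) (A n₀), fun u w => ?_, fun ε hε => ?_⟩
  · rw [LinearMap.compl₁₂_apply, LinearMap.compl₁₂_apply, hBs]
  obtain ⟨C, hC0, hC⟩ := form_upper B
  set K := ‖A n₀‖ + 1 with hK
  have hK0 : 0 < K := by positivity
  set δ := min 1 (ε / (2 * (2 * C * K + 1))) with hδ
  have hδ0 : 0 < δ := by positivity
  have hbs : ∀ᶠ n in 𝓝[S] n₀, b n ∈ bs I (b n₀) :=
    hb.eventually ((bs_open (b n₀)).mem_nhds (mem_bs _))
  have hDc : ∀ᶠ n in 𝓝[S] n₀, ‖A n - A n₀‖ < δ := by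
    have := hD.eventually (Metric.ball_mem_nhds (A n₀) hδ0)
    filter_upwards [this] with n hn
    rwa [← dist_eq_norm]
  filter_upwards [h (ε / (2 * K ^ 2)) (by positivity), hbs, hDc] with n hn hnb hnD v
  set t := tau I (b n₀) (b n) v with ht
  have e1 : tau I (c n₀) (c n) (D n v) = A n t := (inTan_apply hnb v).symm
  have h1 := hn (D n v)
  rw [e1] at h1
  have hAn : ‖A n‖ ≤ K := by
    have : ‖A n‖ ≤ ‖A n₀‖ + ‖A n - A n₀‖ := by
      have := norm_add_le (A n₀) (A n - A n₀)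
      rwa [add_sub_cancel] at this
    have hδ1 : δ ≤ 1 := min_le_left _ _
    rw [hK]; linarith
  have hAt : ‖A n t‖ ≤ K * ‖t‖ := ((A n).le_opNorm t).trans (by gcongr)
  have hA0t : ‖A n₀ t‖ ≤ K * ‖t‖ := ((A n₀).le_opNorm t).trans (by gcongr; rw [hK]; linarith)
  have h2 : ε / (2 * K ^ 2) * ‖A n t‖ ^ 2 ≤ ε / 2 * ‖t‖ ^ 2 := by
    calc ε / (2 * K ^ 2) * ‖A n t‖ ^ 2 ≤ ε / (2 * K ^ 2) * (K * ‖t‖) ^ 2 := by gcongr
      _ = ε / 2 * ‖t‖ ^ 2 := by field_simp
  -- comparison of the two model forms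
  have h3 : |B (A n t) (A n t) - B (A n₀ t) (A n₀ t)| ≤ ε / 2 * ‖t‖ ^ 2 := by
    have e : B (A n t) (A n t) - B (A n₀ t) (A n₀ t) =
        B ((A n - A n₀) t) (A n t) + B (A n₀ t) ((A n - A n₀) t) := by
      simp only [ContinuousLinearMap.sub_apply, map_sub, LinearMap.sub_apply]
      ring
    rw [e]
    have hd : ‖(A n - A n₀) t‖ ≤ δ * ‖t‖ := ((A n - A n₀).le_opNorm t).trans (by gcongr)
    calc |B ((A n - A n₀) t) (A n t) + B (A n₀ t) ((A n - A n₀) t)|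
        ≤ |B ((A n - A n₀) t) (A n t)| + |B (A n₀ t) ((A n - A n₀) t)| := abs_add_le _ _
      _ ≤ C * ‖(A n - A n₀) t‖ * ‖A n t‖ + C * ‖A n₀ t‖ * ‖(A n - A n₀) t‖ :=
          add_le_add (hC _ _) (hC _ _)
      _ ≤ C * (δ * ‖t‖) * (K * ‖t‖) + C * (K * ‖t‖) * (δ * ‖t‖) := by gcongr
      _ = (2 * C * K) * δ * ‖t‖ ^ 2 := by ring
      _ ≤ (2 * C * K + 1) * (ε / (2 * (2 * C * K + 1))) * ‖t‖ ^ 2 := by
          have : δ ≤ ε / (2 * (2 * C * K + 1)) := min_le_right _ _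
          gcongr
          linarith
      _ = ε / 2 * ‖t‖ ^ 2 := by field_simp
  have h4 : ((φ n).compl₁₂ (D n : TangentSpace I (b n) →ₗ[ℝ] TangentSpace I (c n)) (D n)) v v =
      φ n (D n v) (D n v) := rfl
  have h5 : (B.compl₁₂ (A n₀ : E →ₗ[ℝ] E) (A n₀)) t t = B (A n₀ t) (A n₀ t) := rfl
  rw [h4, h5]
  have := abs_le.1 h1
  have := abs_le.1 h3
  rw [abs_le]
  constructor <;> linarith [(abs_le.1 h1).1, (abs_le.1 h1).2, (abs_le.1 h3).1, (abs_le.1 h3).2]

/-- A family over the manifold which is coordinate continuous is coordinate continuous along a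
continuous map. -/
lemma CC.comp {c : N → M} {Λ : Set M} (hc : ContinuousWithinAt c S n₀) (hmaps : MapsTo c S Λ)
    {φ : ∀ x, Frm I x} (hφ : CC Λ (c n₀) id φ) : CC S n₀ c (fun n => φ (c n)) := by
  obtain ⟨B, hBs, h⟩ := hφ
  refine ⟨B, hBs, fun ε hε => ?_⟩
  have ht : Tendsto c (𝓝[S] n₀) (𝓝[Λ] (c n₀)) :=
    tendsto_nhdsWithin_of_tendsto_nhds_of_eventually_within _ hc
      (eventually_nhdsWithin_of_forall hmaps)
  exact ht.eventually (h ε hε)

/-- the bilinear form of a smooth metric -/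
noncomputable def lf (g : ContMDiffRiemannianMetric I ∞ E (fun x : M => TangentSpace I x)) (x : M) :
    Frm I x :=
  LinearMap.mk₂ ℝ (fun v w => g.inner x v w) (fun v v' w => by simp) (fun c v w => by simp)
    (fun v w w' => by simp) (fun c v w => by simp)

lemma lf_apply (g : ContMDiffRiemannianMetric I ∞ E (fun x : M => TangentSpace I x)) (x : M)
    (v w : TangentSpace I x) : lf g x v w = g.inner x v w := rfl

lemma lf_pd (g : ContMDiffRiemannianMetric I ∞ E (fun x : M => TangentSpace I x)) (x : M) :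
    PD (lf g x) := ⟨g.symm x, g.pos x⟩

lemma cc_metric (g : ContMDiffRiemannianMetric I ∞ E (fun x : M => TangentSpace I x)) (Λ : Set M)
    (x₀ : M) : CC Λ x₀ id (lf g) := by
  let g' : M → E →L[ℝ] E →L[ℝ] ℝ := fun y ↦
    ContinuousLinearMap.inCoordinates E (TangentSpace I : M → Type _) (E →L[ℝ] ℝ)
      (fun x ↦ TangentSpace I x →L[ℝ] ℝ) x₀ y x₀ y (g.inner y)
  have hg' : ContinuousAt g' x₀ := by
    have W := g.contMDiff.continuous.continuousAt (x := x₀)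
    simp only [continuousAt_hom_bundle] at W
    exact W.2
  have hval : ∀ y ∈ bs I x₀, ∀ v : TangentSpace I y, g.inner y v v = g' y (tau I x₀ y v) (tau I x₀ y v) := by
    intro y hy v
    rw [inCoordinates_apply_eq₂ hy hy (Set.mem_univ _)]
    have e : (trivializationAt E (TangentSpace I : M → Type _) x₀).symm y (tau I x₀ y v) = v := by
      rw [← Trivialization.symmL_apply (R := ℝ)]
      · exact taui_tau hy v
      · exact hy
    rw [e]
    simp
  refine ⟨(LinearMap.mk₂ ℝ (fun v w => g' x₀ v w) (fun v v' w => by simp) (fun c v w => by simp)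
    (fun v w w' => by simp) (fun c v w => by simp)), fun u w => ?_, fun ε hε => ?_⟩
  · show g' x₀ u w = g' x₀ w u
    rw [inCoordinates_apply_eq₂ (mem_bs x₀) (mem_bs x₀) (Set.mem_univ _),
      inCoordinates_apply_eq₂ (mem_bs x₀) (mem_bs x₀) (Set.mem_univ _)]
    rw [g.symm]
  · apply mem_nhdsWithin_of_mem_nhds
    have h1 : ∀ᶠ y in 𝓝 x₀, ‖g' y - g' x₀‖ < ε := by
      have := hg'.eventually (Metric.ball_mem_nhds (g' x₀) hε)
      filter_upwards [this] with y hy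
      have hy' : dist (g' y) (g' x₀) < ε := hy
      rw [dist_eq_norm (g' y) (g' x₀)] at hy'
      exact hy'
    filter_upwards [h1, (bs_open (I := I) x₀).mem_nhds (mem_bs (I := I) x₀)] with y hy hyb v
    show |g.inner y v v - g' x₀ (tau I x₀ y v) (tau I x₀ y v)| ≤ ε * ‖tau I x₀ y v‖ ^ 2
    rw [hval y hyb v]
    set t := tau I x₀ y v
    have h2 := (g' y - g' x₀).le_opNorm₂ t t
    rw [ContinuousLinearMap.sub_apply, ContinuousLinearMap.sub_apply, Real.norm_eq_abs] at h2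
    calc |g' y t t - g' x₀ t t| ≤ ‖g' y - g' x₀‖ * ‖t‖ * ‖t‖ := h2
      _ ≤ ε * ‖t‖ * ‖t‖ := by gcongr
      _ = ε * ‖t‖ ^ 2 := by ring

end Pool.Agent.R191.Met
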