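import Pool.Agent.R191.Met.Disc

/-!
# More on families of inner products
-/

set_option autoImplicit false
set_option linter.unusedSectionVars false

open Set Filter Topology Function Bundle Manifold
open scoped ContDiff

namespace Pool.Agent.R191.Met

variable {E : Type*} [NormedAddCommGroup E] [NormedSpace ℝ E] [FiniteDimensional ℝ E]
  {H : Type*} [TopologicalSpace H] {I : ModelWithCorners ℝ E H}
  {M : Type*} [TopologicalSpace M] [ChartedSpace H M] [IsManifold I ∞ M]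
  {N : Type*} [TopologicalSpace N]
  {S : Set N} {n₀ : N} {b : N → M} {ψ ψ₁ ψ₂ : ∀ n, Frm I (b n)}

/-- the value of a coordinate continuous family at the point itself -/
lemma cc_value {B : E →ₗ[ℝ] E →ₗ[ℝ] ℝ} (h : ∀ ε > 0, ∀ᶠ n in 𝓝[S] n₀,
    ∀ v : TangentSpace I (b n), |ψ n v v - B (tau I (b n₀) (b n) v) (tau I (b n₀) (b n) v)| ≤
      ε * ‖tau I (b n₀) (b n) v‖ ^ 2) (hn₀ : n₀ ∈ S) (v : TangentSpace I (b n₀)) :
    ψ n₀ v v = B (tau I (b n₀) (b n₀) v) (tau I (b n₀) (b n₀) v) := by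
  have h1 : ∀ ε > 0, |ψ n₀ v v - B (tau I (b n₀) (b n₀) v) (tau I (b n₀) (b n₀) v)| ≤
      ε * ‖tau I (b n₀) (b n₀) v‖ ^ 2 := fun ε hε => (h ε hε).self_of_nhdsWithin hn₀ v
  have h2 : |ψ n₀ v v - B (tau I (b n₀) (b n₀) v) (tau I (b n₀) (b n₀) v)| ≤ 0 := by
    apply le_of_forall_pos_le_add
    intro δ hδ
    have := h1 (δ / (‖tau I (b n₀) (b n₀) v‖ ^ 2 + 1)) (by positivity)
    refine this.trans ?_
    rw [zero_add, div_mul_eq_mul_div, div_le_iff₀ (by positivity)]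
    nlinarith [sq_nonneg ‖tau I (b n₀) (b n₀) v‖]
  have h3 := abs_nonpos_iff.1 h2
  linarith

/-- the model form of an order continuous family -/
lemma oc_value {B : E →ₗ[ℝ] E →ₗ[ℝ] ℝ} (h : ∀ κ > 1, ∀ᶠ n in 𝓝[S] n₀, ∀ v : TangentSpace I (b n),
    B (tau I (b n₀) (b n) v) (tau I (b n₀) (b n) v) ≤ κ * ψ n v v ∧
    ψ n v v ≤ κ * B (tau I (b n₀) (b n) v) (tau I (b n₀) (b n) v)) (hn₀ : n₀ ∈ S)
    (v : TangentSpace I (b n₀)) :
    B (tau I (b n₀) (b n₀) v) (tau I (b n₀) (b n₀) v) = ψ n₀ v v := by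
  have h1 : ∀ κ > 1, B (tau I (b n₀) (b n₀) v) (tau I (b n₀) (b n₀) v) ≤ κ * ψ n₀ v v ∧
      ψ n₀ v v ≤ κ * B (tau I (b n₀) (b n₀) v) (tau I (b n₀) (b n₀) v) :=
    fun κ hκ => (h κ hκ).self_of_nhdsWithin hn₀ v
  have lim : ∀ x y : ℝ, (∀ κ > 1, x ≤ κ * y) → x ≤ y := by
    intro x y hxy
    have ht : Tendsto (fun κ : ℝ => κ * y) (𝓝[>] 1) (𝓝 (1 * y)) :=
      (tendsto_id.mul_const y).mono_left nhdsWithin_le_nhds
    rw [one_mul] at ht
    exact ge_of_tendsto ht (eventually_nhdsWithin_of_forall fun κ hκ => hxy κ hκ)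
  exact le_antisymm (lim _ _ fun κ hκ => (h1 κ hκ).1) (lim _ _ fun κ hκ => (h1 κ hκ).2)

lemma OC.mono {S' : Set N} (hS : S' ⊆ S) (h : OC S n₀ b ψ) : OC S' n₀ b ψ := by
  obtain ⟨B, hB, h⟩ := h
  exact ⟨B, hB, fun κ hκ => (h κ hκ).filter_mono (nhdsWithin_mono _ hS)⟩

lemma form_ratio {B₁ B₂ : E →ₗ[ℝ] E →ₗ[ℝ] ℝ} (h₂ : PD B₂) : ∃ C : ℝ, 0 < C ∧ ∀ u, B₁ u u ≤ C * B₂ u u := by
  obtain ⟨C₁, hC0, hC₁⟩ := form_upper B₁
  obtain ⟨c, hc, hcB⟩ := h₂.lower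
  refine ⟨(C₁ + 1) / c, by positivity, fun u => ?_⟩
  have h1 := (le_abs_self _).trans (hC₁ u u)
  have h2 := hcB u
  calc B₁ u u ≤ C₁ * ‖u‖ * ‖u‖ := h1
    _ ≤ (C₁ + 1) * ‖u‖ * ‖u‖ := by gcongr; linarith
    _ = (C₁ + 1) / c * (c * ‖u‖ ^ 2) := by field_simp
    _ ≤ (C₁ + 1) / c * B₂ u u := by gcongr

/-- On a compact set the ratio of two order continuous families is bounded. -/
lemma ratio_bdd {K : Set N} (hK : IsCompact K) (h₁ : ∀ n ∈ K, OC K n b ψ₁) (h₂ : ∀ n ∈ K, OC K n b ψ₂)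
    (hp₁ : ∀ n ∈ K, PD (ψ₁ n)) (hp₂ : ∀ n ∈ K, PD (ψ₂ n)) :
    ∃ C : ℝ, 1 ≤ C ∧ ∀ n ∈ K, ∀ v, ψ₁ n v v ≤ C * ψ₂ n v v := by
  have key : ∃ C : ℝ, 1 ≤ C ∧ ∀ n ∈ K, n ∈ K → ∀ v, ψ₁ n v v ≤ C * ψ₂ n v v := by
    refine hK.induction_on (p := fun s => ∃ C : ℝ, 1 ≤ C ∧ ∀ n ∈ s, n ∈ K → ∀ v, ψ₁ n v v ≤ C * ψ₂ n v v)
      ⟨1, le_rfl, fun n hn => absurd hn (notMem_empty n)⟩ ?_ ?_ ?_
    · rintro s t hst ⟨C, hC, h⟩
      exact ⟨C, hC, fun n hn => h n (hst hn)⟩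
    · rintro s t ⟨C, hC, h⟩ ⟨C', hC', h'⟩
      refine ⟨max C C', le_max_of_le_left hC, fun n hn hnK v => ?_⟩
      have h0 := (hp₂ n hnK).nonneg v
      rcases hn with hn | hn
      · exact (h n hn hnK v).trans (mul_le_mul_of_nonneg_right (le_max_left _ _) h0)
      · exact (h' n hn hnK v).trans (mul_le_mul_of_nonneg_right (le_max_right _ _) h0)
    · intro n hn
      obtain ⟨B₁, hB₁, e₁⟩ := h₁ n hn
      obtain ⟨B₂, hB₂, e₂⟩ := h₂ n hn
      obtain ⟨C, hC, hCB⟩ := form_ratio (B₁ := B₁) hB₂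
      refine ⟨_, (e₁ 2 one_lt_two).and (e₂ 2 one_lt_two), max 1 (4 * C), le_max_left _ _, ?_⟩
      rintro m ⟨hm₁, hm₂⟩ hmK v
      have a1 := (hm₁ v).2
      have a2 := hCB (tau I (b n) (b m) v)
      have a3 := (hm₂ v).1
      have h0 := (hp₂ m hmK).nonneg v
      calc ψ₁ m v v ≤ 2 * B₁ (tau I (b n) (b m) v) (tau I (b n) (b m) v) := a1
        _ ≤ 2 * (C * B₂ (tau I (b n) (b m) v) (tau I (b n) (b m) v)) := by gcongr
        _ ≤ 2 * (C * (2 * ψ₂ m v v)) := by gcongr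
        _ = 4 * C * ψ₂ m v v := by ring
        _ ≤ max 1 (4 * C) * ψ₂ m v v := mul_le_mul_of_nonneg_right (le_max_right _ _) h0
  obtain ⟨C, hC, h⟩ := key
  exact ⟨C, hC, fun n hn => h n hn hn⟩

/-- Families which are arbitrarily close to order continuous families are order continuous. -/
lemma OC.limit (hn₀ : n₀ ∈ S) (hpd : PD (ψ n₀))
    (h : ∀ κ : ℝ, 1 < κ → ∃ χ : ∀ n, Frm I (b n), OC S n₀ b χ ∧
      ∀ n ∈ S, ∀ v, ψ n v v ≤ κ * χ n v v ∧ χ n v v ≤ κ * ψ n v v) : OC S n₀ b ψ := by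
  set B : E →ₗ[ℝ] E →ₗ[ℝ] ℝ := (ψ n₀).compl₁₂ (taui I (b n₀) (b n₀) : E →ₗ[ℝ] TangentSpace I (b n₀))
    (taui I (b n₀) (b n₀)) with hB
  have hBv : ∀ v, B (tau I (b n₀) (b n₀) v) (tau I (b n₀) (b n₀) v) = ψ n₀ v v := by
    intro v
    show ψ n₀ (taui I (b n₀) (b n₀) (tau I (b n₀) (b n₀) v))
      (taui I (b n₀) (b n₀) (tau I (b n₀) (b n₀) v)) = _
    rw [taui_tau (mem_bs _)]
  refine ⟨B, hpd.comap ?_, fun κ hκ => ?_⟩
  · intro u w huw
    have := congrArg (tau I (b n₀) (b n₀)) huw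
    have e : ∀ u : E, tau I (b n₀) (b n₀) (taui I (b n₀) (b n₀) u) = u := tau_taui (mem_bs _)
    have e1 := e u
    have e2 := e w
    have h3 : tau I (b n₀) (b n₀) (taui I (b n₀) (b n₀) u) =
      tau I (b n₀) (b n₀) (taui I (b n₀) (b n₀) w) := this
    rw [e1, e2] at h3
    exact h3
  · -- a cube root of `κ`
    obtain ⟨r, hr1, hr3⟩ : ∃ r : ℝ, 1 < r ∧ r ^ 3 ≤ κ := by
      have hcont : Continuous fun r : ℝ => r ^ 3 := by fun_prop
      have h1 : ∀ᶠ r in 𝓝 (1 : ℝ), r ^ 3 < κ :=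
        (hcont.tendsto 1).eventually_lt_const (by rw [one_pow]; exact hκ)
      have h2 : ∀ᶠ r in 𝓝[>] (1 : ℝ), r ^ 3 < κ := mem_nhdsWithin_of_mem_nhds h1
      obtain ⟨r, hr⟩ := (h2.and self_mem_nhdsWithin).exists
      exact ⟨r, hr.2, hr.1.le⟩
    have hr0 : 0 < r := by linarith
    obtain ⟨χ, ⟨C, hC, hχ⟩, hcl⟩ := h r hr1
    have hCv := oc_value hχ hn₀
    filter_upwards [hχ r hr1, self_mem_nhdsWithin] with n hn hnS v
    set t := tau I (b n₀) (b n) v with ht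
    -- compare the model forms
    have ht2 : tau I (b n₀) (b n₀) (taui I (b n₀) (b n₀) t) = t := tau_taui (mem_bs _) t
    have c1 := hcl n₀ hn₀ (taui I (b n₀) (b n₀) t)
    rw [← hCv, ← hBv, ht2] at c1
    have c2 := hn v
    have c3 := hcl n hnS v
    have hψ0 : 0 ≤ B t t := by
      rw [← ht2, hBv]
      exact hpd.nonneg _
    constructor
    · calc B t t ≤ r * C t t := c1.1
        _ ≤ r * (r * χ n v v) := by gcongr; exact c2.1
        _ ≤ r * (r * (r * ψ n v v)) := by gcongr; exact c3.2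
        _ = r ^ 3 * ψ n v v := by ring
        _ ≤ κ * ψ n v v := by
          have hn0 : 0 ≤ ψ n v v := by
            have : 0 ≤ r ^ 3 * ψ n v v := by
              calc (0 : ℝ) ≤ B t t := hψ0
                _ ≤ r * C t t := c1.1
                _ ≤ r * (r * χ n v v) := by gcongr; exact c2.1
                _ ≤ r * (r * (r * ψ n v v)) := by gcongr; exact c3.2
                _ = _ := by ring
            exact nonneg_of_mul_nonneg_right this (by positivity)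
          gcongr
    · calc ψ n v v ≤ r * χ n v v := c3.1
        _ ≤ r * (r * C t t) := by gcongr; exact c2.2
        _ ≤ r * (r * (r * B t t)) := by gcongr; exact c1.2
        _ = r ^ 3 * B t t := by ring
        _ ≤ κ * B t t := by gcongr

end Pool.Agent.R191.Met
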