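import Pool.Agent.R191.Met.Lin

/-!
# Geometric means and invariant splittings
-/

set_option autoImplicit false

open Finset Function
open Module (Basis finrank)

namespace Pool.Agent.R191.Met

variable {V : Type*} [AddCommGroup V] [Module ℝ V]

/-- the two subspaces are orthogonal for the form -/
def Orth (E F : Submodule ℝ V) (B : V →ₗ[ℝ] V →ₗ[ℝ] ℝ) : Prop := ∀ v ∈ E, ∀ w ∈ F, B v w = 0

variable {E F : Submodule ℝ V}

lemma exists_decomp (h : IsCompl E F) (v : V) : ∃ e ∈ E, ∃ f ∈ F, e + f = v := by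
  have : v ∈ E ⊔ F := by rw [h.sup_eq_top]; trivial
  exact Submodule.mem_sup.1 this

lemma mem_right_of_orth (h : IsCompl E F) {A : V →ₗ[ℝ] V →ₗ[ℝ] ℝ} (hA : PD A) (ho : Orth E F A) {u : V}
    (hu : ∀ w ∈ E, A u w = 0) : u ∈ F := by
  obtain ⟨e, he, f, hf, rfl⟩ := exists_decomp h u
  have h1 := hu e he
  rw [map_add, LinearMap.add_apply, hA.symm f e, ho e he f hf, add_zero] at h1
  by_cases he0 : e = 0
  · rw [he0, zero_add]; exact hf
  · exact absurd h1 (hA.pos e he0).ne'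

lemma mem_left_of_orth (h : IsCompl E F) {A : V →ₗ[ℝ] V →ₗ[ℝ] ℝ} (hA : PD A) (ho : Orth E F A) {u : V}
    (hu : ∀ w ∈ F, A u w = 0) : u ∈ E := by
  obtain ⟨e, he, f, hf, rfl⟩ := exists_decomp h u
  have h1 := hu f hf
  rw [map_add, LinearMap.add_apply, ho e he f hf, zero_add] at h1
  by_cases hf0 : f = 0
  · rw [hf0, add_zero]; exact he
  · exact absurd h1 (hA.pos f hf0).ne'

/-- the involution which is `-1` on `E` and `1` on `F` -/
noncomputable def invo (h : IsCompl E F) : V →ₗ[ℝ] V :=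
  LinearMap.id - (2 : ℝ) • E.projection F h

lemma invo_left (h : IsCompl E F) {v : V} (hv : v ∈ E) : invo h v = -v := by
  unfold invo
  rw [LinearMap.sub_apply, LinearMap.smul_apply, Submodule.projection_apply_of_mem_left h hv,
    LinearMap.id_apply, two_smul]
  abel

lemma invo_right (h : IsCompl E F) {v : V} (hv : v ∈ F) : invo h v = v := by
  unfold invo
  rw [LinearMap.sub_apply, LinearMap.smul_apply, Submodule.projection_apply_of_mem_right h hv,
    LinearMap.id_apply, smul_zero, sub_zero]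

lemma invo_invo (h : IsCompl E F) (v : V) : invo h (invo h v) = v := by
  obtain ⟨e, he, f, hf, rfl⟩ := exists_decomp h v
  rw [map_add, invo_left h he, invo_right h hf, map_add, map_neg, invo_left h he, invo_right h hf,
    neg_neg]

/-- the involution as an equivalence -/
noncomputable def invoE (h : IsCompl E F) : V ≃ₗ[ℝ] V :=
  LinearEquiv.ofInvolutive (invo h) (invo_invo h)

lemma invoE_apply (h : IsCompl E F) (v : V) : invoE h v = invo h v := rfl

lemma comp_invo (h : IsCompl E F) {A : V →ₗ[ℝ] V →ₗ[ℝ] ℝ} (hA : PD A) (ho : Orth E F A) :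
    A.compl₁₂ (invoE h : V →ₗ[ℝ] V) (invoE h : V →ₗ[ℝ] V) = A := by
  ext v w
  rw [LinearMap.compl₁₂_apply]
  show A (invo h v) (invo h w) = A v w
  obtain ⟨e, he, f, hf, rfl⟩ := exists_decomp h v
  obtain ⟨e', he', f', hf', rfl⟩ := exists_decomp h w
  rw [map_add, map_add (invo h) e' f', invo_left h he, invo_right h hf, invo_left h he',
    invo_right h hf']
  simp only [map_add, map_neg, LinearMap.add_apply, LinearMap.neg_apply]
  rw [ho e he f' hf', hA.symm f e', ho e' he' f hf]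
  ring

theorem mean_orth [FiniteDimensional ℝ V] (h : IsCompl E F) {A B P : V →ₗ[ℝ] V →ₗ[ℝ] ℝ} (hA : PD A)
    (hB : PD B) (hoA : Orth E F A) (hoB : Orth E F B) (hP : IsMean A B P) : Orth E F P := by
  have h1 := hP.comap (invoE h)
  rw [comp_invo h hA hoA, comp_invo h hB hoB] at h1
  have h2 := h1.unique hA hB hP
  intro v hv w hw
  have h3 := congrArg (fun Q : V →ₗ[ℝ] V →ₗ[ℝ] ℝ => Q v w) h2
  simp only [LinearMap.compl₁₂_apply] at h3
  have h4 : P (invo h v) (invo h w) = P v w := h3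
  rw [invo_left h hv, invo_right h hw, map_neg, LinearMap.neg_apply] at h4
  linarith

/-- restriction of a form -/
def res (S : Submodule ℝ V) (B : V →ₗ[ℝ] V →ₗ[ℝ] ℝ) : S →ₗ[ℝ] S →ₗ[ℝ] ℝ :=
  B.compl₁₂ S.subtype S.subtype

lemma res_apply (S : Submodule ℝ V) (B : V →ₗ[ℝ] V →ₗ[ℝ] ℝ) (v w : S) : res S B v w = B v w := rfl

lemma PD.res (S : Submodule ℝ V) {B : V →ₗ[ℝ] V →ₗ[ℝ] ℝ} (hB : PD B) : PD (res S B) :=
  hB.comap S.subtype_injective

lemma isMean_res {S : Submodule ℝ V} {A B P : V →ₗ[ℝ] V →ₗ[ℝ] ℝ}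
    {T : V →ₗ[ℝ] V} (hPD : PD P) (hT : ∀ v w, P v w = A (T v) w) (hT2 : ∀ v w, B v w = A (T v) (T w))
    (hS : ∀ v ∈ S, T v ∈ S) : IsMean (res S A) (res S B) (res S P) := by
  refine ⟨hPD.res S, T.restrict hS, fun v w => ?_, fun v w => ?_⟩
  · rw [res_apply, hT, res_apply]; rfl
  · rw [res_apply, hT2, res_apply]; rfl

lemma isMean_res_right [FiniteDimensional ℝ V] (h : IsCompl E F) {A B P : V →ₗ[ℝ] V →ₗ[ℝ] ℝ}
    (hA : PD A) (hB : PD B) (hoA : Orth E F A) (hoB : Orth E F B) (hP : IsMean A B P) :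
    IsMean (res F A) (res F B) (res F P) := by
  obtain ⟨T, hT, hT2⟩ := hP.exists_op
  have hoP := mean_orth h hA hB hoA hoB hP
  refine isMean_res hP.pd hT hT2 fun v hv => mem_right_of_orth h hA hoA fun w hw => ?_
  rw [← hT, hP.pd.symm, hoP w hw v hv]

lemma isMean_res_left [FiniteDimensional ℝ V] (h : IsCompl E F) {A B P : V →ₗ[ℝ] V →ₗ[ℝ] ℝ}
    (hA : PD A) (hB : PD B) (hoA : Orth E F A) (hoB : Orth E F B) (hP : IsMean A B P) :
    IsMean (res E A) (res E B) (res E P) := by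
  obtain ⟨T, hT, hT2⟩ := hP.exists_op
  have hoP := mean_orth h hA hB hoA hoB hP
  refine isMean_res hP.pd hT hT2 fun v hv => mem_left_of_orth h hA hoA fun w hw => ?_
  rw [← hT, hoP v hv w hw]

/-- the three relations between the form at a point and the form pulled back from the image -/
structure Rel (E F : Submodule ℝ V) (k : ℕ) (κ : ℝ) (P R : V →ₗ[ℝ] V →ₗ[ℝ] ℝ) : Prop where
  vol : ∀ v : Fin k → V, (∀ i, v i ∈ F) → gram P v ≤ κ * gram R v
  con : ∀ v ∈ E, R v v ≤ κ * P v v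
  dom : ∀ v ∈ E, ∀ w ∈ F, R v v * P w w ≤ κ * (R w w * P v v)

/-- the largest ratio of two forms is attained -/
lemma exists_ratio [FiniteDimensional ℝ V] {A B : V →ₗ[ℝ] V →ₗ[ℝ] ℝ} (hA : PD A) (hB : PD B) {v₀ : V}
    (hv₀ : v₀ ≠ 0) : ∃ (α : ℝ) (v : V), 0 < α ∧ v ≠ 0 ∧ B v v = α * A v v ∧ ∀ w, B w w ≤ α * A w w := by
  obtain ⟨n, e, b, hb, hAe, hBe⟩ := exists_diag hA hB
  have hAe' : ∀ i j, A (e i) (e j) = if i = j then (fun _ => (1 : ℝ)) i else 0 := hAe
  have hn : Nonempty (Fin n) := by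
    by_contra hemp
    rw [not_nonempty_iff] at hemp
    apply hv₀
    rw [← e.sum_repr v₀]
    exact Finset.sum_of_isEmpty _
  obtain ⟨i, hi⟩ := Finite.exists_max b
  refine ⟨b i, e i, hb i, e.ne_zero i, ?_, fun w => ?_⟩
  · rw [hAe, hBe, if_pos rfl, if_pos rfl, mul_one]
  · rw [form_expand e hBe, form_expand e hAe', Finset.mul_sum]
    refine Finset.sum_le_sum fun j _ => ?_
    rw [one_mul, mul_assoc]
    exact mul_le_mul_of_nonneg_right (hi j) (mul_self_nonneg _)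

/-- a volume inequality between forms on a subspace, for frames in the subspace -/
lemma gram_res {k : ℕ} (S : Submodule ℝ V) (B : V →ₗ[ℝ] V →ₗ[ℝ] ℝ) (v : Fin k → S) :
    gram (res S B) v = gram B (fun i => (v i : V)) := rfl

theorem rel_half [FiniteDimensional ℝ V] (h : IsCompl E F) {P Q R S₁ S₂ : V →ₗ[ℝ] V →ₗ[ℝ] ℝ} {k : ℕ}
    {κ : ℝ} (hκ : 0 ≤ κ) (hP : PD P) (hQ : PD Q) (hR : PD R) (oP : Orth E F P) (oQ : Orth E F Q)
    (oR : Orth E F R) (h₁ : IsMean P Q S₁) (h₂ : IsMean Q R S₂) (hr : Rel E F k (κ ^ 2) P R) :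
    Rel E F k κ S₁ S₂ := by
  have h₁' := h₁.swap hP hQ
  have f1 := isMean_res_right h hQ hP oQ oP h₁'
  have f2 := isMean_res_right h hQ hR oQ oR h₂
  have e1 := isMean_res_left h hQ hP oQ oP h₁'
  have e2 := isMean_res_left h hQ hR oQ oR h₂
  refine ⟨fun v hv => ?_, fun v hv => ?_, fun v hv w hw => ?_⟩
  · have h3 := mean_half (hQ.res F) (hR.res F) f1 f2 hκ (k := k)
      (fun v => hr.vol (fun i => (v i : V)) fun i => (v i).2) (fun i => ⟨v i, hv i⟩)
    exact h3
  · have h3 := mean_half_one (hQ.res E) (hP.res E) e2 e1 hκ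
      (fun v => hr.con v v.2) ⟨v, hv⟩
    exact h3
  · by_cases hv0 : v = 0
    · rw [hv0]; simp
    -- the largest ratio on the first subspace
    have hv0' : (⟨v, hv⟩ : E) ≠ 0 := fun hc => hv0 (congrArg Subtype.val hc)
    obtain ⟨α, u, hα, hu0, huα, hmax⟩ := exists_ratio (hP.res E) (hR.res E) hv0'
    have hPu : 0 < P u u := hP.pos u (by simpa using hu0)
    have hF : ∀ w : F, res F P w w ≤ (κ / Real.sqrt α) ^ 2 * res F R w w := by
      intro w
      rw [res_apply, res_apply]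
      have h3 := hr.dom u u.2 w w.2
      rw [res_apply, res_apply] at huα
      rw [huα] at h3
      have h4 : α * P w w ≤ κ ^ 2 * R w w := by
        have : α * P w w * P u u ≤ κ ^ 2 * R w w * P u u := by
          calc _ = α * P u u * P w w := by ring
            _ ≤ _ := h3
            _ = _ := by ring
        exact le_of_mul_le_mul_right this hPu
      rw [div_pow, Real.sq_sqrt hα.le, div_mul_eq_mul_div, le_div_iff₀ hα]
      linarith
    have hsα : 0 < Real.sqrt α := Real.sqrt_pos.2 hα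
    have h5 := mean_half_one (hQ.res F) (hR.res F) f1 f2 (by positivity) hF ⟨w, hw⟩
    have h6 := mean_half_one (hQ.res E) (hP.res E) e2 e1 hsα.le
      (fun v => by rw [Real.sq_sqrt hα.le]; exact hmax v) ⟨v, hv⟩
    rw [res_apply, res_apply] at h5 h6
    have n1 : 0 ≤ S₂ v v := h₂.pd.nonneg v
    have n2 : 0 ≤ S₂ w w := h₂.pd.nonneg w
    have n3 : 0 ≤ S₁ w w := h₁.pd.nonneg w
    have n4 : 0 ≤ S₁ v v := h₁.pd.nonneg v
    calc S₂ v v * S₁ w w ≤ (Real.sqrt α * S₁ v v) * (κ / Real.sqrt α * S₂ w w) :=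
          mul_le_mul h6 h5 n3 (by positivity)
      _ = κ * (S₂ w w * S₁ v v) := by field_simp

theorem rel_trans {P Q R : V →ₗ[ℝ] V →ₗ[ℝ] ℝ} {k : ℕ} {κ κ' : ℝ} (hκ : 0 ≤ κ) (hκ' : 0 ≤ κ')
    (hP : PD P) (hQ : PD Q) (hR : PD R)
    (h1 : Rel E F k κ P Q) (h2 : Rel E F k κ' Q R) : Rel E F k (κ * κ') P R := by
  refine ⟨fun v hv => ?_, fun v hv => ?_, fun v hv w hw => ?_⟩
  · calc gram P v ≤ κ * gram Q v := h1.vol v hv
      _ ≤ κ * (κ' * gram R v) := by gcongr; exact h2.vol v hv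
      _ = _ := by ring
  · calc R v v ≤ κ' * Q v v := h2.con v hv
      _ ≤ κ' * (κ * P v v) := by gcongr; exact h1.con v hv
      _ = _ := by ring
  · by_cases hv0 : v = 0
    · rw [hv0]; simp
    by_cases hw0 : w = 0
    · rw [hw0]; simp
    have a1 := h1.dom v hv w hw
    have a2 := h2.dom v hv w hw
    have q1 := hQ.pos v hv0
    have q2 := hQ.pos w hw0
    have p1 := hP.pos v hv0
    have p2 := hP.pos w hw0
    have r1 := hR.pos v hv0
    have r2 := hR.pos w hw0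
    have h3 := mul_le_mul a2 a1 (by positivity) (by positivity)
    have h4 : R v v * P w w * (Q v v * Q w w) ≤ κ * κ' * (R w w * P v v) * (Q v v * Q w w) := by
      calc _ = R v v * Q w w * (Q v v * P w w) := by ring
        _ ≤ _ := h3
        _ = _ := by ring
    exact le_of_mul_le_mul_right h4 (mul_pos q1 q2)

lemma gram_comap {W : Type*} [AddCommGroup W] [Module ℝ W] {k : ℕ} (A : V →ₗ[ℝ] V →ₗ[ℝ] ℝ)
    (L : W →ₗ[ℝ] V) (v : Fin k → W) : gram (A.compl₁₂ L L) v = gram A (fun i => L (v i)) := rfl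

theorem Rel.comap {W : Type*} [AddCommGroup W] [Module ℝ W] {E' F' : Submodule ℝ W}
    {P R : V →ₗ[ℝ] V →ₗ[ℝ] ℝ} {k : ℕ} {κ : ℝ} (h : Rel E F k κ P R) (L : W →ₗ[ℝ] V)
    (hE : ∀ v ∈ E', L v ∈ E) (hF : ∀ v ∈ F', L v ∈ F) :
    Rel E' F' k κ (P.compl₁₂ L L) (R.compl₁₂ L L) := by
  refine ⟨fun v hv => ?_, fun v hv => ?_, fun v hv w hw => ?_⟩
  · rw [gram_comap, gram_comap]; exact h.vol _ fun i => hF _ (hv i)
  · exact h.con _ (hE _ hv)
  · exact h.dom _ (hE _ hv) _ (hF _ hw)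

lemma gram_mono [FiniteDimensional ℝ V] {P Q : V →ₗ[ℝ] V →ₗ[ℝ] ℝ} (hP : PD P) (hQ : PD Q) {a : ℝ}
    (h : ∀ v, P v v ≤ a * Q v v) {k : ℕ} (v : Fin k → V) : gram P v ≤ a ^ k * gram Q v := by
  obtain ⟨n, e, s, hs, hQe, hPe⟩ := exists_diag hQ hP
  have hQe' : ∀ i j, Q (e i) (e j) = if i = j then (fun _ => (1 : ℝ)) i else 0 := hQe
  have hsa : ∀ i, s i ≤ a := by
    intro i
    have := h (e i)
    rw [hPe, hQe, if_pos rfl, if_pos rfl, mul_one] at this
    exact this
  have hk : (0 : ℝ) < k.factorial := by exact_mod_cast k.factorial_pos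
  have h1 := gram_basis e hPe v
  have h2 := gram_basis e hQe' v
  have h3 : (k.factorial : ℝ) * gram P v ≤ a ^ k * ((k.factorial : ℝ) * gram Q v) := by
    rw [h1, h2, Finset.mul_sum]
    refine Finset.sum_le_sum fun f _ => ?_
    simp only [Finset.prod_const_one, one_mul]
    refine mul_le_mul_of_nonneg_right ?_ (sq_nonneg _)
    calc ∏ i, s (f i) ≤ ∏ _i : Fin k, a :=
          Finset.prod_le_prod (fun i _ => (hs _).le) (fun i _ => hsa _)
      _ = a ^ k := by simp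
  have h4 : (k.factorial : ℝ) * gram P v ≤ (k.factorial : ℝ) * (a ^ k * gram Q v) := by
    calc _ ≤ _ := h3
      _ = _ := by ring
  exact le_of_mul_le_mul_left h4 hk

lemma gram_nonneg [FiniteDimensional ℝ V] {P : V →ₗ[ℝ] V →ₗ[ℝ] ℝ} (hP : PD P) {k : ℕ} (v : Fin k → V) :
    0 ≤ gram P v := by
  obtain ⟨n, e, s, hs, hPe, -⟩ := exists_diag hP hP
  have hPe' : ∀ i j, P (e i) (e j) = if i = j then (fun _ => (1 : ℝ)) i else 0 := hPe
  have hk : (0 : ℝ) < k.factorial := by exact_mod_cast k.factorial_pos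
  have h1 := gram_basis e hPe' v
  have h2 : 0 ≤ (k.factorial : ℝ) * gram P v := by
    rw [h1]
    refine Finset.sum_nonneg fun f _ => ?_
    simp only [Finset.prod_const_one, one_mul]
    exact sq_nonneg _
  exact nonneg_of_mul_nonneg_right h2 hk

/-- stability of the relations under small changes of the forms -/
theorem rel_perturb [FiniteDimensional ℝ V] {P P' R R' : V →ₗ[ℝ] V →ₗ[ℝ] ℝ} {k : ℕ} {κ a : ℝ}
    (hκ : 0 ≤ κ) (ha : 1 ≤ a) (hP : PD P) (hP' : PD P') (hR : PD R) (hR' : PD R')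
    (h1 : ∀ v, P' v v ≤ a * P v v) (h2 : ∀ v, P v v ≤ a * P' v v)
    (h3 : ∀ v, R' v v ≤ a * R v v) (h4 : ∀ v, R v v ≤ a * R' v v) (h : Rel E F k κ P R) :
    Rel E F k (κ * a ^ (2 * k + 4)) P' R' := by
  have ha0 : 0 ≤ a := by linarith
  have e1 : a ^ (2 * k) ≤ a ^ (2 * k + 4) := pow_le_pow_right₀ ha (by omega)
  have e2 : a ^ 2 ≤ a ^ (2 * k + 4) := pow_le_pow_right₀ ha (by omega)
  have e3 : a ^ 4 ≤ a ^ (2 * k + 4) := pow_le_pow_right₀ ha (by omega)
  refine ⟨fun v hv => ?_, fun v hv => ?_, fun v hv w hw => ?_⟩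
  · have g1 := gram_mono hP' hP h1 v
    have g2 := gram_mono hR hR' h4 v
    have g3 := gram_nonneg hR' v
    have g4 := gram_nonneg hR v
    calc gram P' v ≤ a ^ k * gram P v := g1
      _ ≤ a ^ k * (κ * gram R v) := by gcongr; exact h.vol v hv
      _ ≤ a ^ k * (κ * (a ^ k * gram R' v)) := by gcongr
      _ = κ * a ^ (2 * k) * gram R' v := by ring
      _ ≤ κ * a ^ (2 * k + 4) * gram R' v := by gcongr
  · have g1 := hP'.nonneg v
    have g2 := h.con v hv
    calc R' v v ≤ a * R v v := h3 v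
      _ ≤ a * (κ * P v v) := by gcongr
      _ ≤ a * (κ * (a * P' v v)) := by gcongr; exact h2 v
      _ = κ * a ^ 2 * P' v v := by ring
      _ ≤ κ * a ^ (2 * k + 4) * P' v v := by gcongr
  · have r1 := hR.nonneg v
    have r2 := hR'.nonneg w
    have r3 := hP'.nonneg v
    have r4 := hP'.nonneg w
    have r5 := hP.nonneg v
    have r6 := hR.nonneg w
    calc R' v v * P' w w ≤ (a * R v v) * (a * P w w) :=
          mul_le_mul (h3 v) (h1 w) r4 (by positivity)
      _ = a ^ 2 * (R v v * P w w) := by ring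
      _ ≤ a ^ 2 * (κ * (R w w * P v v)) :=
          mul_le_mul_of_nonneg_left (h.dom v hv w hw) (by positivity)
      _ ≤ a ^ 2 * (κ * ((a * R' w w) * (a * P' v v))) := by
          gcongr
          · exact h4 w
          · exact h2 v
      _ = κ * a ^ 4 * (R' w w * P' v v) := by ring
      _ ≤ κ * a ^ (2 * k + 4) * (R' w w * P' v v) := by gcongr

/-- the geometric mean as a function -/
noncomputable def mean (A B : V →ₗ[ℝ] V →ₗ[ℝ] ℝ) : V →ₗ[ℝ] V →ₗ[ℝ] ℝ :=
  open Classical in if h : ∃ P, IsMean A B P then h.choose else A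

lemma mean_spec [FiniteDimensional ℝ V] {A B : V →ₗ[ℝ] V →ₗ[ℝ] ℝ} (hA : PD A) (hB : PD B) :
    IsMean A B (mean A B) := by
  unfold mean
  rw [dif_pos (exists_mean hA hB)]
  exact (exists_mean hA hB).choose_spec

end Pool.Agent.R191.Met
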